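import Mathlib

/-!
Project MC (MP_6dddb9_nt): the m-caliber of discriminant `pq` modulo 4.
Definitions and statements of the independent pieces.
-/

namespace Pool.Agent.R169.MC
open Finset Function

/-- a river edge: the form `a X² + h X Y - b Y²` of discriminant `D` with `a, b > 0` -/
@[ext] structure Edge (D : ℤ) where
  a : ℤ
  h : ℤ
  b : ℤ
  ha : 0 < a
  hb : 0 < b
  eq : h ^ 2 + 4 * a * b = D
deriving DecidableEq

/-- `D` is not a square -/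
class NS (D : ℤ) : Prop where
  ns : ∀ n : ℤ, n ^ 2 ≠ D

variable {D : ℤ}

/-- next edge -/
def F [NS D] (e : Edge D) : Edge D :=
  if h : 0 < e.a + e.h - e.b then
    ⟨e.a + e.h - e.b, e.h - 2 * e.b, e.b, h, e.hb, by linear_combination e.eq⟩
  else
    ⟨e.a, e.h + 2 * e.a, e.b - e.a - e.h, e.ha, by
      rcases lt_or_eq_of_le (not_lt.1 h) with h1 | h1
      · linarith
      · exfalso
        apply NS.ns (D := D) (e.a + e.b)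
        have h2 : e.h = e.b - e.a := by linarith
        have h3 := e.eq
        rw [h2] at h3
        linear_combination h3, by linear_combination e.eq⟩

/-- negative of the form -/
def al (e : Edge D) : Edge D := ⟨e.b, -e.h, e.a, e.hb, e.ha, by linear_combination e.eq⟩

/-- mirror image -/
def rh (e : Edge D) : Edge D := ⟨e.a, -e.h, e.b, e.ha, e.hb, by linear_combination e.eq⟩

/-- the parity -/
def sg (e : Edge D) : ZMod 2 := (((e.h - 1) / 2 + (e.a + 1) * (e.b + 1) : ℤ) : ZMod 2)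

def val (e : Edge D) (x y : ℤ) : ℤ := e.a * x ^ 2 + e.h * x * y - e.b * y ^ 2

def pol (e : Edge D) (x y z t : ℤ) : ℤ := 2 * e.a * x * z + e.h * (x * t + y * z) - 2 * e.b * y * t

/-- the matrix with columns `(x, y)` and `(z, t)` -/
@[ext] structure Mt where
  x : ℤ
  y : ℤ
  z : ℤ
  t : ℤ

def Mt.one : Mt := ⟨1, 0, 0, 1⟩
/-- matrix product -/
def Mt.mul (P Q : Mt) : Mt :=
  ⟨P.x * Q.x + P.z * Q.y, P.y * Q.x + P.t * Q.y, P.x * Q.z + P.z * Q.t, P.y * Q.z + P.t * Q.t⟩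
/-- transpose -/
def Mt.tr (P : Mt) : Mt := ⟨P.x, P.z, P.y, P.t⟩
def Mt.det (P : Mt) : ℤ := P.x * P.t - P.y * P.z
def Mt.NN (P : Mt) : Prop := 0 ≤ P.x ∧ 0 ≤ P.y ∧ 0 ≤ P.z ∧ 0 ≤ P.t

/-- `e'` is the form `e` in the basis given by the columns of `W` -/
def Rel (e : Edge D) (W : Mt) (e' : Edge D) : Prop :=
  e'.a = val e W.x W.y ∧ e'.h = pol e W.x W.y W.z W.t ∧ e'.b = - val e W.z W.t

/-- the matrix of the step `F` -/
def lt (e : Edge D) : Mt := if 0 < e.a + e.h - e.b then ⟨1, 1, 0, 1⟩ else ⟨1, 0, 1, 1⟩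

/-- the matrix of `n` steps -/
def Wm [NS D] : ℕ → Edge D → Mt
  | 0, _ => Mt.one
  | n + 1, e => (lt e).mul (Wm n (F e))

/-- `w` is an m-reduced real quadratic irrational of discriminant `D` -/
def IsMRed (D : ℤ) (w : ℝ) : Prop :=
  Irrational w ∧ ∃ a b c : ℤ, 0 < a ∧ Int.gcd (Int.gcd a b) c = 1 ∧ b ^ 2 - 4 * a * c = D ∧
    (a : ℝ) * w ^ 2 + b * w + c = 0 ∧ 1 < w ∧ 0 < -(b : ℝ) / a - w ∧ -(b : ℝ) / a - w < 1

/-- the m-caliber -/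
noncomputable def kap (D : ℤ) : ℕ := Set.ncard {w : ℝ | IsMRed D w}

/-- `D` is a product of two different primes congruent to 1 modulo 4 -/
structure PQ (p q D : ℤ) : Prop where
  hp : Prime p
  hq : Prime q
  p0 : 0 < p
  hlt : p < q
  p4 : p % 4 = 1
  q4 : q % 4 = 1
  hD : D = p * q

/-! ### pieces -/

/-- Zagier type bijection -/
def S_BIJ : Prop := ∀ p q D : ℤ, PQ p q D → 2 * kap D = Nat.card (Edge D)

/-- `F` and the reflections -/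
def S_DYN : Prop := ∀ (D : ℤ) [NS D], D % 4 = 1 → ∀ e : Edge D,
  F (al (rh (F e))) = al (rh e) ∧ F (al e) = al (F e) ∧ sg (F e) = sg e + 1 ∧
  sg (al e) = sg e + 1 ∧ sg (rh e) = sg e + 1

def S_FIN : Prop := ∀ D : ℤ, Finite (Edge D)

/-- edges with `F (rh e) = e` -/
def S_FIXC : Prop := ∀ (p q D : ℤ) [NS D], PQ p q D → ∀ e : Edge D,
  (F (rh e) = e ∧ sg e = 0) ↔
    ((e.a = 1 ∧ e.h = 1 ∧ e.b = (D - 1) / 4) ∨ (e.a = p ∧ e.h = p ∧ e.b = (q - p) / 4))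

/-- edges with `al (rh e) = e`: exactly two with `sg = 0` -/
def S_FIXE : Prop := ∀ p q D : ℤ, PQ p q D → ∃ e e' : Edge D, e ≠ e' ∧
  ∀ x : Edge D, (al (rh x) = x ∧ sg x = 0) ↔ (x = e ∨ x = e')

/-- dihedral counting, odd case -/
def S_DIHO : Prop := ∀ (X : Type) [Fintype X] [DecidableEq X] (T τ : Equiv.Perm X),
  (∀ x, τ (τ x) = x) → (∀ x, T (τ (T x)) = τ x) → ∀ c c' e e' : X, c ≠ c' → e ≠ e' →
  (∀ x, T (τ x) = x ↔ (x = c ∨ x = c')) → (∀ x, τ x = x ↔ (x = e ∨ x = e')) →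
  (∀ x, Odd (minimalPeriod T x)) →
  ((Fintype.card X : ℤ) ≡ minimalPeriod T c + minimalPeriod T c'
      + Nat.card (Quotient (Equiv.Perm.SameCycle.setoid T)) - 2 [ZMOD 4]) ∧
  ((T^[(minimalPeriod T c - 1) / 2] c = e ∧ T^[(minimalPeriod T c' - 1) / 2] c' = e') ∨
   (T^[(minimalPeriod T c - 1) / 2] c = e' ∧ T^[(minimalPeriod T c' - 1) / 2] c' = e)) ∧
  (¬ T.SameCycle c c') ∧ (∀ x, T.SameCycle x (τ x) → (T.SameCycle c x ∨ T.SameCycle c' x))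

/-- dihedral counting, even case -/
def S_DIHE : Prop := ∀ (X : Type) [Fintype X] [DecidableEq X] (T τ : Equiv.Perm X),
  (∀ x, τ (τ x) = x) → (∀ x, T (τ (T x)) = τ x) → ∀ c c' e e' : X, c ≠ c' → e ≠ e' →
  (∀ x, T (τ x) = x ↔ (x = c ∨ x = c')) → (∀ x, τ x = x ↔ (x = e ∨ x = e')) →
  (∀ x, Even (minimalPeriod T x)) →
  ((Fintype.card X : ℤ) ≡ minimalPeriod T c + minimalPeriod T e [ZMOD 4]) ∧
  T^[minimalPeriod T c / 2] c = c' ∧ T^[minimalPeriod T e / 2] e = e'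

/-- words -/
def S_WRD : Prop := ∀ (D : ℤ) [NS D] (e : Edge D) (n : ℕ),
  Rel e (Wm n e) (F^[n] e) ∧ (Wm n e).NN ∧ (Wm n e).det = 1 ∧
  Wm n (al (rh (F^[n] e))) = (Wm n e).tr ∧
  (∀ j : ℕ, Wm (n + j) e = (Wm n e).mul (Wm j (F^[n] e)))

/-- a nonnegative matrix between edges is a word -/
def S_CMP : Prop := ∀ (D : ℤ) [NS D] (e e' : Edge D) (W : Mt), W.NN → W.det = 1 → Rel e W e' →
  ∃ n : ℕ, W = Wm n e ∧ F^[n] e = e'

/-- units of norm `-1` -/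
def S_UNEG : Prop := ∀ (p q D : ℤ) [NS D], PQ p q D → ∀ e : Edge D,
  (∀ n : ℕ, F^[n] e = al e → ∃ t u : ℤ, 0 < t ∧ 0 < u ∧ t ^ 2 - D * u ^ 2 = -4 ∧
    (Wm n e).x = e.b * u ∧ 2 * (Wm n e).z = t - e.h * u ∧ 2 * (Wm n e).y = t + e.h * u ∧
    (Wm n e).t = e.a * u) ∧
  (∀ t u : ℤ, 0 < t → 0 < u → t ^ 2 - D * u ^ 2 = -4 → ∃ n : ℕ, F^[n] e = al e ∧
    (Wm n e).x = e.b * u ∧ 2 * (Wm n e).z = t - e.h * u ∧ 2 * (Wm n e).y = t + e.h * u ∧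
    (Wm n e).t = e.a * u)

/-- units of norm `1` -/
def S_UPOS : Prop := ∀ (p q D : ℤ) [NS D], PQ p q D → ∀ e : Edge D,
  (∀ n : ℕ, 0 < n → F^[n] e = e → ∃ t u : ℤ, 0 < t ∧ 0 < u ∧ t ^ 2 - D * u ^ 2 = 4 ∧
    2 * (Wm n e).x = t - e.h * u ∧ (Wm n e).z = e.b * u ∧ (Wm n e).y = e.a * u ∧
    2 * (Wm n e).t = t + e.h * u) ∧
  (∀ t u : ℤ, 0 < t → 0 < u → t ^ 2 - D * u ^ 2 = 4 → ∃ n : ℕ, 0 < n ∧ F^[n] e = e ∧
    2 * (Wm n e).x = t - e.h * u ∧ (Wm n e).z = e.b * u ∧ (Wm n e).y = e.a * u ∧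
    2 * (Wm n e).t = t + e.h * u)

/-- the algebraic identity for the odd case -/
def S_GA1 : Prop := ∀ p q k k' m m' h h' T U x y z t x' y' z' t' : ℤ,
  0 < p → p * q = 1 + 4 * k → q = p + 4 * k' → q % 4 = 1 →
  x * t - y * z = 1 → x' * t' - y' * z' = 1 →
  x ^ 2 + x * y - k * y ^ 2 = m → z ^ 2 + z * t - k * t ^ 2 = -m →
  h = 2 * x * z + (x * t + y * z) - 2 * k * y * t →
  p * x' ^ 2 + p * x' * y' - k' * y' ^ 2 = m' → p * z' ^ 2 + p * z' * t' - k' * t' ^ 2 = -m' →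
  h' = 2 * p * x' * z' + p * (x' * t' + y' * z') - 2 * k' * y' * t' →
  U = y ^ 2 + t ^ 2 → T = y ^ 2 + t ^ 2 + 2 * (x * y + z * t) →
  p * U = y' ^ 2 + t' ^ 2 → T = y' ^ 2 + t' ^ 2 + 2 * (x' * y' + z' * t') →
  ∃ X Y : ℤ, X ^ 2 + Y ^ 2 = q ∧ p * (X ^ 2 - Y ^ 2) = h * h' - 4 * m * m'

/-- the algebraic identities for the even case -/
def S_GA2 : Prop := ∀ p q m m' h h' T U x y z t r s δ : ℤ,
  0 < p → 0 < q → 0 < m → p * q = h ^ 2 + 4 * m ^ 2 → p * q = h' ^ 2 + 4 * m' ^ 2 →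
  x * t - y * z = 1 →
  m * x ^ 2 + h * x * y - m * y ^ 2 = m' → m * z ^ 2 + h * z * t - m * t ^ 2 = -m' →
  h' = 2 * m * x * z + h * (x * t + y * z) - 2 * m * y * t →
  m * U = x * y + z * t → T = x ^ 2 + y ^ 2 + z ^ 2 + t ^ 2 →
  h * U = y ^ 2 + t ^ 2 - x ^ 2 - z ^ 2 →
  p * r ^ 2 - q * s ^ 2 = 4 * δ → 2 * T = p * r ^ 2 + q * s ^ 2 → U = r * s →
  (δ = 1 → ∃ X Y : ℤ, X ^ 2 + Y ^ 2 = q ∧ p * (X ^ 2 - Y ^ 2) = h * h' - 4 * m * m') ∧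
  (δ = -1 → ∃ X Y : ℤ, X ^ 2 + Y ^ 2 = p ∧ q * (X ^ 2 - Y ^ 2) = h * h' - 4 * m * m')

/-- the sign lemma -/
def S_SGN : Prop := ∀ p q a b c d h h' m m' X Y : ℤ, Prime p → Prime q → p ≠ q →
  p % 4 = 1 → q % 4 = 1 → 0 < a → a < b → p = a ^ 2 + b ^ 2 → 0 < c → c < d →
  q = c ^ 2 + d ^ 2 → (a + c) % 2 = 1 → 0 < m → 0 < m' →
  p * q = h ^ 2 + 4 * m ^ 2 → p * q = h' ^ 2 + 4 * m' ^ 2 → X ^ 2 + Y ^ 2 = q →
  p * (X ^ 2 - Y ^ 2) = h * h' - 4 * m * m' →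
  (a % 2 = 0 → (h * h') % 4 = 1) ∧ (a % 2 = 1 → (h * h') % 4 = 3)

/-- every form is equivalent to an edge -/
def S_RED1 : Prop := ∀ (D : ℤ) [NS D], 0 < D → ∀ A B C : ℤ, B ^ 2 - 4 * A * C = D →
  ∃ (W : Mt) (e : Edge D), W.det = 1 ∧ e.a = A * W.x ^ 2 + B * W.x * W.y + C * W.y ^ 2 ∧
    e.h = 2 * A * W.x * W.z + B * (W.x * W.t + W.y * W.z) + 2 * C * W.y * W.t ∧
    -e.b = A * W.z ^ 2 + B * W.z * W.t + C * W.t ^ 2

/-- equivalent edges are on the same cycle -/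
def S_RED2 : Prop := ∀ (D : ℤ) [NS D] (e e' : Edge D) (W : Mt), W.det = 1 → Rel e W e' →
  ∃ n : ℕ, F^[n] e = e' ∨ F^[n] e' = e

/-- auxiliary prime -/
def S_RPR : Prop := ∀ p q D : ℤ, PQ p q D → ∃ r : ℕ, r.Prime ∧ r ≠ 2 ∧ ¬ (p ∣ (r : ℤ)) ∧
  ¬ IsSquare ((r : ℤ) : ZMod p.natAbs) ∧ ∃ g : ℤ, (4 * (r : ℤ)) ∣ (g ^ 2 - D) ∧ ¬ (r : ℤ) ∣ D

/-- genus -/
def gen (p : ℤ) (e : Edge D) : Prop :=
  ∃ x y : ℤ, ¬ p ∣ val e x y ∧ IsSquare ((val e x y : ℤ) : ZMod p.natAbs)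

/-- a class function: being on the same cycle -/
def Cyc [NS D] (e e' : Edge D) : Prop := ∃ n : ℕ, F^[n] e = e'

/-- the two genera have the same number of cycles: an injection from either genus to the other -/
def S_NEI : Prop := ∀ (p q D : ℤ) [NS D], PQ p q D →
  ∃ m : Edge D → Edge D, (∀ e, gen p (m e) ↔ ¬ gen p e) ∧
    (∀ e e', Cyc (m e) (m e') → Cyc e e') 

def S_UNEG' : Prop := S_WRD → S_CMP → S_UNEG
def S_UPOS' : Prop := S_WRD → S_CMP → S_UPOS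
def S_NEI' : Prop := S_RED1 → S_RED2 → S_RPR → S_NEI

/-- the final congruence -/
def S_MAIN : Prop := ∀ p q a b c d : ℕ, p.Prime → q.Prime → p < q → p % 4 = 1 → q % 4 = 1 →
  0 < a → a < b → p = a ^ 2 + b ^ 2 → 0 < c → c < d → q = c ^ 2 + d ^ 2 →
  a % 2 ≠ c % 2 →
  (kap (p * q) : ℤ) ≡ 1 - (-1) ^ a * jacobiSym q p [ZMOD 4]

end Pool.Agent.R169.MC
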