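import Mathlib
import Pool.Agent.R169.MC.Stm

/-!
Project MC, piece BIJ: `2 * kap D = Nat.card (Edge D)`.

An m-reduced number `w` with `a w² + b w + c = 0` corresponds to the edge
`(-a-b-c, -b-2c, c)`; these are exactly the edges with `a < h + b`, and the map `al` exchanges
the edges with `a < h + b` and the edges with `a > h + b`.
-/

namespace Pool.Agent.R169.MC.Bij
open Pool.Agent.R169.MC

variable {D : ℤ}

/-- half of the edges -/
def EP (D : ℤ) : Set (Edge D) := {e | e.a < e.h + e.b}

theorem al_al (e : Edge D) : al (al e) = e := by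
  ext <;> simp [al]

theorem al_EP (hD : ∀ n : ℤ, n ^ 2 ≠ D) (e : Edge D) :
    (al e).a < (al e).h + (al e).b ↔ ¬ e.a < e.h + e.b := by
  simp only [al]
  constructor
  · intro h h'
    linarith
  · intro h
    have h1 : e.h + e.b ≤ e.a := not_lt.1 h
    rcases lt_or_eq_of_le h1 with h2 | h2
    · linarith
    · exfalso
      apply hD (e.a + e.b)
      have h3 := e.eq
      have h4 : e.h = e.a - e.b := by linarith
      rw [h4] at h3
      linear_combination h3

/-- all edges are the edges of `EP` and their images under `al` -/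
noncomputable def eqv (hD : ∀ n : ℤ, n ^ 2 ≠ D) : Edge D ≃ (EP D) × Bool where
  toFun e := if h : e.a < e.h + e.b then (⟨e, h⟩, true)
    else (⟨al e, (al_EP hD e).2 h⟩, false)
  invFun x := if x.2 = true then x.1.1 else al x.1.1
  left_inv e := by
    by_cases h : e.a < e.h + e.b
    · simp [h]
    · simp [h, al_al]
  right_inv x := by
    rcases x with ⟨⟨e, he⟩, b⟩
    have he' : e.a < e.h + e.b := he
    cases b
    · have h1 : ¬ (al e).a < (al e).h + (al e).b := by
        rw [al_EP hD]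
        simpa using he'
      simp [h1, al_al]
    · simp [he']

/-- the m-reduced number of an edge -/
noncomputable def ph (e : Edge D) : ℝ :=
  (((e.h + 2 * e.b : ℤ) : ℝ) + Real.sqrt D) / (2 * ((e.h + e.b - e.a : ℤ) : ℝ))

theorem irr (hD : ∀ n : ℤ, n ^ 2 ≠ D) (h0 : 0 < D) : Irrational (Real.sqrt D) := by
  apply irrational_nrt_of_notint_nrt 2 D
  · exact Real.sq_sqrt (by exact_mod_cast h0.le)
  · rintro ⟨y, hy⟩
    apply hD y
    have h1 := Real.sq_sqrt (show (0 : ℝ) ≤ D by exact_mod_cast h0.le)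
    rw [hy] at h1
    exact_mod_cast h1
  · norm_num

theorem key (hD : ∀ n : ℤ, n ^ 2 ≠ D) (h0 : 0 < D)
    (hsf : ∀ g : ℤ, g * g ∣ D → IsUnit g) :
    {w : ℝ | IsMRed D w} = ph '' (EP D) := by
  have hDr : (0 : ℝ) < D := by exact_mod_cast h0
  have hirr := irr hD h0
  ext w
  rw [Set.mem_image]
  show IsMRed D w ↔ _
  constructor
  · rintro ⟨hw, a, b, c, ha, -, hd, he, h1, h2, h3⟩
    have haR : (0 : ℝ) < a := by exact_mod_cast ha
    set w' : ℝ := -(b : ℝ) / a - w with hw'
    have hsum : (b : ℝ) = -a * (w + w') := by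
      rw [hw']; field_simp; ring
    have hc : (c : ℝ) = a * w * w' := by
      rw [hsum] at he
      linear_combination he
    have hc0 : 0 < c := by
      have : (0 : ℝ) < c := by rw [hc]; positivity
      exact_mod_cast this
    have habc : a + b + c < 0 := by
      have : (a : ℝ) + b + c < 0 := by
        have h5 : (a : ℝ) + b + c = a * ((1 - w) * (1 - w')) := by
          rw [hc, hsum]; ring
        rw [h5]
        exact mul_neg_of_pos_of_neg haR (mul_neg_of_neg_of_pos (by linarith) (by linarith))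
      exact_mod_cast this
    refine ⟨⟨-a - b - c, -b - 2 * c, c, by linarith, hc0, by linear_combination hd⟩, ?_, ?_⟩
    · show -a - b - c < -b - 2 * c + c
      linarith
    · have hs : Real.sqrt D = 2 * a * w + b := by
        have h6 : (D : ℝ) = (2 * a * w + b) ^ 2 := by
          have : (D : ℝ) = (b : ℝ) ^ 2 - 4 * a * c := by rw [← hd]; push_cast; ring
          rw [this]
          linear_combination (-4 * (a : ℝ)) * he
        rw [h6, Real.sqrt_sq]
        have : 2 * (a : ℝ) * w + b = a * (w - w') := by rw [hsum]; ring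
        rw [this]
        exact (mul_pos haR (by linarith)).le
      simp only [ph]
      rw [hs]
      push_cast
      rw [div_eq_iff (by
        have : (-(b : ℝ) - 2 * c + c - (-a - b - c)) = a := by ring
        rw [this]; positivity)]
      ring
  · rintro ⟨e, he, rfl⟩
    have he' : e.a < e.h + e.b := he
    obtain ⟨A, hA⟩ : ∃ A : ℤ, A = e.h + e.b - e.a := ⟨_, rfl⟩
    obtain ⟨H, hH⟩ : ∃ H : ℤ, H = e.h + 2 * e.b := ⟨_, rfl⟩
    have hA0 : 0 < A := by rw [hA]; linarith
    have hAR : (0 : ℝ) < A := by exact_mod_cast hA0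
    have hC0 : 0 < e.b := e.hb
    have hdisc : H ^ 2 - 4 * A * e.b = D := by
      rw [hA, hH]; linear_combination e.eq
    have hAC : A + e.b < H := by
      rw [hA, hH]; linarith [e.ha]
    have hdR : (H : ℝ) ^ 2 - 4 * A * e.b = D := by exact_mod_cast hdisc
    have hphi : ph e = ((H : ℝ) + Real.sqrt D) / (2 * (A : ℝ)) := by
      simp only [ph, hA, hH]
    have hsq := Real.sq_sqrt hDr.le
    have hs0 := Real.sqrt_pos.2 hDr
    have hCR : (0 : ℝ) < e.b := by exact_mod_cast hC0
    have hACR : (A : ℝ) + e.b < H := by exact_mod_cast hAC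
    have hlt1 : Real.sqrt D < H := by
      apply Real.sqrt_lt' (by linarith) |>.2
      nlinarith [mul_pos hAR hCR]
    have habs : |(H : ℝ) - 2 * A| < Real.sqrt D := by
      apply Real.lt_sqrt_of_sq_lt
      rw [sq_abs]
      nlinarith [mul_pos hAR (show (0 : ℝ) < H - A - e.b by linarith)]
    have habs' := abs_lt.1 habs
    rw [hphi]
    refine ⟨?_, A, -H, e.b, hA0, ?_, by linear_combination hdisc, ?_, ?_, ?_, ?_⟩
    · intro hr
      obtain ⟨r, hr⟩ := hr
      apply hirr
      refine ⟨2 * A * r - H, ?_⟩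
      push_cast
      rw [hr]
      field_simp
      ring
    · have hg1 : ((Int.gcd (Int.gcd A (-H)) e.b : ℕ) : ℤ) ∣ A :=
        (Int.gcd_dvd_left _ _).trans (Int.gcd_dvd_left _ _)
      have hg2 : ((Int.gcd (Int.gcd A (-H)) e.b : ℕ) : ℤ) ∣ -H :=
        (Int.gcd_dvd_left _ _).trans (Int.gcd_dvd_right _ _)
      have hg3 : ((Int.gcd (Int.gcd A (-H)) e.b : ℕ) : ℤ) ∣ e.b := Int.gcd_dvd_right _ _
      have h7 : ∀ g : ℤ, g ∣ A → g ∣ -H → g ∣ e.b → g * g ∣ D := by
        intro g hg1 hg2 hg3
        have e1 : (-H) * (-H) - 4 * (A * e.b) = D := by linear_combination hdisc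
        have e2 : g * g ∣ (-H) * (-H) - 4 * (A * e.b) :=
          dvd_sub (mul_dvd_mul hg2 hg2) (Dvd.dvd.mul_left (mul_dvd_mul hg1 hg3) 4)
        rwa [e1] at e2
      have h8 := hsf _ (h7 _ hg1 hg2 hg3)
      rw [Int.ofNat_isUnit] at h8
      exact Nat.isUnit_iff.1 h8
    · field_simp
      push_cast
      nlinarith [hsq, hdR]
    · rw [lt_div_iff₀ (by positivity)]
      linarith [habs'.1]
    · have : -((-H : ℤ) : ℝ) / A - ((H : ℝ) + Real.sqrt D) / (2 * (A : ℝ)) =
          ((H : ℝ) - Real.sqrt D) / (2 * (A : ℝ)) := by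
        push_cast
        field_simp
        ring
      rw [this]
      exact div_pos (by linarith) (by positivity)
    · have : -((-H : ℤ) : ℝ) / A - ((H : ℝ) + Real.sqrt D) / (2 * (A : ℝ)) =
          ((H : ℝ) - Real.sqrt D) / (2 * (A : ℝ)) := by
        push_cast
        field_simp
        ring
      rw [this, div_lt_iff₀ (by positivity)]
      linarith [habs'.2]

theorem inj (hD : ∀ n : ℤ, n ^ 2 ≠ D) (h0 : 0 < D) :
    Set.InjOn (ph (D := D)) (EP D) := by
  have hirr := irr hD h0
  intro e he f hf hef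
  have he' : e.a < e.h + e.b := he
  have hf' : f.a < f.h + f.b := hf
  have hA : (0 : ℝ) < ((e.h + e.b - e.a : ℤ) : ℝ) := by
    exact_mod_cast (show (0 : ℤ) < e.h + e.b - e.a by linarith)
  have hA' : (0 : ℝ) < ((f.h + f.b - f.a : ℤ) : ℝ) := by
    exact_mod_cast (show (0 : ℤ) < f.h + f.b - f.a by linarith)
  simp only [ph] at hef
  rw [div_eq_div_iff (by positivity) (by positivity)] at hef
  have h1 : (((f.h + f.b - f.a) - (e.h + e.b - e.a) : ℤ) : ℝ) * Real.sqrt D =
      (((e.h + e.b - e.a) * (f.h + 2 * f.b) - (f.h + f.b - f.a) * (e.h + 2 * e.b) : ℤ) : ℝ) := by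
    push_cast at hef ⊢
    linear_combination hef / 2
  have h2 : (f.h + f.b - f.a) - (e.h + e.b - e.a) = 0 := by
    by_contra h
    apply hirr
    refine ⟨(((e.h + e.b - e.a) * (f.h + 2 * f.b) - (f.h + f.b - f.a) * (e.h + 2 * e.b) : ℤ) : ℚ) /
      (((f.h + f.b - f.a) - (e.h + e.b - e.a) : ℤ) : ℚ), ?_⟩
    have h3 : (((f.h + f.b - f.a) - (e.h + e.b - e.a) : ℤ) : ℝ) ≠ 0 := by exact_mod_cast h
    rw [Rat.cast_div, Rat.cast_intCast, Rat.cast_intCast, div_eq_iff h3, ← h1]
    ring
  have h4 : (e.h + e.b - e.a) * (f.h + 2 * f.b) - (f.h + f.b - f.a) * (e.h + 2 * e.b) = 0 := by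
    rw [h2] at h1
    have : (0 : ℝ) = (((e.h + e.b - e.a) * (f.h + 2 * f.b) -
      (f.h + f.b - f.a) * (e.h + 2 * e.b) : ℤ) : ℝ) := by
      rw [← h1]; simp
    exact_mod_cast this.symm
  have h5 : f.h + f.b - f.a = e.h + e.b - e.a := by linarith
  have h6 : f.h + 2 * f.b = e.h + 2 * e.b := by
    rw [h5] at h4
    have h7 : (e.h + e.b - e.a) * ((f.h + 2 * f.b) - (e.h + 2 * e.b)) = 0 := by
      linear_combination h4
    rcases mul_eq_zero.1 h7 with h8 | h8
    · exfalso; linarith
    · linarith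
  -- the constant coefficient
  have h7 : (e.h + e.b - e.a) * (f.b - e.b) = 0 := by
    have e1 := e.eq
    have e2 := f.eq
    have e3 : (e.h + 2 * e.b) ^ 2 - 4 * (e.h + e.b - e.a) * e.b = D := by
      linear_combination e1
    have e4 : (f.h + 2 * f.b) ^ 2 - 4 * (f.h + f.b - f.a) * f.b = D := by
      linear_combination e2
    rw [h5, h6] at e4
    linarith
  have h8 : f.b = e.b := by
    rcases mul_eq_zero.1 h7 with h8 | h8
    · exfalso; linarith
    · linarith
  have h9 : f.h = e.h := by linarith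
  have h10 : f.a = e.a := by linarith
  ext
  · exact h10.symm
  · exact h9.symm
  · exact h8.symm

theorem not_assoc {p q D : ℤ} (h : PQ p q D) : ¬ Associated p q := by
  intro h1
  rcases Int.associated_iff.1 h1 with h2 | h2
  · have := h.hlt; omega
  · have := h.hlt; have := h.p0; omega

theorem nonsq {p q D : ℤ} (h : PQ p q D) (n : ℤ) : n ^ 2 ≠ D := by
  intro hn
  have hp := h.hp
  have hq := h.hq
  have h1 : p ∣ n ^ 2 := by rw [hn, h.hD]; exact dvd_mul_right _ _
  have h2 : p ∣ n := hp.dvd_of_dvd_pow h1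
  obtain ⟨k, rfl⟩ := h2
  have h3 : p * (p * k ^ 2) = p * q := by rw [← h.hD, ← hn]; ring
  have h4 : p * k ^ 2 = q := mul_left_cancel₀ (ne_of_gt h.p0) h3
  have h5 : p ∣ q := ⟨k ^ 2, h4.symm⟩
  exact not_assoc h ((hp.dvd_prime_iff_associated hq).1 h5)

theorem sqfree {p q D : ℤ} (h : PQ p q D) (g : ℤ) (hg : g * g ∣ D) : IsUnit g := by
  have h1 : Squarefree D := by
    rw [h.hD, squarefree_mul_iff]
    refine ⟨?_, h.hp.squarefree, h.hq.squarefree⟩
    exact (h.hp.irreducible.isRelPrime_iff_not_dvd).2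
      (fun hd => not_assoc h ((h.hp.dvd_prime_iff_associated h.hq).1 hd))
  exact h1 g hg

/-- the bijection -/
theorem main : S_BIJ := by
  intro p q D h
  have hD := nonsq h
  have h0 : 0 < D := by
    rw [h.hD]
    exact mul_pos h.p0 (h.p0.trans h.hlt)
  rw [Nat.card_congr (eqv hD), Nat.card_prod, kap, key hD h0 (sqfree h),
    Set.InjOn.ncard_image (inj hD h0)]
  simp only [Nat.card_eq_fintype_card, Fintype.card_bool, Set.ncard]
  rw [mul_comm]
  rfl

end Pool.Agent.R169.MC.Bij
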