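import Pool.Agent.R169.MC.Stm2

/-!
# The number of orbits of the rotation modulo 4, odd case
-/

namespace Pool.Agent.R169.MC.CN
open Finset Function Pool.Agent.R169.MC Pool.Agent.R169.MC.Dyn

/-! ### abstract counting -/

theorem card_two (Q : Type) [Fintype Q] (G : Q → Prop) (φ : Q → Q)
    (hφ : Injective φ) (hG : ∀ u, G (φ u) ↔ ¬ G u) [DecidablePred G] :
    Fintype.card Q = 2 * (univ.filter G).card := by
  classical
  have h1 : (univ.filter G).card + (univ.filter (fun u => ¬ G u)).card = Fintype.card Q := by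
    rw [card_filter_add_card_filter_not]; rfl
  have h2 : (univ.filter G).card ≤ (univ.filter (fun u => ¬ G u)).card := by
    apply card_le_card_of_injOn φ
    · intro u hu
      have hu' : G u := by simpa using hu
      have : ¬ G (φ u) := by rw [hG]; exact not_not.2 hu'
      simpa using this
    · exact fun _ _ _ _ h => hφ h
  have h3 : (univ.filter (fun u => ¬ G u)).card ≤ (univ.filter G).card := by
    apply card_le_card_of_injOn φ
    · intro u hu
      have hu' : ¬ G u := by simpa using hu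
      have : G (φ u) := by rw [hG]; exact hu'
      simpa using this
    · exact fun _ _ _ _ h => hφ h
  omega

theorem par_fix (P : Type) [Fintype P] [DecidableEq P] (τ : P → P) (hτ : ∀ u, τ (τ u) = u) :
    (Fintype.card P) % 2 = (univ.filter (fun u => τ u = u)).card % 2 := by
  let σ : Equiv.Perm P := ⟨τ, τ, hτ, hτ⟩
  have hσ : σ ^ 2 ^ 1 = 1 := by
    ext u
    simp only [pow_one]
    rw [pow_two, Equiv.Perm.mul_apply]
    exact hτ u
  have h := Equiv.Perm.card_compl_support_modEq (p := 2) (n := 1) hσ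
  have h2 : (Equiv.Perm.support σ)ᶜ = univ.filter (fun u => τ u = u) := by
    ext u
    simp only [mem_compl, Equiv.Perm.mem_support, not_not, mem_filter, mem_univ, true_and]
    rfl
  rw [h2] at h
  exact h.symm

theorem count_abs (Q : Type) [Fintype Q] (G : Q → Prop) (φ : Q → Q) (hφ : Injective φ)
    (hG : ∀ u, G (φ u) ↔ ¬ G u) (τ : Q → Q) (hτ : ∀ u, τ (τ u) = u)
    (hGτ : ∀ u, G (τ u) ↔ G u) (c c' : Q) (hcc : c ≠ c') (hc : τ c = c) (hc' : τ c' = c')
    (hfix : ∀ u, τ u = u → u = c ∨ u = c') (hGc : G c) :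
    (G c' → Fintype.card Q % 4 = 0) ∧ (¬ G c' → Fintype.card Q % 4 = 2) := by
  classical
  have h1 := card_two Q G φ hφ hG
  have h2 : (univ.filter G).card = Fintype.card {u // G u} := by
    rw [Fintype.card_subtype]
  let τ' : {u // G u} → {u // G u} := fun u => ⟨τ u.1, (hGτ u.1).2 u.2⟩
  have h3 := par_fix {u // G u} τ' (fun u => Subtype.ext (hτ u.1))
  rw [← h2] at h3
  constructor
  · intro hg
    have h4 : (univ.filter (fun u : {u // G u} => τ' u = u)) = {⟨c, hGc⟩, ⟨c', hg⟩} := by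
      ext u
      simp only [mem_filter, mem_univ, true_and, mem_insert, mem_singleton]
      constructor
      · intro h
        have h5 : τ u.1 = u.1 := congrArg Subtype.val h
        rcases hfix _ h5 with h6 | h6
        · left; exact Subtype.ext h6
        · right; exact Subtype.ext h6
      · rintro (rfl | rfl)
        · exact Subtype.ext hc
        · exact Subtype.ext hc'
    rw [h4, card_pair (by intro h; exact hcc (congrArg Subtype.val h))] at h3
    omega
  · intro hg
    have h4 : (univ.filter (fun u : {u // G u} => τ' u = u)) = {⟨c, hGc⟩} := by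
      ext u
      simp only [mem_filter, mem_univ, true_and, mem_singleton]
      constructor
      · intro h
        have h5 : τ u.1 = u.1 := congrArg Subtype.val h
        rcases hfix _ h5 with h6 | h6
        · exact Subtype.ext h6
        · exfalso; apply hg; rw [← h6]; exact u.2
      · rintro rfl
        exact Subtype.ext hc
    rw [h4, card_singleton] at h3
    omega

/-! ### the genus is invariant -/

theorem gen_F {D : ℤ} [NS D] (p : ℤ) (e : Edge D) : gen p (F e) ↔ gen p e := by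
  by_cases h : 0 < e.a + e.h - e.b
  · obtain ⟨h1, h2, h3⟩ := F_pos h
    have hv : ∀ x y, val (F e) x y = val e x (x + y) := by
      intro x y; unfold val; rw [h1, h2, h3]; ring
    constructor
    · rintro ⟨x, y, g1, g2⟩
      rw [hv] at g1 g2
      exact ⟨_, _, g1, g2⟩
    · rintro ⟨x, y, g1, g2⟩
      refine ⟨x, y - x, ?_, ?_⟩
      · rw [hv, add_sub_cancel]; exact g1
      · rw [hv, add_sub_cancel]; exact g2
  · obtain ⟨h1, h2, h3⟩ := F_neg h
    have hv : ∀ x y, val (F e) x y = val e (x + y) y := by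
      intro x y; unfold val; rw [h1, h2, h3]; ring
    constructor
    · rintro ⟨x, y, g1, g2⟩
      rw [hv] at g1 g2
      exact ⟨_, _, g1, g2⟩
    · rintro ⟨x, y, g1, g2⟩
      refine ⟨x - y, y, ?_, ?_⟩
      · rw [hv, sub_add_cancel]; exact g1
      · rw [hv, sub_add_cancel]; exact g2

theorem gen_rh {D : ℤ} (p : ℤ) (e : Edge D) : gen p (rh e) ↔ gen p e := by
  have hv : ∀ x y, val (rh e) x y = val e x (-y) := by
    intro x y; unfold val rh; ring
  constructor
  · rintro ⟨x, y, g1, g2⟩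
    rw [hv] at g1 g2
    exact ⟨_, _, g1, g2⟩
  · rintro ⟨x, y, g1, g2⟩
    refine ⟨x, -y, ?_, ?_⟩
    · rw [hv, neg_neg]; exact g1
    · rw [hv, neg_neg]; exact g2

theorem fact_p {p q D : ℤ} (h : PQ p q D) : Fact p.natAbs.Prime := ⟨Int.prime_iff_natAbs_prime.1 h.hp⟩

theorem p_mod {p q D : ℤ} (h : PQ p q D) : p.natAbs % 4 = 1 := by
  have h1 := h.p0
  have h2 := h.p4
  omega

theorem neg_sq {p q D : ℤ} (h : PQ p q D) (v : ZMod p.natAbs) (hv : IsSquare v) :
    IsSquare (-v) := by
  haveI := fact_p h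
  have h1 : IsSquare (-1 : ZMod p.natAbs) := by
    rw [ZMod.exists_sq_eq_neg_one_iff, p_mod h]; decide
  have h2 : -v = (-1) * v := by ring
  rw [h2]
  exact h1.mul hv

theorem gen_al {p q D : ℤ} (h : PQ p q D) (e : Edge D) : gen p (al e) ↔ gen p e := by
  have hv : ∀ x y, val (al e) x y = - val e y x := by
    intro x y; unfold val al; ring
  constructor
  · rintro ⟨x, y, g1, g2⟩
    rw [hv] at g1 g2
    refine ⟨y, x, fun h3 => g1 ((dvd_neg).2 h3), ?_⟩
    have h4 := neg_sq h _ g2
    have h5 : -(((-val e y x : ℤ)) : ZMod p.natAbs) = ((val e y x : ℤ) : ZMod p.natAbs) := by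
      push_cast; ring
    rwa [h5] at h4
  · rintro ⟨x, y, g1, g2⟩
    refine ⟨y, x, ?_, ?_⟩
    · rw [hv]; exact fun h3 => g1 ((dvd_neg).1 h3)
    · rw [hv]
      have h4 := neg_sq h _ g2
      push_cast
      exact h4

theorem gen_c {p q D : ℤ} (h : PQ p q D) (e : Edge D) (ha : e.a = 1) : gen p e := by
  refine ⟨1, 0, ?_, ?_⟩
  · have : val e 1 0 = 1 := by unfold val; rw [ha]; ring
    rw [this]
    intro h1
    exact h.hp.not_unit (isUnit_of_dvd_one h1)
  · have : val e 1 0 = 1 := by unfold val; rw [ha]; ring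
    rw [this]
    simp

theorem gen_c' {p q D : ℤ} (h : PQ p q D) (e : Edge D) (ha : e.a = p) (hh : e.h = p) :
    gen p e ↔ IsSquare ((q : ℤ) : ZMod p.natAbs) := by
  haveI := fact_p h
  have hp0 : (((p : ℤ)) : ZMod p.natAbs) = 0 := by
    rw [ZMod.intCast_zmod_eq_zero_iff_dvd]
    exact Int.natAbs_dvd.2 dvd_rfl
  have h1 : p + 4 * e.b = q := by
    have h2 := e.eq
    have h20 := h.hD
    rw [ha, hh] at h2
    have h3 : p * (p + 4 * e.b) = p * q := by linear_combination h2 + h20
    exact mul_left_cancel₀ (ne_of_gt h.p0) h3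
  have h4 : ((q : ℤ) : ZMod p.natAbs) = 4 * ((e.b : ℤ) : ZMod p.natAbs) := by
    rw [← h1]; push_cast; rw [hp0]; ring
  have hv : ∀ x y, ((val e x y : ℤ) : ZMod p.natAbs)
      = - (((e.b : ℤ) : ZMod p.natAbs) * ((y : ℤ) : ZMod p.natAbs) ^ 2) := by
    intro x y; unfold val; rw [ha, hh]; push_cast; rw [hp0]; ring
  have h42 : (4 : ZMod p.natAbs) ≠ 0 := by
    have h5 : ((4 : ℤ) : ZMod p.natAbs) ≠ 0 := by
      intro h6
      rw [ZMod.intCast_zmod_eq_zero_iff_dvd, Int.natAbs_dvd] at h6
      have h7 := Int.le_of_dvd (by norm_num) h6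
      have h8 := h.p0
      have h9 := h.p4
      interval_cases p <;> simp_all
      exact absurd h.hp (by norm_num)
    exact_mod_cast h5
  have hnd : ¬ p ∣ q := by
    intro h6
    have h7 := (Int.prime_iff_natAbs_prime.1 h.hp)
    have h8 := (Int.prime_iff_natAbs_prime.1 h.hq)
    have h9 := (Nat.prime_dvd_prime_iff_eq h7 h8).1 (Int.natAbs_dvd_natAbs.2 h6)
    have h10 := h.hlt
    have h11 := h.p0
    omega
  constructor
  · rintro ⟨x, y, g1, g2⟩
    have h5 : (((val e x y : ℤ)) : ZMod p.natAbs) ≠ 0 := by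
      intro h6
      rw [ZMod.intCast_zmod_eq_zero_iff_dvd, Int.natAbs_dvd] at h6
      exact g1 h6
    have h6 := neg_sq h _ g2
    rw [hv] at h5 h6
    rw [neg_neg] at h6
    have hy : ((y : ℤ) : ZMod p.natAbs) ≠ 0 := by
      intro h7; apply h5; rw [h7]; ring
    obtain ⟨s, hs⟩ := h6
    refine ⟨2 * s / ((y : ℤ) : ZMod p.natAbs), ?_⟩
    rw [h4]
    field_simp
    linear_combination 4 * hs
  · rintro ⟨s, hs⟩
    refine ⟨0, 1, ?_, ?_⟩
    · intro h6
      have h7 : val e 0 1 = - e.b := by unfold val; ring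
      rw [h7, dvd_neg] at h6
      apply hnd
      rw [← h1]
      exact dvd_add dvd_rfl (Dvd.dvd.mul_left h6 4)
    · rw [hv]
      apply neg_sq h
      have h22 : (2 : ZMod p.natAbs) ≠ 0 := by
        intro h7; apply h42
        have : (4 : ZMod p.natAbs) = 2 * 2 := by norm_num
        rw [this, h7]; ring
      refine ⟨s / 2, ?_⟩
      rw [h4] at hs
      field_simp
      push_cast
      linear_combination hs

/-! ### cycles -/

theorem Fp_pow {D : ℤ} [NS D] (n : ℕ) (e : Edge D) : (Fp D ^ n) e = F^[n] e := by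
  rw [← Equiv.Perm.iterate_eq_pow]; rfl

theorem cyc_iff {D : ℤ} [NS D] (hf : Finite (Edge D)) (e e' : Edge D) :
    Cyc e e' ↔ (Fp D).SameCycle e e' := by
  constructor
  · rintro ⟨n, hn⟩
    exact ⟨n, by rw [zpow_natCast, Fp_pow]; exact hn⟩
  · intro h
    obtain ⟨n, hn⟩ := h.exists_nat_pow_eq
    exact ⟨n, by rw [← Fp_pow]; exact hn⟩

theorem T_cyc {D : ℤ} [NS D] (hD : D % 4 = 1) (hf : Finite (Edge D))
    (hal : ∀ e : Edge D, ∃ n : ℕ, F^[n] e = al e) (x y : Xs D) :
    (Tp D hD).SameCycle x y ↔ Cyc x.1 y.1 := by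
  haveI : Finite (Xs D) := Subtype.finite
  constructor
  · intro h
    obtain ⟨n, hn⟩ := h.exists_nat_pow_eq
    rw [← Equiv.Perm.iterate_eq_pow] at hn
    have h1 := T_iter hD n x
    rw [hn] at h1
    by_cases h2 : n % 2 = 0
    · rw [if_pos h2] at h1
      exact ⟨n, h1.symm⟩
    · rw [if_neg h2] at h1
      obtain ⟨m, hm⟩ := hal (F^[n] x.1)
      exact ⟨m + n, by rw [iterate_add_apply, hm, h1]⟩
  · rintro ⟨n, hn⟩
    have h1 := sg_iter hD n x.1
    rw [hn, x.2, y.2, zero_add] at h1
    have h2 : n % 2 = 0 := by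
      have h3 : ((n : ℕ) : ZMod 2) = 0 := h1.symm
      rw [ZMod.natCast_eq_zero_iff] at h3
      omega
    have h3 := T_iter hD n x
    rw [if_pos h2, hn] at h3
    exact ⟨n, by rw [zpow_natCast, ← Equiv.Perm.iterate_eq_pow]; exact Subtype.ext h3⟩

theorem gen_iter {D : ℤ} [NS D] (p : ℤ) (n : ℕ) (e : Edge D) : gen p (F^[n] e) ↔ gen p e := by
  induction n with
  | zero => rfl
  | succ n ih => rw [iterate_succ_apply', gen_F, ih]

theorem gen_cyc {D : ℤ} [NS D] (p : ℤ) (e e' : Edge D) (h : Cyc e e') : gen p e' ↔ gen p e := by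
  obtain ⟨n, rfl⟩ := h
  exact gen_iter p n e

theorem main : S_CN := by
  intro hNEI hFIN p q D _ hPQ hD c c' hal hca hch hc'a hc'h hcc hfix
  classical
  haveI hf : Finite (Edge D) := hFIN D
  haveI : Finite (Xs D) := Subtype.finite
  haveI := fact_p hPQ
  obtain ⟨m, hm1, hm2⟩ := hNEI p q D hPQ
  let S := Equiv.Perm.SameCycle.setoid (Tp D hD)
  let Q := Quotient S
  haveI : Finite Q := Quotient.finite _
  haveI : Fintype Q := Fintype.ofFinite Q
  -- the genus on classes
  let G : Q → Prop := Quotient.lift (fun x : Xs D => gen p x.1) (by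
    intro x y hxy
    have h1 : (Tp D hD).SameCycle x y := hxy
    rw [T_cyc hD hf hal] at h1
    exact propext (gen_cyc p _ _ h1).symm)
  have hGm : ∀ x : Xs D, G (Quotient.mk S x) ↔ gen p x.1 := fun x => Iff.rfl
  -- the map of classes
  let m' : Edge D → Xs D := fun e => if h : sg (m e) = 0 then ⟨m e, h⟩ else
    ⟨F (m e), by
      rw [sg_F hD]
      have h1 : sg (m e) = 1 := by
        have : ∀ z : ZMod 2, z ≠ 0 → z = 1 := by decide
        exact this _ h
      rw [h1]; decide⟩
  have hm'c : ∀ e, Cyc (m e) (m' e).1 := by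
    intro e
    by_cases h : sg (m e) = 0
    · have h1 : m' e = ⟨m e, h⟩ := dif_pos h
      rw [h1]; exact ⟨0, rfl⟩
    · have h1 : m' e = ⟨F (m e), _⟩ := dif_neg h
      rw [h1]; exact ⟨1, rfl⟩
  let φ : Q → Q := fun u => Quotient.mk S (m' (Quotient.out u).1)
  have hφ : Injective φ := by
    intro u v huv
    have h1 : (Tp D hD).SameCycle (m' (Quotient.out u).1) (m' (Quotient.out v).1) :=
      Quotient.exact huv
    rw [T_cyc hD hf hal, cyc_iff hf] at h1
    have h2 := (cyc_iff hf _ _).1 (hm'c (Quotient.out u).1)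
    have h3 := (cyc_iff hf _ _).1 (hm'c (Quotient.out v).1)
    have h4 := (h2.trans h1).trans h3.symm
    rw [← cyc_iff hf] at h4
    have h5 := hm2 _ _ h4
    rw [← T_cyc hD hf hal] at h5
    rw [← Quotient.out_eq u, ← Quotient.out_eq v]
    exact Quotient.sound h5
  have hG : ∀ u, G (φ u) ↔ ¬ G u := by
    intro u
    have h1 : G (φ u) ↔ gen p (m' (Quotient.out u).1).1 := Iff.rfl
    rw [h1, gen_cyc p _ _ (hm'c _), hm1]
    have h2 : G u ↔ gen p (Quotient.out u).1 := by
      conv_lhs => rw [← Quotient.out_eq u]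
      exact Iff.rfl
    rw [h2]
  -- the reflection
  have hτs : ∀ x y : Xs D, (Tp D hD).SameCycle x y → (Tp D hD).SameCycle (tp D hD x) (tp D hD y) := by
    have hinv : ∀ z : Xs D, tp D hD ((Tp D hD) z) = (Tp D hD)⁻¹ (tp D hD z) := by
      intro z
      rw [Equiv.Perm.eq_inv_iff_eq]
      exact T_t_T hD z
    have hn : ∀ (n : ℕ) (z : Xs D), tp D hD (((Tp D hD) ^ n) z) = ((Tp D hD)⁻¹ ^ n) (tp D hD z) := by
      intro n
      induction n with
      | zero => intro z; rfl
      | succ n ih =>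
        intro z
        rw [pow_succ, pow_succ, Equiv.Perm.mul_apply, Equiv.Perm.mul_apply, ih, hinv]
    intro x y h
    obtain ⟨n, hn1⟩ := h.exists_nat_pow_eq
    refine ⟨-(n : ℤ), ?_⟩
    rw [← hn1, hn, zpow_neg, zpow_natCast, inv_pow]
  let τ : Q → Q := Quotient.map (tp D hD) (fun x y h => hτs x y h)
  have hτm : ∀ x, τ (Quotient.mk S x) = Quotient.mk S (tp D hD x) := fun x => rfl
  have hττ : ∀ u, τ (τ u) = u := by
    intro u
    induction u using Quotient.inductionOn with
    | h x => rw [hτm, hτm, tp_tp]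
  have hGτ : ∀ u, G (τ u) ↔ G u := by
    intro u
    induction u using Quotient.inductionOn with
    | h x =>
      rw [hτm, hGm, hGm]
      show gen p (al (rh x.1)) ↔ gen p x.1
      rw [gen_al hPQ, gen_rh]
  have hfixc : ∀ x : Xs D, F (rh x.1) = x.1 → τ (Quotient.mk S x) = Quotient.mk S x := by
    intro x hx
    rw [hτm]
    apply Quotient.sound
    show (Tp D hD).SameCycle (tp D hD x) x
    refine ⟨1, ?_⟩
    rw [zpow_one]
    apply Subtype.ext
    rw [T_t_val, hx]
  have hFc : ∀ x : Xs D, x.1.a = x.1.h → F (rh x.1) = x.1 := by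
    intro x hx
    have h1 : ¬ 0 < (rh x.1).a + (rh x.1).h - (rh x.1).b := by
      simp only [rh]
      have := x.1.hb
      linarith
    obtain ⟨g1, g2, g3⟩ := F_neg h1
    ext
    · rw [g1]; rfl
    · rw [g2]; simp only [rh]; linarith
    · rw [g3]; simp only [rh]; linarith
  have hcne : Quotient.mk S c ≠ Quotient.mk S c' := fun h => hcc (Quotient.exact h)
  have hfixQ : ∀ u, τ u = u → u = Quotient.mk S c ∨ u = Quotient.mk S c' := by
    intro u
    induction u using Quotient.inductionOn with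
    | h x =>
      intro hu
      rw [hτm] at hu
      have h1 : (Tp D hD).SameCycle x (tp D hD x) := (Quotient.exact hu : (Tp D hD).SameCycle _ _).symm
      rcases hfix x h1 with h2 | h2
      · left; exact (Quotient.sound (s := S) h2).symm
      · right; exact (Quotient.sound (s := S) h2).symm
  have key := count_abs Q G φ hφ hG τ hττ hGτ (Quotient.mk S c) (Quotient.mk S c') hcne
    (hfixc c (hFc c (by rw [hca, hch]))) (hfixc c' (hFc c' (by rw [hc'a, hc'h]))) hfixQ
    (gen_c hPQ c.1 hca)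
  have hGc' : G (Quotient.mk S c') ↔ IsSquare ((q : ℤ) : ZMod p.natAbs) :=
    gen_c' hPQ c'.1 hc'a hc'h
  have hcard : (Nat.card Q) = Fintype.card Q := Nat.card_eq_fintype_card
  show (Nat.card Q : ℤ) ≡ 3 + jacobiSym q p.natAbs [ZMOD 4]
  rw [hcard, ← jacobiSym.legendreSym.to_jacobiSym]
  have hnd : ((q : ℤ) : ZMod p.natAbs) ≠ 0 := by
    intro h6
    rw [ZMod.intCast_zmod_eq_zero_iff_dvd, Int.natAbs_dvd] at h6
    have h7 := (Int.prime_iff_natAbs_prime.1 hPQ.hp)
    have h8 := (Int.prime_iff_natAbs_prime.1 hPQ.hq)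
    have h9 := (Nat.prime_dvd_prime_iff_eq h7 h8).1 (Int.natAbs_dvd_natAbs.2 h6)
    have h10 := hPQ.hlt
    have h11 := hPQ.p0
    omega
  by_cases hsq : IsSquare ((q : ℤ) : ZMod p.natAbs)
  · have h1 := key.1 (hGc'.2 hsq)
    rw [(legendreSym.eq_one_iff p.natAbs hnd).2 hsq]
    unfold Int.ModEq
    omega
  · have h1 := key.2 (fun h => hsq (hGc'.1 h))
    rw [(legendreSym.eq_neg_one_iff p.natAbs).2 hsq]
    unfold Int.ModEq
    omega

end Pool.Agent.R169.MC.CN
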