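import Pool.Agent.R169.MC.Stm

/-! Project MC (helper169), piece CMP by helper506: a nonnegative matrix of determinant 1 between edges is a word. -/

set_option autoImplicit false

namespace Pool.Agent.R169.MC.Cmp

open Pool.Agent.R169.MC

variable {D : ℤ}

lemma F_pos [NS D] (e : Edge D) (h : 0 < e.a + e.h - e.b) :
    (F e).a = e.a + e.h - e.b ∧ (F e).h = e.h - 2 * e.b ∧ (F e).b = e.b := by
  unfold F
  rw [dif_pos h]
  exact ⟨rfl, rfl, rfl⟩

lemma F_neg [NS D] (e : Edge D) (h : ¬ 0 < e.a + e.h - e.b) :
    (F e).a = e.a ∧ (F e).h = e.h + 2 * e.a ∧ (F e).b = e.b - e.a - e.h := by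
  unfold F
  rw [dif_neg h]
  exact ⟨rfl, rfl, rfl⟩

lemma aux [NS D] : ∀ (k : ℕ) (e e' : Edge D) (W : Mt), (W.x + W.y + W.z + W.t).toNat ≤ k → W.NN → W.det = 1 →
    Rel e W e' → ∃ n : ℕ, W = Wm n e ∧ F^[n] e = e' := by
  intro k
  induction k with
  | zero =>
    intro e e' W hk hN hd hR
    obtain ⟨x, y, z, t⟩ := W
    obtain ⟨hx, hy, hz, ht⟩ := hN
    simp only [Mt.det] at *
    have h1 : x + y + z + t ≤ 0 := by omega
    have h2 : x = 0 := by omega
    have h3 : y = 0 := by omega
    subst h2 h3
    simp at hd
  | succ k ih =>
    intro e e' W hk hN hd hR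
    obtain ⟨x, y, z, t⟩ := W
    obtain ⟨hx, hy, hz, ht⟩ := hN
    obtain ⟨r1, r2, r3⟩ := hR
    simp only [Mt.det, val, pol] at *
    have hyz : 0 ≤ y * z := mul_nonneg hy hz
    have hxt : 0 < x * t := by linarith
    have hx1 : 0 < x := lt_of_le_of_ne hx (by rintro rfl; simp at hxt)
    have ht1 : 0 < t := lt_of_le_of_ne ht (by rintro rfl; simp at hxt)
    by_cases h1 : x ≤ y
    · -- first kind
      have h2 : z ≤ t := by
        by_contra hcon
        push Not at hcon
        have a1 : x * t < x * z := mul_lt_mul_of_pos_left hcon hx1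
        have a2 : x * z ≤ y * z := mul_le_mul_of_nonneg_right h1 hz
        linarith
      have hpos : 0 < e.a + e.h - e.b := by
        by_contra hcon
        push Not at hcon
        have a1 : 0 < e'.a := e'.ha
        rw [r1] at a1
        have a2 : e.h * (x * y) ≤ (e.b - e.a) * (x * y) :=
          mul_le_mul_of_nonneg_right (by linarith) (mul_nonneg hx hy)
        have a3 : 0 ≤ (y - x) * (e.a * x + e.b * y) :=
          mul_nonneg (by linarith) (add_nonneg (mul_nonneg e.ha.le hx) (mul_nonneg e.hb.le hy))
        nlinarith
      obtain ⟨f1, f2, f3⟩ := F_pos e hpos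
      obtain ⟨n, hn1, hn2⟩ := ih (F e) e' ⟨x, y - x, z, t - z⟩ (by simp only; omega)
        ⟨hx, by simp only; linarith, hz, by simp only; linarith⟩ (by simp only [Mt.det]; linear_combination hd) (by
          refine ⟨?_, ?_, ?_⟩
          · simp only [val, f1, f2, f3]
            rw [r1]
            ring
          · simp only [pol, f1, f2, f3]
            rw [r2]
            ring
          · simp only [val, f1, f2, f3]
            rw [r3]
            ring)
      refine ⟨n + 1, ?_, ?_⟩
      · have hl : lt e = ⟨1, 1, 0, 1⟩ := by rw [lt, if_pos hpos]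
        rw [Wm, ← hn1, hl]
        simp only [Mt.mul]
        ext <;> simp
      · rw [Function.iterate_succ_apply, hn2]
    · push Not at h1
      by_cases h2 : z < t
      · -- identity
        have a1 : (y + 1) * (z + 1) ≤ x * t :=
          mul_le_mul (by linarith) (by linarith) (by linarith) hx
        have hy0 : y = 0 := by nlinarith
        have hz0 : z = 0 := by nlinarith
        subst hy0 hz0
        have hxt1 : x * t = 1 := by linarith
        have hx' : x = 1 := by nlinarith
        subst hx'
        have ht' : t = 1 := by linarith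
        subst ht'
        refine ⟨0, rfl, ?_⟩
        simp only [Function.iterate_zero, id]
        ext
        · rw [r1]; ring
        · rw [r2]; ring
        · rw [r3]; ring
      · push Not at h2
        have hneg : ¬ 0 < e.a + e.h - e.b := by
          intro hcon
          have a1 : 0 < e'.b := e'.hb
          rw [r3] at a1
          have a2 : (e.b - e.a) * (z * t) ≤ e.h * (z * t) :=
            mul_le_mul_of_nonneg_right (by linarith) (mul_nonneg hz ht)
          have a3 : 0 ≤ (z - t) * (e.a * z + e.b * t) :=
            mul_nonneg (by linarith) (add_nonneg (mul_nonneg e.ha.le hz) (mul_nonneg e.hb.le ht))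
          nlinarith
        obtain ⟨f1, f2, f3⟩ := F_neg e hneg
        obtain ⟨n, hn1, hn2⟩ := ih (F e) e' ⟨x - y, y, z - t, t⟩ (by simp only; omega)
          ⟨by simp only; linarith, hy, by simp only; linarith, ht⟩ (by simp only [Mt.det]; linear_combination hd) (by
            refine ⟨?_, ?_, ?_⟩
            · simp only [val, f1, f2, f3]
              rw [r1]
              ring
            · simp only [pol, f1, f2, f3]
              rw [r2]
              ring
            · simp only [val, f1, f2, f3]
              rw [r3]
              ring)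
        refine ⟨n + 1, ?_, ?_⟩
        · have hl : lt e = ⟨1, 0, 1, 1⟩ := by rw [lt, if_neg hneg]
          rw [Wm, ← hn1, hl]
          simp only [Mt.mul]
          ext <;> simp
        · rw [Function.iterate_succ_apply, hn2]

theorem main : S_CMP := by
  intro D _ e e' W hN hd hR
  exact aux _ e e' W le_rfl hN hd hR

end Pool.Agent.R169.MC.Cmp
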