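import Mathlib
import Pool.Agent.R169.MC.Stm

/-!
Project MC, piece DIHE (by helper734): dihedral counting, even case.
-/

namespace Pool.Agent.R169.MC.DihE

open Finset Function

section
variable {X : Type} [Fintype X] [DecidableEq X] (T τ : Equiv.Perm X)

theorem hdvd (x : X) (k : ℤ) : (T ^ k) x = x ↔ (minimalPeriod T x : ℤ) ∣ k :=
  MulAction.zpow_smul_eq_iff_minimalPeriod_dvd (a := T) (b := x)

theorem mpos (x : X) : 0 < minimalPeriod T x := by
  have h := (hdvd T x (orderOf T)).1 (by simp [pow_orderOf_eq_one])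
  exact Nat.pos_of_dvd_of_pos (Int.natCast_dvd_natCast.1 h) (orderOf_pos T)

theorem iter (x : X) (k : ℕ) : T^[k] x = (T ^ (k : ℤ)) x := by
  rw [zpow_natCast, Equiv.Perm.iterate_eq_pow]

theorem conj (hτ : ∀ x, τ (τ x) = x) (hTτ : ∀ x, T (τ (T x)) = τ x) (k : ℤ) (x : X) :
    τ ((T ^ k) x) = (T ^ (-k)) (τ x) := by
  have h1 : τ * T * τ⁻¹ = T⁻¹ := by
    ext x
    rw [Equiv.Perm.eq_inv_iff_eq]
    simp only [Equiv.Perm.mul_apply]
    rw [hTτ]
    simp
  have h2 : τ * T ^ k * τ⁻¹ = T ^ (-k) := by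
    rw [← conj_zpow, h1, inv_zpow']
  rw [← h2]
  simp [Equiv.Perm.mul_apply]

theorem half {x : X} {k : ℕ} (h : minimalPeriod T x = k + k) :
    (T ^ (-(k : ℤ))) x = (T ^ (k : ℤ)) x := by
  have h1 : (T ^ ((k : ℤ) + k)) x = x := by
    rw [hdvd, h]; simp
  conv_rhs => rw [show (k : ℤ) = k by rfl]
  calc (T ^ (-(k : ℤ))) x = (T ^ (-(k : ℤ))) ((T ^ ((k : ℤ) + k)) x) := by rw [h1]
    _ = (T ^ (-(k : ℤ)) * T ^ ((k : ℤ) + k)) x := rfl
    _ = _ := by rw [← zpow_add]; congr 2; ring

theorem ne_half {x : X} {k : ℕ} (h : minimalPeriod T x = k + k) : (T ^ (k : ℤ)) x ≠ x := by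
  intro h1
  rw [hdvd, h] at h1
  have h2 : k + k ∣ k := by exact_mod_cast h1
  have h3 := mpos T x
  have h4 := Nat.le_of_dvd (by omega) h2
  omega

theorem mper_τ (hτ : ∀ x, τ (τ x) = x) (hTτ : ∀ x, T (τ (T x)) = τ x) (x : X) :
    minimalPeriod T (τ x) = minimalPeriod T x := by
  have key : ∀ x, minimalPeriod T (τ x) ∣ minimalPeriod T x := by
    intro x
    have h1 : (T ^ (-(minimalPeriod T x : ℤ))) x = x := by
      rw [hdvd]; simp
    have h2 := congrArg τ h1
    rw [conj T τ hτ hTτ, neg_neg, hdvd] at h2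
    exact_mod_cast h2
  apply Nat.dvd_antisymm (key x)
  have := key (τ x)
  rwa [hτ] at this

theorem fiber_card (x : X) [DecidablePred (fun y => T.SameCycle x y)] :
    (univ.filter (fun y => T.SameCycle x y)).card = minimalPeriod T x := by
  have h : univ.filter (fun y => T.SameCycle x y) =
      (range (minimalPeriod T x)).image (fun i => T^[i] x) := by
    ext y
    simp only [mem_filter, mem_univ, true_and, mem_image, mem_range]
    constructor
    · intro h
      obtain ⟨i, hi⟩ := h.exists_nat_pow_eq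
      refine ⟨i % minimalPeriod T x, Nat.mod_lt _ (mpos T x), ?_⟩
      rw [iterate_mod_minimalPeriod_eq, Equiv.Perm.iterate_eq_pow, hi]
    · rintro ⟨i, _, hi⟩
      refine ⟨i, ?_⟩
      rw [← hi, iter]
  rw [h, card_image_of_injOn, card_range]
  intro a ha b hb hab
  exact iterate_injOn_Iio_minimalPeriod (f := T) (x := x) (by simpa using ha) (by simpa using hb) hab

end

theorem main : S_DIHE := by
  classical
  intro X _ _ T τ hτ hTτ c c' e e' hcc hee hfc hfe hper
  have cj := conj T τ hτ hTτ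
  have hTc : T (τ c) = c := (hfc c).2 (Or.inl rfl)
  have hτc : τ c = (T ^ (-1 : ℤ)) c := by
    rw [zpow_neg_one, Equiv.Perm.eq_inv_iff_eq, hTc]
  have hτe : τ e = e := (hfe e).2 (Or.inl rfl)
  have comp : ∀ (i j : ℤ) (x : X), (T ^ i) ((T ^ j) x) = (T ^ (i + j)) x := by
    intro i j x
    rw [zpow_add]; rfl
  have T1 : ∀ x, T x = (T ^ (1 : ℤ)) x := by intro x; rw [zpow_one]
  -- claim 2
  have cl2 : T^[minimalPeriod T c / 2] c = c' := by
    obtain ⟨k, hk⟩ := hper c
    rw [iter, hk, show (k + k) / 2 = k by omega]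
    have h1 : T (τ ((T ^ (k : ℤ)) c)) = (T ^ (k : ℤ)) c := by
      rw [cj, hτc, T1, comp, comp, ← half T hk]
      congr 2; ring
    rcases (hfc _).1 h1 with h | h
    · exact absurd h (ne_half T hk)
    · exact h
  have cl3 : T^[minimalPeriod T e / 2] e = e' := by
    obtain ⟨k, hk⟩ := hper e
    rw [iter, hk, show (k + k) / 2 = k by omega]
    have h1 : τ ((T ^ (k : ℤ)) e) = (T ^ (k : ℤ)) e := by
      rw [cj, hτe, half T hk]
    rcases (hfe _).1 h1 with h | h
    · exact absurd h (ne_half T hk)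
    · exact h
  refine ⟨?_, cl2, cl3⟩
  have hcc' : T.SameCycle c c' := ⟨(minimalPeriod T c / 2 : ℕ), by rw [← iter, cl2]⟩
  have hee' : T.SameCycle e e' := ⟨(minimalPeriod T e / 2 : ℕ), by rw [← iter, cl3]⟩
  have hce : ¬ T.SameCycle c e := by
    rintro ⟨k, hk⟩
    have h1 : (T ^ (-k + -1)) c = (T ^ k) c := by
      calc (T ^ (-k + -1)) c = (T ^ (-k)) (τ c) := by rw [hτc, comp]
        _ = τ ((T ^ k) c) := (cj k c).symm
        _ = (T ^ k) c := by rw [hk, hτe]
    have h2 : (T ^ (k + k + 1)) c = c := by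
      calc (T ^ (k + k + 1)) c = (T ^ (k + 1)) ((T ^ k) c) := by rw [comp]; congr 2; ring
        _ = (T ^ (k + 1)) ((T ^ (-k + -1)) c) := by rw [h1]
        _ = (T ^ (0 : ℤ)) c := by rw [comp]; congr 2; ring
        _ = c := by simp
    rw [hdvd] at h2
    obtain ⟨m, hm⟩ := hper c
    rw [hm] at h2
    have h3 : (2 : ℤ) ∣ k + k + 1 := by
      refine dvd_trans ?_ h2
      push_cast
      exact ⟨m, by ring⟩
    omega
  have hinv : ∀ x, T.SameCycle x (τ x) → T.SameCycle c x ∨ T.SameCycle e x := by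
    rintro x ⟨j, hj⟩
    rcases Int.even_or_odd' j with ⟨i, hi | hi⟩
    · right
      have h1 : τ ((T ^ i) x) = (T ^ i) x := by
        rw [cj, ← hj, comp, hi]; congr 2; ring
      have h2 : T.SameCycle x ((T ^ i) x) := ⟨i, rfl⟩
      rcases (hfe _).1 h1 with h | h
      · rw [h] at h2; exact h2.symm
      · rw [h] at h2; exact hee'.trans h2.symm
    · left
      have h1 : T (τ ((T ^ (i + 1)) x)) = (T ^ (i + 1)) x := by
        rw [cj, ← hj, T1, comp, comp, hi]; congr 2; ring
      have h2 : T.SameCycle x ((T ^ (i + 1)) x) := ⟨i + 1, rfl⟩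
      rcases (hfc _).1 h1 with h | h
      · rw [h] at h2; exact h2.symm
      · rw [h] at h2; exact hcc'.trans h2.symm
  have hresp : ∀ x y, T.SameCycle x y → T.SameCycle (τ x) (τ y) := by
    rintro x y ⟨i, rfl⟩
    exact ⟨-i, (cj i x).symm⟩
  -- the quotient
  let r : Setoid X := Equiv.Perm.SameCycle.setoid T
  let π : X → Quotient r := fun x => Quotient.mk r x
  have hπ : ∀ x y, π x = π y ↔ T.SameCycle x y := fun x y => Quotient.eq (r := r)
  let τq : Quotient r → Quotient r := Quotient.map τ hresp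
  have hτq : ∀ x, τq (π x) = π (τ x) := fun x => rfl
  let N : Quotient r → ℕ := fun q => (univ.filter (fun x => π x = q)).card
  have hN : ∀ x, N (π x) = minimalPeriod T x := by
    intro x
    rw [← fiber_card T x]
    show (univ.filter (fun y => π y = π x)).card = _
    congr 1
    ext y
    simp only [mem_filter, mem_univ, true_and]
    rw [hπ]
    exact ⟨fun h => h.symm, fun h => h.symm⟩
  have hN2 : ∀ q, N q = 2 * (N q / 2) := by
    intro q
    induction q using Quotient.inductionOn with
    | h x =>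
      have : N (π x) = 2 * (N (π x) / 2) := by
        rw [hN]; obtain ⟨k, hk⟩ := hper x; omega
      exact this
  have hcard : Fintype.card X = ∑ q : Quotient r, N q := by
    rw [← Finset.card_univ]
    exact Finset.card_eq_sum_card_fiberwise (fun x _ => mem_coe.2 (mem_univ (π x)))
  have hqne : π c ≠ π e := fun h => hce ((hπ c e).1 h)
  have hsplit : ∑ q : Quotient r, N q / 2 =
      N (π c) / 2 + (N (π e) / 2 + ∑ q ∈ (univ.erase (π c)).erase (π e), N q / 2) := by
    rw [← Finset.add_sum_erase univ _ (mem_univ (π c)),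
      ← Finset.add_sum_erase (univ.erase (π c)) _ (mem_erase.2 ⟨hqne.symm, mem_univ (π e)⟩)]
  have hNτ : ∀ q, N (τq q) = N q := by
    intro q
    induction q using Quotient.inductionOn with
    | h x =>
      have : N (τq (π x)) = N (π x) := by
        rw [hτq, hN, hN, mper_τ T τ hτ hTτ]
      exact this
  have hτqq : ∀ q, τq (τq q) = q := by
    intro q
    induction q using Quotient.inductionOn with
    | h x =>
      have : τq (τq (π x)) = π x := by
        rw [hτq, hτq, hτ]
      exact this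
  have hqc : τq (π c) = π c := by
    rw [hτq, hπ, hτc]
    exact Equiv.Perm.SameCycle.symm ⟨-1, rfl⟩
  have hqe : τq (π e) = π e := by
    rw [hτq, hτe]
  have hfix : ∀ q, τq q = q → q = π c ∨ q = π e := by
    intro q
    induction q using Quotient.inductionOn with
    | h x =>
      intro h
      have h' : π (τ x) = π x := h
      rcases hinv x ((hπ _ _).1 h').symm with h1 | h1
      · left; exact ((hπ _ _).2 h1).symm
      · right; exact ((hπ _ _).2 h1).symm
  have hzero : ∑ q ∈ (univ.erase (π c)).erase (π e), ((N q / 2 : ℕ) : ZMod 2) = 0 := by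
    apply Finset.sum_involution (fun q _ => τq q)
    · intro q hq
      rw [hNτ]
      exact CharTwo.add_self_eq_zero _
    · intro q hq _ h
      simp only [mem_erase, mem_univ, and_true] at hq
      rcases hfix q h with h1 | h1
      · exact hq.2 h1
      · exact hq.1 h1
    · intro q hq
      simp only [mem_erase, mem_univ, and_true] at hq ⊢
      constructor
      · intro h
        apply hq.1
        rw [← hτqq q, h, hqe]
      · intro h
        apply hq.2
        rw [← hτqq q, h, hqc]
    · intro q hq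
      exact hτqq q
  have hev : 2 ∣ ∑ q ∈ (univ.erase (π c)).erase (π e), N q / 2 := by
    rw [← ZMod.natCast_eq_zero_iff]
    push_cast
    exact_mod_cast hzero
  obtain ⟨t, ht⟩ := hev
  have hfin : Fintype.card X = minimalPeriod T c + minimalPeriod T e + 4 * t := by
    have h1 : ∑ q : Quotient r, N q = 2 * ∑ q : Quotient r, N q / 2 := by
      rw [Finset.mul_sum]
      exact Finset.sum_congr rfl (fun q _ => hN2 q)
    rw [hcard, h1, hsplit, ht]
    have e1 := hN2 (π c)
    have e2 := hN2 (π e)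
    rw [hN] at e1 e2
    rw [hN, hN]
    omega
  rw [hfin]
  push_cast
  exact (Int.modEq_iff_dvd).2 ⟨-(t : ℤ), by ring⟩

end Pool.Agent.R169.MC.DihE
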