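import Mathlib
import Pool.Agent.R169.MC.Stm

/-!
Project MC, piece DIHO: dihedral counting modulo 4, odd periods.
-/

set_option autoImplicit false

namespace Pool.Agent.R169.MC.DihO
open Finset Function

section aux
variable {X : Type} [Fintype X] [DecidableEq X] {T τ : Equiv.Perm X}

lemma rel (h : ∀ x, T (τ (T x)) = τ x) (k : ℕ) : ∀ x, T^[k] (τ (T^[k] x)) = τ x := by
  induction k with
  | zero => intro x; rfl
  | succ k ih =>
    intro x
    rw [iterate_succ_apply T k (τ (T^[k+1] x)), iterate_succ_apply' T k x, h, ih]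

lemma sc_iff (x y : X) : T.SameCycle x y ↔ ∃ n : ℕ, T^[n] x = y := by
  constructor
  · intro h
    obtain ⟨i, hi⟩ := h.exists_nat_pow_eq
    exact ⟨i, by rw [Equiv.Perm.iterate_eq_pow]; exact hi⟩
  · rintro ⟨n, hn⟩
    refine ⟨(n : ℤ), ?_⟩
    rw [zpow_natCast, ← hn, Equiv.Perm.iterate_eq_pow]

lemma mem_per (ho : ∀ x, 0 < minimalPeriod T x) (x : X) : x ∈ periodicPts T :=
  minimalPeriod_pos_iff_mem_periodicPts.1 (ho x)

lemma per_sc (ho : ∀ x, 0 < minimalPeriod T x) {x y : X} (h : T.SameCycle x y) :
    minimalPeriod T x = minimalPeriod T y := by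
  obtain ⟨n, rfl⟩ := (sc_iff x y).1 h
  exact (minimalPeriod_apply_iterate (mem_per ho x) n).symm

lemma per_tau (ht : ∀ x, τ (τ x) = x) (h : ∀ x, T (τ (T x)) = τ x) (x : X) :
    minimalPeriod T (τ x) = minimalPeriod T x := by
  rw [minimalPeriod_eq_minimalPeriod_iff]
  intro n
  have key : ∀ y, T^[n] y = y → T^[n] (τ y) = τ y := by
    intro y hy
    have := rel h n y
    rwa [hy] at this
  constructor
  · intro h1
    have := key (τ x) h1
    rw [ht] at this
    exact this
  · intro h1
    exact key x h1

/-- an invariant cycle contains a fixed point of `T τ` -/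
lemma fix_of_inv (ht : ∀ x, τ (τ x) = x) (h : ∀ x, T (τ (T x)) = τ x) {c c' : X}
    (hc : ∀ x, T (τ x) = x ↔ (x = c ∨ x = c')) (ho : ∀ x, Odd (minimalPeriod T x)) (x : X)
    (hx : T.SameCycle x (τ x)) : T.SameCycle c x ∨ T.SameCycle c' x := by
  obtain ⟨k, hk⟩ := (sc_iff x (τ x)).1 hx
  obtain ⟨j, hj⟩ : ∃ j : ℕ, T^[k+1] x = T^[j + j] x := by
    rcases Nat.even_or_odd (k + 1) with ⟨j, hj⟩ | ho1
    · exact ⟨j, by rw [hj]⟩
    · obtain ⟨j, hj⟩ := ho1.add_odd (ho x)
      refine ⟨j, ?_⟩
      rw [← hj, iterate_add_minimalPeriod_eq]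
  have h1 : T (τ (T^[j] x)) = T^[j] x := by
    apply T.injective.iterate j
    have h2 : T^[j] (T (τ (T^[j] x))) = T (T^[j] (τ (T^[j] x))) := by
      rw [← iterate_succ_apply, iterate_succ_apply']
    rw [h2, rel h j x, ← hk, ← iterate_succ_apply' T k x, ← iterate_add_apply]
    exact hj
  rcases (hc _).1 h1 with h2 | h2
  · left
    exact ((sc_iff x c).2 ⟨j, h2⟩).symm
  · right
    exact ((sc_iff x c').2 ⟨j, h2⟩).symm

lemma not_sc (h : ∀ x, T (τ (T x)) = τ x) {c c' : X} (hcc : c ≠ c')
    (hc : ∀ x, T (τ x) = x ↔ (x = c ∨ x = c')) (ho : ∀ x, Odd (minimalPeriod T x)) :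
    ¬ T.SameCycle c c' := by
  intro hs
  obtain ⟨j, hj⟩ := (sc_iff c c').1 hs
  have h1 : T (τ c) = c := (hc c).2 (Or.inl rfl)
  have h2 : T (τ c') = c' := (hc c').2 (Or.inr rfl)
  have h3 := rel h j c
  rw [hj] at h3
  have h4 : T^[j] c' = c := by
    have h5 : T^[j] (T (τ c')) = T (T^[j] (τ c')) := by
      rw [← iterate_succ_apply, iterate_succ_apply']
    rw [h2, h3, h1] at h5
    exact h5
  have h6 : IsPeriodicPt T (j + j) c := by
    show T^[j + j] c = c
    rw [iterate_add_apply, hj, h4]
  have h7 : minimalPeriod T c ∣ 2 * j := by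
    have := h6.minimalPeriod_dvd
    rwa [← two_mul] at this
  have h8 : minimalPeriod T c ∣ j := (Nat.Coprime.dvd_of_dvd_mul_left
    (Nat.coprime_two_right.2 (ho c)) h7)
  have h9 : IsPeriodicPt T j c := isPeriodicPt_iff_minimalPeriod_dvd.2 h8
  exact hcc (by rw [← hj]; exact h9.symm)

lemma mid (h : ∀ x, T (τ (T x)) = τ x) {c : X} (hc : T (τ c) = c)
    (ho : Odd (minimalPeriod T c)) :
    τ (T^[(minimalPeriod T c - 1) / 2] c) = T^[(minimalPeriod T c - 1) / 2] c := by
  obtain ⟨s, hs⟩ := ho
  have h0 : (minimalPeriod T c - 1) / 2 = s := by omega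
  rw [h0]
  apply T.injective.iterate (s + 1)
  have h1 : T^[s + 1] (τ (T^[s] c)) = T (T^[s] (τ (T^[s] c))) := iterate_succ_apply' _ _ _
  rw [h1, rel h s c, hc, ← iterate_add_apply]
  have h2 : s + 1 + s = minimalPeriod T c := by omega
  rw [h2, iterate_minimalPeriod]

end aux

/-- piece DIHO -/
theorem main : S_DIHO := by
  intro X _ _ T τ ht h c c' e e' hcc hee hc he ho
  have hpos : ∀ x, 0 < minimalPeriod T x := fun x => (ho x).pos
  have hnsc := not_sc h hcc hc ho
  have hTc : T (τ c) = c := (hc c).2 (Or.inl rfl)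
  have hTc' : T (τ c') = c' := (hc c').2 (Or.inr rfl)
  refine ⟨?_, ?_, hnsc, fun x hx => fix_of_inv ht h hc ho x hx⟩
  · classical
    let Q := Quotient (Equiv.Perm.SameCycle.setoid T)
    haveI : Fintype Q := Fintype.ofFinite _
    have hrel : ∀ x y : X, ((Quotient.mk (Equiv.Perm.SameCycle.setoid T) x : Q) =
        Quotient.mk (Equiv.Perm.SameCycle.setoid T) y) ↔ T.SameCycle x y := by
      intro x y
      rw [Quotient.eq]
      rfl
    let f : Q → ℕ := Quotient.lift (fun x => minimalPeriod T x) (fun x y hxy => per_sc hpos hxy)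
    have hf : ∀ x : X, f (Quotient.mk _ x) = minimalPeriod T x := fun x => rfl
    -- the involution on the cycles
    have hmap : ∀ x y : X, T.SameCycle x y → T.SameCycle (τ x) (τ y) := by
      intro x y hxy
      obtain ⟨n, rfl⟩ := (sc_iff x y).1 hxy
      exact ((sc_iff _ _).2 ⟨n, rel h n x⟩).symm
    let σ : Q → Q := Quotient.map τ (fun x y hxy => hmap x y hxy)
    have hσ : ∀ x : X, σ (Quotient.mk _ x) = Quotient.mk _ (τ x) := fun x => rfl
    have hσσ : ∀ q, σ (σ q) = q := by
      intro q
      induction q using Quotient.inductionOn with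
      | h x => rw [hσ, hσ, ht]
    have hfσ : ∀ q, f (σ q) = f q := by
      intro q
      induction q using Quotient.inductionOn with
      | h x => rw [hσ, hf, hf, per_tau ht h]
    have hodd : ∀ q, Odd (f q) := by
      intro q
      induction q using Quotient.inductionOn with
      | h x => exact ho x
    have hcard : Fintype.card X = ∑ q : Q, f q := by
      rw [← Finset.card_univ, Finset.card_eq_sum_card_fiberwise
        (f := fun x : X => (Quotient.mk (Equiv.Perm.SameCycle.setoid T) x : Q)) (t := Finset.univ)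
        (by intro x _; simp)]
      apply Finset.sum_congr rfl
      intro q _
      induction q using Quotient.inductionOn with
      | h y =>
        rw [hf]
        have h1 : (univ.filter (fun x : X => (Quotient.mk (Equiv.Perm.SameCycle.setoid T) x : Q) =
            Quotient.mk _ y)) = (Finset.range (minimalPeriod T y)).image (fun k => T^[k] y) := by
          ext x
          simp only [mem_filter, mem_univ, true_and, mem_image, mem_range]
          rw [hrel]
          constructor
          · intro h2
            obtain ⟨n, hn⟩ := (sc_iff y x).1 h2.symm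
            exact ⟨n % minimalPeriod T y, Nat.mod_lt _ (hpos y), by
              rw [iterate_mod_minimalPeriod_eq, hn]⟩
          · rintro ⟨n, _, hn⟩
            exact ((sc_iff y x).2 ⟨n, hn⟩).symm
        rw [h1, Finset.card_image_of_injOn, Finset.card_range]
        intro a ha b hb hab
        have ha' : a < minimalPeriod T y := by simpa using ha
        have hb' : b < minimalPeriod T y := by simpa using hb
        exact iterate_injOn_Iio_minimalPeriod (f := T) (x := y) ha' hb' hab
    -- sum over the other classes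
    let qc : Q := Quotient.mk _ c
    let qc' : Q := Quotient.mk _ c'
    have hqne : qc ≠ qc' := by
      intro h1
      exact hnsc ((hrel c c').1 h1)
    have hσc : ∀ d : X, T (τ d) = d → σ (Quotient.mk _ d) = Quotient.mk _ d := by
      intro d hd
      rw [hσ]
      refine (hrel _ _).2 ?_
      exact (sc_iff _ _).2 ⟨1, hd⟩
    have hfixc : ∀ q, σ q = q → q = qc ∨ q = qc' := by
      intro q
      induction q using Quotient.inductionOn with
      | h x =>
        intro h1
        rw [hσ] at h1
        have h2 := (hrel _ _).1 h1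
        rcases fix_of_inv ht h hc ho x h2.symm with h3 | h3
        · left
          exact (hrel _ _).2 h3.symm
        · right
          exact (hrel _ _).2 h3.symm
    let g : Q → ZMod 4 := fun q => (f q : ZMod 4) - 1
    have h4 : (4 : ZMod 4) = 0 := by decide
    have hsum0 : ∑ q ∈ (univ.erase qc).erase qc', g q = 0 := by
      apply Finset.sum_involution (fun q _ => σ q)
      · intro q _
        show g q + g (σ q) = 0
        obtain ⟨s, hs⟩ := hodd q
        simp only [g]
        rw [hfσ, hs]
        push_cast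
        linear_combination (s : ZMod 4) * h4
      · intro q hq _ h1
        rw [mem_erase, mem_erase] at hq
        rcases hfixc q h1 with h2 | h2
        · exact hq.2.1 h2
        · exact hq.1 h2
      · intro q hq
        rw [mem_erase, mem_erase] at hq ⊢
        refine ⟨?_, ?_, mem_univ _⟩
        · intro h1
          apply hq.1
          rw [← hσσ q, h1]
          exact hσc c' hTc'
        · intro h1
          apply hq.2.1
          rw [← hσσ q, h1]
          exact hσc c hTc
      · intro q _
        exact hσσ q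
    have hsum : ∑ q : Q, g q = g qc + g qc' := by
      rw [← Finset.add_sum_erase univ g (mem_univ qc),
        ← Finset.add_sum_erase (univ.erase qc) g (mem_erase.2 ⟨hqne.symm, mem_univ qc'⟩), hsum0]
      ring
    have hsum2 : ∑ q : Q, g q = (Fintype.card X : ZMod 4) - (Nat.card Q : ZMod 4) := by
      simp only [g]
      rw [Finset.sum_sub_distrib, hcard, Nat.card_eq_fintype_card]
      simp
    have hfin : ((Fintype.card X : ℤ) : ZMod 4) = (((minimalPeriod T c : ℤ) + minimalPeriod T c'
      + Nat.card (Quotient (Equiv.Perm.SameCycle.setoid T)) - 2 : ℤ) : ZMod 4) := by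
      push_cast
      have h5 : g qc = (minimalPeriod T c : ZMod 4) - 1 := rfl
      have h6 : g qc' = (minimalPeriod T c' : ZMod 4) - 1 := rfl
      rw [h5, h6] at hsum
      have h7 := hsum2.symm.trans hsum
      linear_combination h7
    exact (ZMod.intCast_eq_intCast_iff _ _ 4).1 hfin
  · have h1 := (he _).1 (mid h hTc (ho c))
    have h2 := (he _).1 (mid h hTc' (ho c'))
    have h3 : T^[(minimalPeriod T c - 1) / 2] c ≠ T^[(minimalPeriod T c' - 1) / 2] c' := by
      intro h4
      apply hnsc
      exact ((sc_iff c _).2 ⟨_, rfl⟩).trans (by rw [h4]; exact ((sc_iff c' _).2 ⟨_, rfl⟩).symm)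
    rcases h1 with h1 | h1 <;> rcases h2 with h2 | h2
    · exact absurd (h1.trans h2.symm) h3
    · exact Or.inl ⟨h1, h2⟩
    · exact Or.inr ⟨h1, h2⟩
    · exact absurd (h1.trans h2.symm) h3

end Pool.Agent.R169.MC.DihO
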