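import Pool.Agent.R169.MC.Stm

/-!
# Dynamics of the step on river edges
-/

namespace Pool.Agent.R169.MC.Dyn
open Finset Function Pool.Agent.R169.MC

variable {D : ℤ} [NS D]

theorem F_pos {e : Edge D} (h : 0 < e.a + e.h - e.b) :
    (F e).a = e.a + e.h - e.b ∧ (F e).h = e.h - 2 * e.b ∧ (F e).b = e.b := by
  unfold F; rw [dif_pos h]; exact ⟨rfl, rfl, rfl⟩

theorem F_neg {e : Edge D} (h : ¬ 0 < e.a + e.h - e.b) :
    (F e).a = e.a ∧ (F e).h = e.h + 2 * e.a ∧ (F e).b = e.b - e.a - e.h := by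
  unfold F; rw [dif_neg h]; exact ⟨rfl, rfl, rfl⟩

theorem ne_zero (e : Edge D) : e.a + e.h - e.b ≠ 0 := by
  intro h1
  apply NS.ns (D := D) (e.a + e.b)
  have h2 : e.h = e.b - e.a := by linarith
  have h3 := e.eq
  rw [h2] at h3
  linear_combination h3

omit [NS D] in
theorem al_al (e : Edge D) : al (al e) = e := by ext <;> simp [al]
omit [NS D] in
theorem rh_rh (e : Edge D) : rh (rh e) = e := by ext <;> simp [rh]
omit [NS D] in
theorem al_rh (e : Edge D) : al (rh e) = rh (al e) := by ext <;> simp [al, rh]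

theorem F_al (e : Edge D) : F (al e) = al (F e) := by
  by_cases h : 0 < e.a + e.h - e.b
  · obtain ⟨h1, h2, h3⟩ := F_pos h
    have h' : ¬ 0 < (al e).a + (al e).h - (al e).b := by
      simp only [al]; linarith
    obtain ⟨g1, g2, g3⟩ := F_neg h'
    ext
    · rw [g1]; simp only [al]; linarith
    · rw [g2]; simp only [al]; linarith
    · rw [g3]; simp only [al]; linarith
  · obtain ⟨h1, h2, h3⟩ := F_neg h
    have hne := ne_zero e
    have h' : 0 < (al e).a + (al e).h - (al e).b := by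
      simp only [al]
      rcases lt_or_eq_of_le (not_lt.1 h) with h4 | h4
      · linarith
      · exact absurd h4 hne
    obtain ⟨g1, g2, g3⟩ := F_pos h'
    ext
    · rw [g1]; simp only [al]; linarith
    · rw [g2]; simp only [al]; linarith
    · rw [g3]; simp only [al]; linarith

theorem F_alrh_F (e : Edge D) : F (al (rh (F e))) = al (rh e) := by
  by_cases h : 0 < e.a + e.h - e.b
  · obtain ⟨h1, h2, h3⟩ := F_pos h
    have h' : ¬ 0 < (al (rh (F e))).a + (al (rh (F e))).h - (al (rh (F e))).b := by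
      simp only [al, rh, h1, h2, h3]; have := e.ha; linarith
    obtain ⟨g1, g2, g3⟩ := F_neg h'
    ext
    · rw [g1]; simp only [al, rh, h1, h2, h3]
    · rw [g2]; simp only [al, rh, h1, h2, h3]; ring
    · rw [g3]; simp only [al, rh, h1, h2, h3]; ring
  · obtain ⟨h1, h2, h3⟩ := F_neg h
    have h' : 0 < (al (rh (F e))).a + (al (rh (F e))).h - (al (rh (F e))).b := by
      simp only [al, rh, h1, h2, h3]; have := e.hb; linarith
    obtain ⟨g1, g2, g3⟩ := F_pos h'
    ext
    · rw [g1]; simp only [al, rh, h1, h2, h3]; ring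
    · rw [g2]; simp only [al, rh, h1, h2, h3]; ring
    · rw [g3]; simp only [al, rh, h1, h2, h3]

theorem F_rh_F (e : Edge D) : F (rh (F e)) = rh e := by
  have h := F_alrh_F e
  rw [F_al] at h
  have h2 := congrArg al h
  rwa [al_al, al_al] at h2

omit [NS D] in
theorem h_odd (hD : D % 4 = 1) (e : Edge D) : e.h % 2 = 1 := by
  have h := e.eq
  rcases Int.emod_two_eq_zero_or_one e.h with h1 | h1
  · exfalso
    obtain ⟨k, hk⟩ : ∃ k, e.h = 2 * k := ⟨e.h / 2, by omega⟩
    rw [hk] at h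
    have h3 : D = 4 * (k ^ 2 + e.a * e.b) := by linear_combination -h
    omega
  · exact h1

theorem sg_eq_iff (m n : ℤ) : ((m : ZMod 2) = (n : ZMod 2)) ↔ m % 2 = n % 2 := by
  rw [ZMod.intCast_eq_intCast_iff]; rfl

omit [NS D] in
theorem sg_al (hD : D % 4 = 1) (e : Edge D) : sg (al e) = sg e + 1 := by
  have ho := h_odd hD e
  obtain ⟨k, hk⟩ : ∃ k, e.h = 2 * k + 1 := ⟨e.h / 2, by omega⟩
  unfold sg
  simp only [al]
  have h1 : (-e.h - 1) / 2 = -k - 1 := by omega
  have h2 : (e.h - 1) / 2 = k := by omega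
  rw [h1, h2]
  have : (((-k - 1 + (e.b + 1) * (e.a + 1) : ℤ)) : ZMod 2)
      = (((k + (e.a + 1) * (e.b + 1) + 1 : ℤ)) : ZMod 2) := by
    rw [sg_eq_iff]
    have : -k - 1 + (e.b + 1) * (e.a + 1) = (k + (e.a + 1) * (e.b + 1) + 1) + 2 * (-k - 1) := by ring
    rw [this]; omega
  rw [this]; push_cast; ring

omit [NS D] in
theorem sg_rh (hD : D % 4 = 1) (e : Edge D) : sg (rh e) = sg e + 1 := by
  have ho := h_odd hD e
  obtain ⟨k, hk⟩ : ∃ k, e.h = 2 * k + 1 := ⟨e.h / 2, by omega⟩
  unfold sg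
  simp only [rh]
  have h1 : (-e.h - 1) / 2 = -k - 1 := by omega
  have h2 : (e.h - 1) / 2 = k := by omega
  rw [h1, h2]
  have : (((-k - 1 + (e.a + 1) * (e.b + 1) : ℤ)) : ZMod 2)
      = (((k + (e.a + 1) * (e.b + 1) + 1 : ℤ)) : ZMod 2) := by
    rw [sg_eq_iff]
    have : -k - 1 + (e.a + 1) * (e.b + 1) = (k + (e.a + 1) * (e.b + 1) + 1) + 2 * (-k - 1) := by ring
    rw [this]; omega
  rw [this]; push_cast; ring

theorem sg_F (hD : D % 4 = 1) (e : Edge D) : sg (F e) = sg e + 1 := by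
  have ho := h_odd hD e
  obtain ⟨k, hk⟩ : ∃ k, e.h = 2 * k + 1 := ⟨e.h / 2, by omega⟩
  have key : ∀ A H B : ℤ, (F e).a = A → (F e).h = H → (F e).b = B →
      ((H - 1) / 2 + (A + 1) * (B + 1)) % 2 = (k + (e.a + 1) * (e.b + 1) + 1) % 2 →
      sg (F e) = sg e + 1 := by
    intro A H B h1 h2 h3 h4
    unfold sg
    have h5 : (e.h - 1) / 2 = k := by omega
    rw [h1, h2, h3, h5]
    have := (sg_eq_iff _ _).2 h4
    rw [this]; push_cast; ring
  by_cases h : 0 < e.a + e.h - e.b
  · obtain ⟨h1, h2, h3⟩ := F_pos h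
    apply key _ _ _ h1 h2 h3
    have e1 : (e.h - 2 * e.b - 1) / 2 = k - e.b := by omega
    rw [e1, hk]
    have e2 : k - e.b + (e.a + (2 * k + 1) - e.b + 1) * (e.b + 1)
        = (k + (e.a + 1) * (e.b + 1) + 1) + 2 * (k * e.b + k - e.b) - (e.b ^ 2 - e.b) := by ring
    rw [e2]
    have e3 : (e.b ^ 2 - e.b) % 2 = 0 := by
      have : e.b ^ 2 - e.b = (e.b - 1) * e.b := by ring
      rw [this]
      rcases Int.emod_two_eq_zero_or_one e.b with h5 | h5
      · rw [Int.mul_emod, h5]; simp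
      · rw [Int.mul_emod]; have : (e.b - 1) % 2 = 0 := by omega
        rw [this]; simp
    omega
  · obtain ⟨h1, h2, h3⟩ := F_neg h
    apply key _ _ _ h1 h2 h3
    have e1 : (e.h + 2 * e.a - 1) / 2 = k + e.a := by omega
    rw [e1, hk]
    have e2 : k + e.a + (e.a + 1) * (e.b - e.a - (2 * k + 1) + 1)
        = (k + (e.a + 1) * (e.b + 1) + 1) + 2 * (-k * e.a - k - 1 - e.a) - (e.a ^ 2 - e.a) := by ring
    rw [e2]
    have e3 : (e.a ^ 2 - e.a) % 2 = 0 := by
      have : e.a ^ 2 - e.a = (e.a - 1) * e.a := by ring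
      rw [this]
      rcases Int.emod_two_eq_zero_or_one e.a with h5 | h5
      · rw [Int.mul_emod, h5]; simp
      · rw [Int.mul_emod]; have : (e.a - 1) % 2 = 0 := by omega
        rw [this]; simp
    omega

theorem main : S_DYN := by
  intro D _ hD e
  exact ⟨F_alrh_F e, F_al e, sg_F hD e, sg_al hD e, sg_rh hD e⟩

/-! ### the permutation -/

/-- edges with `sg = 0` -/
def Xs (D : ℤ) := {e : Edge D // sg e = 0}

variable (hD : D % 4 = 1)

theorem z2 (x : ZMod 2) : x + 1 + 1 = x := by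
  rw [add_assoc]; have : (1 : ZMod 2) + 1 = 0 := by decide
  rw [this, add_zero]

/-- `F` as a permutation -/
def Fp (D : ℤ) [NS D] : Equiv.Perm (Edge D) where
  toFun := F
  invFun := fun e => rh (F (rh e))
  left_inv := fun e => by show rh (F (rh (F e))) = e; rw [F_rh_F, rh_rh]
  right_inv := fun e => by
    show F (rh (F (rh e))) = e
    rw [F_rh_F, rh_rh]

/-- the rotation `al ∘ F` on the edges with `sg = 0` -/
def Tp (D : ℤ) [NS D] (hD : D % 4 = 1) : Equiv.Perm (Xs D) where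
  toFun := fun x => ⟨al (F x.1), by rw [sg_al hD, sg_F hD, x.2]; decide⟩
  invFun := fun x => ⟨al (rh (F (rh x.1))), by
    rw [sg_al hD, sg_rh hD, sg_F hD, sg_rh hD, x.2]; decide⟩
  left_inv := fun x => by
    apply Subtype.ext
    show al (rh (F (rh (al (F x.1))))) = x.1
    rw [← al_rh, F_al, F_rh_F, ← al_rh, al_al, rh_rh]
  right_inv := fun x => by
    apply Subtype.ext
    show al (F (al (rh (F (rh x.1))))) = x.1
    rw [F_al, F_rh_F, al_al, rh_rh]

/-- the reflection `al ∘ rh` on the edges with `sg = 0` -/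
def tp (D : ℤ) (hD : D % 4 = 1) : Equiv.Perm (Xs D) where
  toFun := fun x => ⟨al (rh x.1), by rw [sg_al hD, sg_rh hD, x.2]; decide⟩
  invFun := fun x => ⟨al (rh x.1), by rw [sg_al hD, sg_rh hD, x.2]; decide⟩
  left_inv := fun x => by
    apply Subtype.ext
    show al (rh (al (rh x.1))) = x.1
    rw [al_rh, al_al, rh_rh]
  right_inv := fun x => by
    apply Subtype.ext
    show al (rh (al (rh x.1))) = x.1
    rw [al_rh, al_al, rh_rh]

omit [NS D] in
theorem tp_tp (x : Xs D) : tp D hD (tp D hD x) = x := (tp D hD).left_inv x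

theorem T_t_T (x : Xs D) : Tp D hD (tp D hD (Tp D hD x)) = tp D hD x := by
  apply Subtype.ext
  show al (F (al (rh (al (F x.1))))) = al (rh x.1)
  rw [← al_rh, al_al, F_rh_F]

theorem T_t_val (x : Xs D) : (Tp D hD (tp D hD x)).1 = F (rh x.1) := by
  show al (F (al (rh x.1))) = F (rh x.1)
  rw [F_al, al_al]

/-- `T^n` in terms of `F^n` -/
theorem T_iter (n : ℕ) (x : Xs D) :
    ((Tp D hD)^[n] x).1 = if n % 2 = 0 then F^[n] x.1 else al (F^[n] x.1) := by
  induction n with
  | zero => simp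
  | succ n ih =>
    rw [iterate_succ_apply', iterate_succ_apply']
    show al (F ((Tp D hD)^[n] x).1) = _
    rw [ih]
    by_cases h : n % 2 = 0
    · have h2 : ¬ (n + 1) % 2 = 0 := by omega
      rw [if_pos h, if_neg h2]
    · have h2 : (n + 1) % 2 = 0 := by omega
      rw [if_neg h, if_pos h2, F_al, al_al]

include hD in
theorem sg_iter (n : ℕ) (e : Edge D) : sg (F^[n] e) = sg e + (n : ZMod 2) := by
  induction n with
  | zero => simp
  | succ n ih =>
    rw [iterate_succ_apply', sg_F hD, ih]; push_cast; ring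

theorem F_iter_al (n : ℕ) (e : Edge D) : F^[n] (al e) = al (F^[n] e) := by
  induction n generalizing e with
  | zero => rfl
  | succ n ih => rw [iterate_succ_apply, F_al, ih, iterate_succ_apply]

theorem F_iter_alrh (n : ℕ) (e : Edge D) : F^[n] (al (rh (F^[n] e))) = al (rh e) := by
  induction n generalizing e with
  | zero => rfl
  | succ n ih =>
    rw [iterate_succ_apply' F n (al _), iterate_succ_apply, ih, F_alrh_F]

end Pool.Agent.R169.MC.Dyn
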