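import Pool.Agent.R169.MC.Stm2

namespace Pool.Agent.R169.MC.Even
open Finset Function Pool.Agent.R169.MC Dyn

variable {D : ℤ} [NS D]

/-- exchange of the two letters -/
def sw (P : Mt) : Mt := ⟨P.t, P.z, P.y, P.x⟩

theorem lt_al (e : Edge D) : lt (al e) = sw (lt e) := by
  unfold lt
  by_cases h : 0 < e.a + e.h - e.b
  · rw [if_pos h, if_neg (by simp only [al]; linarith)]; rfl
  · have hne := ne_zero e
    have : e.a + e.h - e.b < 0 := lt_of_le_of_ne (not_lt.1 h) hne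
    rw [if_neg h, if_pos (by simp only [al]; linarith)]; rfl

theorem sw_mul (P Q : Mt) : sw (P.mul Q) = (sw P).mul (sw Q) := by
  ext <;> simp only [sw, Mt.mul] <;> ring

theorem Wm_al (n : ℕ) (e : Edge D) : Wm n (al e) = sw (Wm n e) := by
  induction n generalizing e with
  | zero => rfl
  | succ n ih =>
    show (lt (al e)).mul (Wm n (F (al e))) = sw ((lt e).mul (Wm n (F e)))
    rw [F_al, ih, lt_al, sw_mul]

theorem mul_one' (P : Mt) : P.mul Mt.one = P := by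
  ext <;> simp only [Mt.mul, Mt.one] <;> ring

theorem Wm_last (hW : S_WRD) (n : ℕ) (e : Edge D) :
    Wm (n + 1) e = (Wm n e).mul (lt (F^[n] e)) := by
  have h := (hW D e n).2.2.2.2 1
  rw [h]
  show (Wm n e).mul ((lt (F^[n] e)).mul Mt.one) = _
  rw [mul_one']

theorem y_mono (hW : S_WRD) (e : Edge D) {n m : ℕ} (h : n ≤ m) : (Wm n e).y ≤ (Wm m e).y := by
  obtain ⟨j, rfl⟩ := Nat.exists_eq_add_of_le h
  rw [(hW D e n).2.2.2.2 j]
  obtain ⟨_, ⟨n1, n2, n3, n4⟩, hd, _⟩ := hW D e n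
  obtain ⟨_, ⟨m1, m2, m3, m4⟩, hd', _⟩ := hW D (F^[n] e) j
  show (Wm n e).y ≤ (Wm n e).y * (Wm j (F^[n] e)).x + (Wm n e).t * (Wm j (F^[n] e)).y
  have h1 : 1 ≤ (Wm j (F^[n] e)).x := by
    rcases lt_or_eq_of_le m1 with h | h
    · exact h
    · exfalso
      unfold Mt.det at hd'
      rw [← h] at hd'
      have := mul_nonneg m2 m3
      linarith
  nlinarith [mul_nonneg n4 m2, mul_nonneg n2 (sub_nonneg.2 h1)]

variable (hD : D % 4 = 1)

include hD in
theorem even_of_ret (x : Xs D) (n : ℕ) (h : F^[n] x.1 = x.1) : n % 2 = 0 := by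
  have h1 := sg_iter hD n x.1
  rw [h, x.2] at h1
  have h2 : (n : ZMod 2) = 0 := by simpa using h1.symm
  rw [ZMod.natCast_eq_zero_iff] at h2
  exact Nat.mod_eq_zero_of_dvd h2

theorem unit_le (hW : S_WRD) (hUP : S_UPOS) {p q : ℤ} (hpq : PQ p q D) (x : Xs D) (u t' u' : ℤ)
    (hy : (Wm (minimalPeriod (Tp D hD) x) x.1).y = x.1.a * u) (ht' : 0 < t') (hu' : 0 < u')
    (h : t' ^ 2 - D * u' ^ 2 = 4) : u ≤ u' := by
  obtain ⟨n, hn, hF, -, -, hy', -⟩ := (hUP p q D hpq x.1).2 t' u' ht' hu' h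
  have he := even_of_ret hD x n hF
  have hT : (Tp D hD)^[n] x = x := by
    apply Subtype.ext
    rw [T_iter, if_pos he, hF]
  have hle : minimalPeriod (Tp D hD) x ≤ n :=
    Nat.le_of_dvd hn (Function.IsPeriodicPt.minimalPeriod_dvd hT)
  have := y_mono hW x.1 hle
  rw [hy, hy'] at this
  exact le_of_mul_le_mul_left this x.1.ha

omit [NS D] in
theorem fix_ab {f : Edge D} (h : al (rh f) = f) : f.a = f.b := by
  have := congrArg Edge.a h
  simp only [al, rh] at this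
  exact this.symm

theorem tail (hW : S_WRD) (hUP : S_UPOS) (hG : S_GA2) {p q : ℤ} (hpq : PQ p q D)
    (c0 e0 : Xs D) (ca : c0.1.a = 1) (k2 : ℕ) (hk2 : minimalPeriod (Tp D hD) e0 = 2 * k2)
    (hk2p : 0 < k2) (hfix : al (rh (F^[k2] e0.1)) = F^[k2] e0.1)
    (he : al (rh e0.1) = e0.1) (r s δ : ℤ) (hδ : δ = 1 ∨ δ = -1)
    (heq : p * r ^ 2 - q * s ^ 2 = 4 * δ) (hr : 0 ≤ r) (hs : 0 ≤ s)
    (hy : (Wm (minimalPeriod (Tp D hD) c0) c0.1).y = r * s) :
    (δ = 1 → ∃ X Y : ℤ, X ^ 2 + Y ^ 2 = q ∧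
      p * (X ^ 2 - Y ^ 2) = e0.1.h * (F^[k2] e0.1).h - 4 * e0.1.a * (F^[k2] e0.1).a) ∧
    (δ = -1 → ∃ X Y : ℤ, X ^ 2 + Y ^ 2 = p ∧
      q * (X ^ 2 - Y ^ 2) = e0.1.h * (F^[k2] e0.1).h - 4 * e0.1.a * (F^[k2] e0.1).a) := by
  obtain ⟨hp, hq, p0, hlt, p4, q4, hDe⟩ := hpq
  have p5 : 5 ≤ p := by
    by_contra h
    have : p = 1 := by omega
    rw [this] at hp
    exact hp.not_isUnit isUnit_one
  have q0 : 0 < q := by linarith
  have s0 : 0 < s := by
    rcases lt_or_eq_of_le hs with h | h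
    · exact h
    · exfalso
      rw [← h] at heq
      have h1 : p * r ^ 2 = 4 * δ := by linarith
      have h2 : 0 ≤ r ^ 2 := sq_nonneg r
      rcases hδ with h3 | h3
      · rw [h3] at h1
        have : r ^ 2 = 0 ∨ 1 ≤ r ^ 2 := by omega
        rcases this with h4 | h4
        · rw [h4] at h1; linarith
        · nlinarith
      · rw [h3] at h1
        nlinarith [mul_nonneg p0.le h2]
  have r0 : 0 < r := by
    rcases lt_or_eq_of_le hr with h | h
    · exact h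
    · exfalso
      rw [← h] at heq
      have h1 : q * s ^ 2 = - 4 * δ := by linarith
      have h2 : 1 ≤ s ^ 2 := by nlinarith
      rcases hδ with h3 | h3
      · rw [h3] at h1
        nlinarith
      · rw [h3] at h1
        nlinarith
  have qs : 5 ≤ q * s ^ 2 := by
    have : 1 ≤ s ^ 2 := by nlinarith
    nlinarith
  have hd2 : δ ^ 2 = 1 := by rcases hδ with h | h <;> rw [h] <;> norm_num
  -- the candidate unit
  have hunit : (q * s ^ 2 + 2 * δ) ^ 2 - D * (r * s) ^ 2 = 4 := by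
    rw [hDe]
    linear_combination (-q * s ^ 2) * heq + 4 * hd2
  have hT0 : 0 < q * s ^ 2 + 2 * δ := by
    rcases hδ with h | h <;> rw [h] <;> linarith
  have hU0 : 0 < r * s := mul_pos r0 s0
  -- the unit of `e0`
  have hret : F^[2 * k2] e0.1 = e0.1 := by
    have h1 : (Tp D hD)^[2 * k2] e0 = e0 := by
      rw [← hk2]; exact Function.isPeriodicPt_minimalPeriod _ _
    have h2 := congrArg Subtype.val h1
    rw [T_iter, if_pos (by omega)] at h2
    exact h2
  obtain ⟨t, u, t0, u0, htu, hx1, hz1, hy1, ht1⟩ :=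
    (hUP p q D ⟨hp, hq, p0, hlt, p4, q4, hDe⟩ e0.1).1 (2 * k2) (by omega) hret
  have hule : u ≤ r * s := by
    apply unit_le hD hW hUP ⟨hp, hq, p0, hlt, p4, q4, hDe⟩ e0 u _ _ _ hT0 hU0 hunit
    rw [hk2]; exact hy1
  have hule' : r * s ≤ u := by
    apply unit_le hD hW hUP ⟨hp, hq, p0, hlt, p4, q4, hDe⟩ c0 (r * s) t u _ t0 u0 htu
    rw [ca, one_mul]; exact hy
  have hu : u = r * s := le_antisymm hule hule'
  have ht : t = q * s ^ 2 + 2 * δ := by
    have h1 : t ^ 2 = (q * s ^ 2 + 2 * δ) ^ 2 := by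
      rw [← hu] at hunit
      linarith
    rcases sq_eq_sq_iff_eq_or_eq_neg.1 h1 with h | h
    · exact h
    · exfalso; linarith
  -- the matrix
  have hWadd := (hW D e0.1 k2).2.2.2.2 k2
  have hWtr := (hW D e0.1 k2).2.2.2.1
  rw [hfix] at hWtr
  rw [hWtr, ← two_mul] at hWadd
  obtain ⟨hR, -, hdet, -, -⟩ := hW D e0.1 k2
  rw [hWadd] at hx1 hz1 hy1 ht1
  simp only [Mt.mul, Mt.tr] at hx1 hz1 hy1 ht1
  have hab := fix_ab he
  have hab' := fix_ab hfix
  unfold Rel val pol at hR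
  obtain ⟨R1, R2, R3⟩ := hR
  have E0 := e0.1.eq
  have E1 := (F^[k2] e0.1).eq
  set V := Wm k2 e0.1 with hV
  set f := F^[k2] e0.1 with hf
  unfold Mt.det at hdet
  have hGA := hG p q e0.1.a f.a e0.1.h f.h t u V.x V.y V.z V.t r s δ p0 q0 e0.1.ha
    (by rw [← hab] at E0; linear_combination -hDe - E0)
    (by rw [← hab'] at E1; linear_combination -hDe - E1) hdet
    (by rw [R1, ← hab]) (by rw [hab', R3, ← hab]; ring)
    (by rw [R2, ← hab])
    (by rw [← hy1]; ring) (by linarith) (by linarith) heq (by rw [ht]; linarith) hu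
  exact hGA

/-- value of the lower left entry of the word of the whole period, case `F^k1 c = c'` -/
theorem word_plus (hW : S_WRD) (c c' : Edge D) (k1 : ℕ) (hk : 0 < k1) (h1 : F^[k1] c = c')
    (h2 : F^[k1] c' = c) (hc : F (rh c) = c) (hc' : F (rh c') = c')
    (hlc : lt (rh c) = ⟨1, 0, 1, 1⟩) (hlc' : lt (rh c') = ⟨1, 0, 1, 1⟩) :
    (Wm (2 * k1) c).y = (2 * (Wm k1 c).t - (Wm k1 c).y) * (Wm k1 c).y := by
  obtain ⟨k, rfl⟩ : ∃ k, k1 = k + 1 := ⟨k1 - 1, by omega⟩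
  have hadd := (hW D c (k + 1)).2.2.2.2 (k + 1)
  rw [h1, ← two_mul] at hadd
  have htr := (hW D c (k + 1)).2.2.2.1
  rw [h1, Wm_al] at htr
  have hfirst : Wm (k + 1) (rh c') = (lt (rh c')).mul (Wm k (F (rh c'))) := rfl
  rw [hc', hlc'] at hfirst
  have hlast := Wm_last hW k c'
  have hinj : F^[k] c' = rh c := by
    have : F (F^[k] c') = F (rh c) := by rw [← iterate_succ_apply' F k c', h2, hc]
    exact (Fp D).injective this
  rw [hinj, hlc] at hlast
  rw [hadd, hlast]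
  rw [hfirst] at htr
  have e1 := congrArg Mt.x htr
  have e2 := congrArg Mt.y htr
  have e3 := congrArg Mt.z htr
  have e4 := congrArg Mt.t htr
  simp only [sw, Mt.mul, Mt.tr] at e1 e2 e3 e4 ⊢
  set V := Wm (k + 1) c
  set Q := Wm k c'
  have q4 : Q.y = V.y := by linarith
  have q3 : Q.x = V.t - V.y := by linarith
  rw [q4, q3]; ring

/-- the same, case `F^k1 c = al c'` -/
theorem word_minus (hW : S_WRD) (c c' : Edge D) (k1 : ℕ) (hk : 0 < k1) (h1 : F^[k1] c = c')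
    (h2 : F^[k1] c' = c) (hc : F (rh c) = c) (hc' : F (rh c') = c')
    (hlc : lt (rh c) = ⟨1, 0, 1, 1⟩) (hlc' : lt (rh c') = ⟨1, 1, 0, 1⟩) :
    (Wm (2 * k1) c).y = (2 * (Wm k1 c).y - (Wm k1 c).t) * (Wm k1 c).t := by
  obtain ⟨k, rfl⟩ : ∃ k, k1 = k + 1 := ⟨k1 - 1, by omega⟩
  have hadd := (hW D c (k + 1)).2.2.2.2 (k + 1)
  rw [h1, ← two_mul] at hadd
  have htr := (hW D c (k + 1)).2.2.2.1
  rw [h1, Wm_al] at htr
  have hfirst : Wm (k + 1) (rh c') = (lt (rh c')).mul (Wm k (F (rh c'))) := rfl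
  rw [hc', hlc'] at hfirst
  have hlast := Wm_last hW k c'
  have hinj : F^[k] c' = rh c := by
    have : F (F^[k] c') = F (rh c) := by rw [← iterate_succ_apply' F k c', h2, hc]
    exact (Fp D).injective this
  rw [hinj, hlc] at hlast
  rw [hadd, hlast]
  rw [hfirst] at htr
  have e1 := congrArg Mt.x htr
  have e2 := congrArg Mt.y htr
  have e3 := congrArg Mt.z htr
  have e4 := congrArg Mt.t htr
  simp only [sw, Mt.mul, Mt.tr] at e1 e2 e3 e4 ⊢
  set V := Wm (k + 1) c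
  set Q := Wm k c'
  have q3 : Q.x = V.t := by linarith
  have q4 : Q.y = V.y - V.t := by linarith
  rw [q4, q3]; ring

/-- the Legendre symbol -/
theorem jac {p q D : ℤ} (hpq : PQ p q D) (r s δ : ℤ) (hδ : δ = 1 ∨ δ = -1)
    (heq : p * r ^ 2 - q * s ^ 2 = 4 * δ) : jacobiSym q p.natAbs = 1 := by
  obtain ⟨hp, hq, p0, hlt, p4, q4, hDe⟩ := hpq
  have hP : p.natAbs.Prime := Int.prime_iff_natAbs_prime.1 hp
  have : Fact p.natAbs.Prime := ⟨hP⟩
  have hPp : (p.natAbs : ℤ) = p := Int.natAbs_of_nonneg p0.le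
  have hP4 : p.natAbs % 4 = 1 := by omega
  have hp0 : ((p : ℤ) : ZMod p.natAbs) = 0 := by
    rw [ZMod.intCast_zmod_eq_zero_iff_dvd, hPp]
  have h2 : (2 : ZMod p.natAbs) ≠ 0 := by
    intro h
    have : ((2 : ℕ) : ZMod p.natAbs) = 0 := by exact_mod_cast h
    rw [ZMod.natCast_eq_zero_iff] at this
    have := Nat.le_of_dvd (by norm_num) this
    have := hP.two_le
    omega
  obtain ⟨i, hi⟩ : IsSquare (-1 : ZMod p.natAbs) := by
    rw [ZMod.exists_sq_eq_neg_one_iff]; omega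
  have heq' : (p : ZMod p.natAbs) * (r : ZMod p.natAbs) ^ 2
      - (q : ZMod p.natAbs) * (s : ZMod p.natAbs) ^ 2 = 4 * (δ : ZMod p.natAbs) := by
    exact_mod_cast congrArg (fun x : ℤ => (x : ZMod p.natAbs)) heq
  rw [hp0, zero_mul, zero_sub] at heq'
  obtain ⟨j, hj⟩ : ∃ j : ZMod p.natAbs, - (δ : ZMod p.natAbs) = j * j := by
    rcases hδ with h | h
    · exact ⟨i, by rw [h]; push_cast; exact hi⟩
    · exact ⟨1, by rw [h]; push_cast; ring⟩
  have hj0 : j ≠ 0 := by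
    intro h
    rw [h] at hj
    rcases hδ with h | h <;> rw [h] at hj <;> simp at hj
  have hs0 : (s : ZMod p.natAbs) ≠ 0 := by
    intro h
    rw [h] at heq'
    have h3 : (4 : ZMod p.natAbs) * (j * j) = 0 := by rw [← hj]; linear_combination heq'
    have h4 : (2 * j) * (2 * j) = (0 : ZMod p.natAbs) := by linear_combination h3
    have := mul_self_eq_zero.1 h4
    exact (mul_ne_zero h2 hj0) this
  have hsq : (q : ZMod p.natAbs) = (2 * j / s) * (2 * j / s) := by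
    field_simp
    linear_combination -heq' + 4 * hj
  have hq0 : (q : ZMod p.natAbs) ≠ 0 := by
    rw [hsq]
    exact mul_ne_zero (div_ne_zero (mul_ne_zero h2 hj0) hs0) (div_ne_zero (mul_ne_zero h2 hj0) hs0)
  rw [← jacobiSym.legendreSym.to_jacobiSym, legendreSym.eq_one_iff _ hq0]
  exact ⟨_, hsq⟩

/-- parities of the coefficients -/
theorem par8 {D : ℤ} (e : Edge D) (hab : e.a = e.b) (ho : e.h % 2 = 1) :
    D % 8 = 1 + 4 * (e.a % 2) := by
  obtain ⟨k, hk⟩ : ∃ k, e.h = 2 * k + 1 := ⟨e.h / 2, by omega⟩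
  have E := e.eq
  rw [← hab, hk] at E
  have hkk : (k ^ 2 + k) % 2 = 0 := by
    have : k ^ 2 + k = k * (k + 1) := by ring
    rw [this]
    exact Int.emod_eq_zero_of_dvd (Int.even_mul_succ_self k).two_dvd
  obtain ⟨w, hw⟩ : ∃ w, k ^ 2 + k = 2 * w := ⟨(k ^ 2 + k) / 2, by omega⟩
  have E2 : D = 1 + 8 * w + 4 * e.a ^ 2 := by linear_combination -E + 4 * hw
  rcases Int.emod_two_eq_zero_or_one e.a with h | h
  · obtain ⟨v, hv⟩ : ∃ v, e.a = 2 * v := ⟨e.a / 2, by omega⟩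
    rw [h]
    have : D = 1 + 8 * (w + 2 * v ^ 2) := by rw [E2, hv]; ring
    omega
  · obtain ⟨v, hv⟩ : ∃ v, e.a = 2 * v + 1 := ⟨e.a / 2, by omega⟩
    rw [h]
    have : D = 5 + 8 * (w + 2 * v ^ 2 + 2 * v) := by rw [E2, hv]; ring
    omega

/-- parity of the number of steps from the residue of `h h'` modulo `4` -/
theorem k2par {D : ℤ} [NS D] (hD : D % 4 = 1) (e : Edge D) (hse : sg e = 0) (k2 : ℕ)
    (hab : e.a = e.b) (hab' : (F^[k2] e).a = (F^[k2] e).b) :
    ((e.h * (F^[k2] e).h) % 4 = 1 → k2 % 2 = 0) ∧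
    ((e.h * (F^[k2] e).h) % 4 = 3 → k2 % 2 = 1) := by
  have ho := h_odd hD e
  have ho' := h_odd hD (F^[k2] e)
  have p1 := par8 e hab ho
  have p2 := par8 (F^[k2] e) hab' ho'
  have hsg := sg_iter hD k2 e
  rw [hse, zero_add] at hsg
  have hs0 := hse
  unfold sg at hsg hs0
  rw [← hab'] at hsg
  rw [← hab] at hs0
  have hk : ((k2 : ℕ) : ZMod 2) = (((k2 : ℤ)) : ZMod 2) := by push_cast; rfl
  rw [hk, sg_eq_iff] at hsg
  have h0 : (0 : ZMod 2) = ((0 : ℤ) : ZMod 2) := by push_cast; rfl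
  rw [h0, sg_eq_iff] at hs0
  set f := F^[k2] e with hf
  have sqp : ∀ a : ℤ, ((a + 1) * (a + 1)) % 2 = (a + 1) % 2 := by
    intro a
    rcases Int.emod_two_eq_zero_or_one a with h | h
    · have : (a + 1) % 2 = 1 := by omega
      rw [Int.mul_emod, this]; norm_num
    · have : (a + 1) % 2 = 0 := by omega
      rw [Int.mul_emod, this]; norm_num
  have s1 := sqp e.a
  have s2 := sqp f.a
  have key : ((f.h - 1) / 2 + (e.h - 1) / 2) % 2 = (k2 : ℤ) % 2 := by omega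
  have hmul : ∀ u v : ℤ, u % 2 = 1 → v % 2 = 1 →
      (((u * v) % 4 = 1 → ((v - 1) / 2 + (u - 1) / 2) % 2 = 0) ∧
       ((u * v) % 4 = 3 → ((v - 1) / 2 + (u - 1) / 2) % 2 = 1)) := by
    intro u v hu hv
    have hu4 : u % 4 = 1 ∨ u % 4 = 3 := by omega
    have hv4 : v % 4 = 1 ∨ v % 4 = 3 := by omega
    have hm := Int.mul_emod u v 4
    rcases hu4 with h | h <;> rcases hv4 with h' | h' <;> rw [h, h'] at hm <;> norm_num at hm <;>
      constructor <;> intro h5 <;> omega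
  obtain ⟨m1, m2⟩ := hmul _ _ ho ho'
  constructor
  · intro h
    have := m1 h
    omega
  · intro h
    have := m2 h
    omega

/-- the two special edges `c`, `c'` -/
theorem exists_c {p q D : ℤ} (hpq : PQ p q D) (hD : D % 4 = 1) :
    ∃ c c' : Edge D, (c.a = 1 ∧ c.h = 1 ∧ c.b = (D - 1) / 4) ∧
      (c'.a = p ∧ c'.h = p ∧ c'.b = (q - p) / 4) := by
  obtain ⟨hp, hq, p0, hlt, p4, q4, hDe⟩ := hpq
  have hD5 : 5 ≤ D := by
    have : 5 ≤ q := by
      by_contra h
      have : q = 1 := by omega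
      rw [this] at hq
      exact hq.not_isUnit isUnit_one
    nlinarith
  refine ⟨⟨1, 1, (D - 1) / 4, one_pos, by omega, by omega⟩,
    ⟨p, p, (q - p) / 4, p0, by omega, ?_⟩, ⟨rfl, rfl, rfl⟩, ⟨rfl, rfl, rfl⟩⟩
  have : 4 * ((q - p) / 4) = q - p := by omega
  rw [hDe]
  linear_combination p * this

theorem lt_neg' {D : ℤ} {e : Edge D} (h : ¬ 0 < e.a + e.h - e.b) : lt e = ⟨1, 0, 1, 1⟩ := by
  unfold lt; rw [if_neg h]

theorem lt_pos' {D : ℤ} {e : Edge D} (h : 0 < e.a + e.h - e.b) : lt e = ⟨1, 1, 0, 1⟩ := by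
  unfold lt; rw [if_pos h]

/-- the numbers `r`, `s` -/
theorem rs_exist {p q D : ℤ} [NS D] (hW : S_WRD) (hpq : PQ p q D) (hD : D % 4 = 1)
    (c c' : Edge D) (hc : c.a = 1 ∧ c.h = 1 ∧ c.b = (D - 1) / 4)
    (hc' : c'.a = p ∧ c'.h = p ∧ c'.b = (q - p) / 4) (hF : F (rh c) = c) (hF' : F (rh c') = c')
    (k1 : ℕ) (hk : 0 < k1) (hret : F^[2 * k1] c = c) :
    (F^[k1] c = c' → ∃ r s : ℤ, p * r ^ 2 - q * s ^ 2 = 4 * 1 ∧ 0 ≤ r ∧ 0 ≤ s ∧
      (Wm (2 * k1) c).y = r * s) ∧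
    (F^[k1] c = al c' → ∃ r s : ℤ, p * r ^ 2 - q * s ^ 2 = 4 * (-1) ∧ 0 ≤ r ∧ 0 ≤ s ∧
      (Wm (2 * k1) c).y = r * s) := by
  obtain ⟨hp, hq, p0, hlt, p4, q4, hDe⟩ := hpq
  obtain ⟨a1, a2, a3⟩ := hc
  obtain ⟨b1, b2, b3⟩ := hc'
  have hb0 := c.hb
  have hb0' := c'.hb
  have hlc : lt (rh c) = ⟨1, 0, 1, 1⟩ := by
    apply lt_neg'
    simp only [rh]; rw [a1, a2]; linarith
  have hDk : D = 1 + 4 * c.b := by rw [a3]; omega
  have hqp : q = p + 4 * c'.b := by rw [b3]; omega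
  obtain ⟨hR, ⟨n1, n2, n3, n4⟩, hdet, -, -⟩ := hW D c k1
  unfold Rel val pol at hR
  obtain ⟨R1, R2, R3⟩ := hR
  unfold Mt.det at hdet
  have hret' : F^[k1] (F^[k1] c) = c := by rw [← iterate_add_apply, ← two_mul, hret]
  constructor
  · intro h1
    have hlc' : lt (rh c') = ⟨1, 0, 1, 1⟩ := by
      apply lt_neg'
      simp only [rh]; rw [b1, b2]; linarith
    have hy := word_plus hW c c' k1 hk h1 (by rw [← h1]; exact hret') hF hF' hlc hlc'
    rw [h1] at R1 R2 R3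
    rw [a1, a2] at R1 R2 R3
    rw [b1] at R1
    rw [b2] at R2
    set V := Wm k1 c
    have key : 2 * V.x + V.y = p * (2 * V.t - V.y) := by
      have e1 : 2 * V.x + V.y = (2 * V.x + V.y) * (V.x * V.t - V.y * V.z) := by rw [hdet, mul_one]
      rw [e1]
      linear_combination (-2 * V.t) * R1 + V.y * R2
    have heq : p * (2 * V.t - V.y) ^ 2 - q * V.y ^ 2 = 4 * 1 := by
      have : p * (p * (2 * V.t - V.y) ^ 2 - q * V.y ^ 2) = p * (4 * 1) := by
        have h3 : (2 * V.x + V.y) ^ 2 - D * V.y ^ 2 = 4 * p := by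
          rw [hDk]; linear_combination -4 * R1
        rw [key, hDe] at h3
        linear_combination h3
      exact mul_left_cancel₀ (ne_of_gt p0) this
    have hr : 0 ≤ 2 * V.t - V.y := by
      by_contra h
      have : p * (2 * V.t - V.y) < 0 := mul_neg_of_pos_of_neg p0 (not_le.1 h)
      linarith
    exact ⟨_, _, heq, hr, n2, hy⟩
  · intro h1
    have hFal : F (rh (al c')) = al c' := by rw [← al_rh, F_al, hF']
    have hlc' : lt (rh (al c')) = ⟨1, 1, 0, 1⟩ := by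
      apply lt_pos'
      simp only [rh, al]; rw [b1, b2]; linarith
    have hy := word_minus hW c (al c') k1 hk h1 (by rw [← h1]; exact hret') hF hFal hlc hlc'
    rw [h1] at R1 R2 R3
    rw [a1, a2] at R1 R2 R3
    simp only [al] at R1 R2 R3
    rw [b2] at R2
    rw [b1] at R3
    set V := Wm k1 c
    have key : 2 * V.z + V.t = p * (2 * V.y - V.t) := by
      have e1 : 2 * V.z + V.t = (2 * V.z + V.t) * (V.x * V.t - V.y * V.z) := by rw [hdet, mul_one]
      rw [e1]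
      linear_combination (-V.t) * R2 - 2 * V.y * R3
    have heq : p * (2 * V.y - V.t) ^ 2 - q * V.t ^ 2 = 4 * (-1) := by
      have : p * (p * (2 * V.y - V.t) ^ 2 - q * V.t ^ 2) = p * (4 * (-1)) := by
        have h3 : (2 * V.z + V.t) ^ 2 - D * V.t ^ 2 = - 4 * p := by
          rw [hDk]; linear_combination 4 * R3
        rw [key, hDe] at h3
        linear_combination h3
      exact mul_left_cancel₀ (ne_of_gt p0) this
    have hr : 0 ≤ 2 * V.y - V.t := by
      by_contra h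
      have : p * (2 * V.y - V.t) < 0 := mul_neg_of_pos_of_neg p0 (not_le.1 h)
      linarith
    exact ⟨_, _, heq, hr, n4, hy⟩

theorem main : S_EVEN' := by
  intro hDI hW hUP hG hS hFC hFE hFin p q D a b c d _ hpq hD hts hno
  obtain ⟨c0, c1, hc0, hc1⟩ := exists_c hpq hD
  obtain ⟨hFc0, hsc0⟩ := (hFC p q D hpq c0).2 (Or.inl hc0)
  obtain ⟨hFc1, hsc1⟩ := (hFC p q D hpq c1).2 (Or.inr hc1)
  obtain ⟨e0, e1, he01, hE⟩ := hFE p q D hpq
  obtain ⟨hfe0, hse0⟩ := (hE e0).2 (Or.inl rfl)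
  obtain ⟨hfe1, hse1⟩ := (hE e1).2 (Or.inr rfl)
  obtain ⟨hp, hq, p0, hlt, p4, q4, hDe⟩ := id hpq
  have hfinE := hFin D
  have : Finite (Xs D) := by unfold Xs; infer_instance
  have : Fintype (Xs D) := Fintype.ofFinite _
  have : DecidableEq (Xs D) := Classical.decEq _
  let C0 : Xs D := ⟨c0, hsc0⟩
  let C1 : Xs D := ⟨c1, hsc1⟩
  let E0 : Xs D := ⟨e0, hse0⟩
  let E1 : Xs D := ⟨e1, hse1⟩
  have hC01 : C0 ≠ C1 := by
    intro h
    have h2 : c0 = c1 := congrArg Subtype.val h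
    have h3 : c0.a = c1.a := by rw [h2]
    rw [hc0.1, hc1.1] at h3
    rw [← h3] at hp
    exact hp.not_isUnit isUnit_one
  have hE01 : E0 ≠ E1 := fun h => he01 (congrArg Subtype.val h)
  have hfixC : ∀ x : Xs D, Tp D hD (tp D hD x) = x ↔ (x = C0 ∨ x = C1) := by
    intro x
    constructor
    · intro h
      have h1 := congrArg Subtype.val h
      rw [T_t_val] at h1
      rcases (hFC p q D hpq x.1).1 ⟨h1, x.2⟩ with h2 | h2
      · left; apply Subtype.ext
        apply Edge.ext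
        · exact h2.1.trans hc0.1.symm
        · exact h2.2.1.trans hc0.2.1.symm
        · exact h2.2.2.trans hc0.2.2.symm
      · right; apply Subtype.ext
        apply Edge.ext
        · exact h2.1.trans hc1.1.symm
        · exact h2.2.1.trans hc1.2.1.symm
        · exact h2.2.2.trans hc1.2.2.symm
    · rintro (h | h) <;> rw [h] <;> apply Subtype.ext <;> rw [T_t_val]
      · exact hFc0
      · exact hFc1
  have hfixE : ∀ x : Xs D, tp D hD x = x ↔ (x = E0 ∨ x = E1) := by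
    intro x
    constructor
    · intro h
      have h1 : al (rh x.1) = x.1 := congrArg Subtype.val h
      rcases (hE x.1).1 ⟨h1, x.2⟩ with h2 | h2
      · left; exact Subtype.ext h2
      · right; exact Subtype.ext h2
    · rintro (h | h) <;> rw [h] <;> apply Subtype.ext
      · exact hfe0
      · exact hfe1
  have hev : ∀ x : Xs D, Even (minimalPeriod (Tp D hD) x) := by
    intro x
    rcases Nat.even_or_odd (minimalPeriod (Tp D hD) x) with h | h
    · exact h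
    · exfalso
      apply hno
      refine ⟨x.1, minimalPeriod (Tp D hD) x, ?_⟩
      have h1 : (Tp D hD)^[minimalPeriod (Tp D hD) x] x = x :=
        Function.isPeriodicPt_minimalPeriod _ _
      have h2 := congrArg Subtype.val h1
      rw [T_iter, if_neg (by rw [Nat.odd_iff] at h; omega)] at h2
      rw [← h2, al_al, h2]
  obtain ⟨hcard, hTc, hTe⟩ := hDI (Xs D) (Tp D hD) (tp D hD) (tp_tp hD) (T_t_T hD) C0 C1 E0 E1
    hC01 hE01 hfixC hfixE hev
  have hper : ∀ x : Xs D, 0 < minimalPeriod (Tp D hD) x := by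
    intro x
    apply Function.minimalPeriod_pos_of_mem_periodicPts
    exact (Tp D hD).injective.mem_periodicPts x
  obtain ⟨k1, hk1⟩ : ∃ k, minimalPeriod (Tp D hD) C0 = 2 * k :=
    (even_iff_exists_two_mul).1 (hev C0)
  obtain ⟨k2, hk2⟩ : ∃ k, minimalPeriod (Tp D hD) E0 = 2 * k :=
    (even_iff_exists_two_mul).1 (hev E0)
  have hk1p : 0 < k1 := by have := hper C0; omega
  have hk2p : 0 < k2 := by have := hper E0; omega
  rw [hk1, Nat.mul_div_cancel_left _ (by norm_num)] at hTc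
  rw [hk2, Nat.mul_div_cancel_left _ (by norm_num)] at hTe
  have hret : F^[2 * k1] c0 = c0 := by
    have h1 : (Tp D hD)^[2 * k1] C0 = C0 := by
      rw [← hk1]; exact Function.isPeriodicPt_minimalPeriod _ _
    have h2 := congrArg Subtype.val h1
    rw [T_iter, if_pos (by omega)] at h2
    exact h2
  have hfix : al (rh (F^[k2] e0)) = F^[k2] e0 := by
    have h2 := congrArg Subtype.val hTe
    rw [T_iter] at h2
    by_cases h : k2 % 2 = 0
    · rw [if_pos h] at h2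
      have h3 : F^[k2] e0 = e1 := h2
      rw [h3, hfe1]
    · rw [if_neg h] at h2
      have h3 : F^[k2] e0 = al e1 := by
        have h4 : al (F^[k2] e0) = e1 := h2
        rw [← h4, al_al]
      rw [h3, ← al_rh, hfe1]
  have hrs := rs_exist hW hpq hD c0 c1 hc0 hc1 hFc0 hFc1 k1 hk1p hret
  have hFk1 : (k1 % 2 = 0 → F^[k1] c0 = c1) ∧ (k1 % 2 = 1 → F^[k1] c0 = al c1) := by
    have h2 := congrArg Subtype.val hTc
    rw [T_iter] at h2
    constructor
    · intro h; rw [if_pos h] at h2; exact h2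
    · intro h
      rw [if_neg (by omega)] at h2
      have h4 : al (F^[k1] c0) = c1 := h2
      rw [← h4, al_al]
  have hab := fix_ab hfe0
  have hab' := fix_ab hfix
  have hkp := k2par hD e0 hse0 k2 hab hab'
  have hm0 := e0.ha
  have hm1 := (F^[k2] e0).ha
  have hD0 : p * q = e0.h ^ 2 + 4 * e0.a ^ 2 := by
    have := e0.eq
    rw [← hab] at this
    linear_combination -hDe - this
  have hD1 : p * q = (F^[k2] e0).h ^ 2 + 4 * (F^[k2] e0).a ^ 2 := by
    have := (F^[k2] e0).eq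
    rw [← hab'] at this
    linear_combination -hDe - this
  have hcardZ : (Nat.card (Xs D) : ℤ) ≡ 2 * (k1 : ℤ) + 2 * (k2 : ℤ) [ZMOD 4] := by
    rw [Nat.card_eq_fintype_card]
    rw [hk1, hk2] at hcard
    push_cast at hcard
    exact hcard
  unfold Int.ModEq at hcardZ ⊢
  rcases Nat.mod_two_eq_zero_or_one k1 with hk | hk
  · obtain ⟨r, s, heq, hr, hs, hy⟩ := hrs.1 (hFk1.1 hk)
    have hj := jac hpq r s 1 (Or.inl rfl) heq
    obtain ⟨X, Y, hX, hY⟩ := (tail hD hW hUP hG hpq C0 E0 hc0.1 k2 hk2 hk2p hfix hfe0 r s 1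
      (Or.inl rfl) heq hr hs (by rw [hk1]; exact hy)).1 rfl
    have hsg := hS p q a b c d e0.h (F^[k2] e0).h e0.a (F^[k2] e0).a X Y hp hq (ne_of_lt hlt)
      p4 q4 hts.a0 hts.ab hts.hp hts.c0 hts.cd hts.hq hts.par hm0 hm1 hD0 hD1 hX hY
    refine ⟨hj, fun ha => ?_, fun ha => ?_⟩
    · have := hkp.1 (hsg.1 ha)
      omega
    · have := hkp.2 (hsg.2 ha)
      omega
  · obtain ⟨r, s, heq, hr, hs, hy⟩ := hrs.2 (hFk1.2 hk)
    have hj := jac hpq r s (-1) (Or.inr rfl) heq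
    obtain ⟨X, Y, hX, hY⟩ := (tail hD hW hUP hG hpq C0 E0 hc0.1 k2 hk2 hk2p hfix hfe0 r s (-1)
      (Or.inr rfl) heq hr hs (by rw [hk1]; exact hy)).2 rfl
    have hpar := hts.par
    have hsg := hS q p c d a b e0.h (F^[k2] e0).h e0.a (F^[k2] e0).a X Y hq hp (ne_of_gt hlt)
      q4 p4 hts.c0 hts.cd hts.hq hts.a0 hts.ab hts.hp (by omega) hm0 hm1
      (by rw [mul_comm, hD0]) (by rw [mul_comm, hD1]) hX hY
    refine ⟨hj, fun ha => ?_, fun ha => ?_⟩
    · have := hkp.2 (hsg.2 (by omega))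
      omega
    · have := hkp.1 (hsg.1 (by omega))
      omega

end Pool.Agent.R169.MC.Even
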