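import Pool.Agent.R169.MC.Main

/-!
# Conclusion, with the definition of the m-caliber by the conjugate root
-/

namespace Pool.Agent.R169.MC.Fin
open Pool.Agent.R169.MC

/-- m-reduced, with the conjugate as the other root -/
def MR (D : ℤ) (w : ℝ) : Prop :=
  Irrational w ∧ ∃ (a b c : ℤ) (w' : ℝ), 0 < a ∧ Int.gcd (Int.gcd a b) c = 1 ∧
    b ^ 2 - 4 * a * c = D ∧ (a : ℝ) * w ^ 2 + b * w + c = 0 ∧
    (a : ℝ) * w' ^ 2 + b * w' + c = 0 ∧ w' ≠ w ∧ 1 < w ∧ 0 < w' ∧ w' < 1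

theorem MR_iff (D : ℤ) (w : ℝ) : MR D w ↔ IsMRed D w := by
  unfold MR IsMRed
  constructor
  · rintro ⟨hi, a, b, c, w', ha, hg, hd, h1, h2, hne, hw, h3, h4⟩
    refine ⟨hi, a, b, c, ha, hg, hd, h1, hw, ?_⟩
    have ha' : (a : ℝ) ≠ 0 := by exact_mod_cast ha.ne'
    have e : -(b : ℝ) / a - w = w' := by
      have h5 : (w' - w) * (a * (w' + w) + b) = 0 := by linear_combination h2 - h1
      rcases mul_eq_zero.1 h5 with h6 | h6
      · exact absurd (sub_eq_zero.1 h6) hne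
      · field_simp
        linear_combination -h6
    rw [e]; exact ⟨h3, h4⟩
  · rintro ⟨hi, a, b, c, ha, hg, hd, h1, hw, h3, h4⟩
    have ha' : (a : ℝ) ≠ 0 := by exact_mod_cast ha.ne'
    refine ⟨hi, a, b, c, -(b : ℝ) / a - w, ha, hg, hd, h1, ?_, ?_, hw, h3, h4⟩
    · have h5 : (a : ℝ) * (-(b : ℝ) / a - w) ^ 2 + b * (-(b : ℝ) / a - w) + c
          = a * w ^ 2 + b * w + c := by
        field_simp
        ring
      rw [h5, h1]
    · intro h; rw [h] at h4; linarith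

theorem edge_card_pos {p q D : ℤ} (h : PQ p q D) (hF : S_FIN) : Nat.card (Edge D) ≠ 0 := by
  haveI := hF D
  have hp := h.p0
  have hlt := h.hlt
  have hp4 := h.p4
  have hq4 := h.q4
  have hk : 0 < (q - p) / 4 := by omega
  have e : Edge D := ⟨p, p, (q - p) / 4, hp, hk, by
    rw [h.hD]
    obtain ⟨k, hk2⟩ : ∃ k, q = p + 4 * k := ⟨(q - p) / 4, by omega⟩
    have : (q - p) / 4 = k := by omega
    rw [this, hk2]; ring⟩
  haveI : Nonempty (Edge D) := ⟨e⟩
  exact Nat.card_pos.ne'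

theorem fin_of {p q D : ℤ} (h : PQ p q D) (hF : S_FIN) (hB : S_BIJ) :
    {w : ℝ | IsMRed D w}.Finite := by
  apply Set.finite_of_ncard_ne_zero
  have h1 := hB p q D h
  have h2 := edge_card_pos h hF
  unfold kap at h1
  omega

end Pool.Agent.R169.MC.Fin
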