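import Mathlib
import Pool.Agent.R169.MC.Stm

/-!
Project MC (MP_6dddb9_nt): pieces FIN and FIXC.
-/

namespace Pool.Agent.R169.MC.FixC

theorem main2 : S_FIN := by
  intro D
  have hD : ∀ e : Edge D, 0 < D ∧ e.a ∈ Set.Icc (-D) D ∧ e.h ∈ Set.Icc (-D) D ∧
      e.b ∈ Set.Icc (-D) D := by
    intro e
    have h1 := e.ha
    have h2 := e.hb
    have h3 := e.eq
    have h4 : e.a ≤ e.a * e.b := by nlinarith
    have h5 : e.b ≤ e.a * e.b := by nlinarith
    have h6 : 0 ≤ e.h ^ 2 := sq_nonneg _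
    have h7 : e.h ≤ e.h ^ 2 := by
      rcases le_or_gt e.h 0 with h | h
      · linarith
      · nlinarith
    have h8 : -e.h ≤ e.h ^ 2 := by
      rcases le_or_gt 0 e.h with h | h
      · linarith
      · nlinarith
    refine ⟨?_, ⟨?_, ?_⟩, ⟨?_, ?_⟩, ⟨?_, ?_⟩⟩ <;> nlinarith
  have : Finite (Set.Icc (-D) D) := (Set.finite_Icc (-D) D).to_subtype
  refine Finite.of_injective (β := Set.Icc (-D) D × Set.Icc (-D) D × Set.Icc (-D) D)
    (fun e : Edge D => (⟨e.a, (hD e).2.1⟩, ⟨e.h, (hD e).2.2.1⟩, ⟨e.b, (hD e).2.2.2⟩)) ?_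
  intro e e' h
  simp only [Prod.mk.injEq, Subtype.mk.injEq] at h
  exact Edge.ext h.1 h.2.1 h.2.2

lemma divs {p q x y : ℤ} (hp : Prime p) (hq : Prime q) (p0 : 0 < p) (q0 : 0 < q) (hx : 0 < x)
    (hy : 0 < y) (h : x * y = p * q) :
    (x = 1 ∧ y = p * q) ∨ (x = p ∧ y = q) ∨ (x = q ∧ y = p) ∨ (x = p * q ∧ y = 1) := by
  have unit : ∀ u : ℤ, 0 < u → IsUnit u → u = 1 := by
    intro u hu h1
    rcases Int.isUnit_iff.1 h1 with h2 | h2
    · exact h2
    · omega
  have key : ∀ u v : ℤ, 0 < u → 0 < v → u * v = q → (u = 1 ∧ v = q) ∨ (u = q ∧ v = 1) := by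
    intro u v hu hv huv
    rcases hq.irreducible.isUnit_or_isUnit huv.symm with h1 | h1
    · left
      have := unit u hu h1
      subst this
      exact ⟨rfl, by linarith⟩
    · right
      have := unit v hv h1
      subst this
      exact ⟨by linarith, rfl⟩
  have h1 : p ∣ x * y := ⟨q, h⟩
  rcases hp.dvd_or_dvd h1 with ⟨x1, rfl⟩ | ⟨y1, rfl⟩
  · have hx1 : 0 < x1 := by
      by_contra hc
      have : p * x1 ≤ 0 := mul_nonpos_of_nonneg_of_nonpos p0.le (not_lt.1 hc)
      omega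
    have h2 : x1 * y = q := by
      apply mul_left_cancel₀ p0.ne'
      linear_combination h
    rcases key x1 y hx1 hy h2 with ⟨rfl, rfl⟩ | ⟨rfl, rfl⟩
    · right; left
      exact ⟨by ring, rfl⟩
    · right; right; right
      exact ⟨rfl, rfl⟩
  · have hy1 : 0 < y1 := by
      by_contra hc
      have : p * y1 ≤ 0 := mul_nonpos_of_nonneg_of_nonpos p0.le (not_lt.1 hc)
      omega
    have h2 : x * y1 = q := by
      apply mul_left_cancel₀ p0.ne'
      linear_combination h
    rcases key x y1 hx hy1 h2 with ⟨rfl, rfl⟩ | ⟨rfl, rfl⟩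
    · left
      exact ⟨rfl, rfl⟩
    · right; right; left
      exact ⟨rfl, by ring⟩

lemma divs4 {p q x y : ℤ} (hp : Prime p) (hq : Prime q) (p0 : 0 < p) (q0 : 0 < q) (hx : 0 < x)
    (hy : 0 < y) (h : x * y = p * q) (p4 : p % 4 = 1) (q4 : q % 4 = 1) : x % 4 = 1 := by
  rcases divs hp hq p0 q0 hx hy h with ⟨rfl, -⟩ | ⟨rfl, -⟩ | ⟨rfl, -⟩ | ⟨rfl, -⟩
  · rfl
  · exact p4
  · exact q4
  · rw [Int.mul_emod, p4, q4]
    rfl

theorem main : S_FIXC := by
  intro p q D _ hPQ e
  have hp := hPQ.hp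
  have hq := hPQ.hq
  have p0 := hPQ.p0
  have hlt := hPQ.hlt
  have q0 : 0 < q := p0.trans hlt
  have p4 := hPQ.p4
  have q4 := hPQ.q4
  have hD := hPQ.hD
  have ha := e.ha
  have hb := e.hb
  have heq := e.eq
  have hF : F (rh e) = e ↔ (e.h = -e.b ∨ e.h = e.a) := by
    by_cases h : 0 < (rh e).a + (rh e).h - (rh e).b
    · have h' : 0 < e.a + -e.h - e.b := h
      have h1 : (F (rh e)).a = e.a + -e.h - e.b ∧ (F (rh e)).h = -e.h - 2 * e.b ∧
          (F (rh e)).b = e.b := by
        unfold F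
        rw [dif_pos h]
        exact ⟨rfl, rfl, rfl⟩
      constructor
      · intro h2
        rw [h2] at h1
        left
        linarith [h1.1]
      · rintro (h2 | h2)
        · ext
          · rw [h1.1]; linarith
          · rw [h1.2.1]; linarith
          · rw [h1.2.2]
        · exfalso
          linarith
    · have h' : ¬ 0 < e.a + -e.h - e.b := h
      have h1 : (F (rh e)).a = e.a ∧ (F (rh e)).h = -e.h + 2 * e.a ∧
          (F (rh e)).b = e.b - e.a - -e.h := by
        unfold F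
        rw [dif_neg h]
        exact ⟨rfl, rfl, rfl⟩
      constructor
      · intro h2
        rw [h2] at h1
        right
        linarith [h1.2.2]
      · rintro (h2 | h2)
        · exfalso
          apply h'
          linarith
        · ext
          · rw [h1.1]
          · rw [h1.2.1]; linarith
          · rw [h1.2.2]; linarith
  have hsg : sg e = 0 ↔ (2 : ℤ) ∣ ((e.h - 1) / 2 + (e.a + 1) * (e.b + 1)) := by
    unfold sg
    exact ZMod.intCast_zmod_eq_zero_iff_dvd _ 2
  rw [hF, hsg]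
  constructor
  · rintro ⟨h1 | h1, h2⟩
    · exfalso
      have h3 : e.b * (e.b + 4 * e.a) = p * q := by
        have h0 : (-e.b) ^ 2 + 4 * e.a * e.b = D := by
          have := heq
          rwa [h1] at this
        linear_combination h0 + hD
      have h4 := divs4 hp hq p0 q0 hb (by linarith) h3 p4 q4
      obtain ⟨j, hj⟩ : ∃ j : ℤ, e.b = 4 * j + 1 := ⟨e.b / 4, by omega⟩
      rw [h1, hj] at h2
      have h5 : (-(4 * j + 1) - 1) / 2 = -(2 * j) - 1 := by omega
      have h6 : (e.a + 1) * (4 * j + 1 + 1) = 2 * ((e.a + 1) * (2 * j + 1)) := by ring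
      rw [h5, h6] at h2
      omega
    · have h3 : e.a * (e.a + 4 * e.b) = p * q := by
        have h0 : e.a ^ 2 + 4 * e.a * e.b = D := by
          have := heq
          rwa [h1] at this
        linear_combination h0 + hD
      rcases divs hp hq p0 q0 ha (by linarith) h3 with ⟨k1, k2⟩ | ⟨k1, k2⟩ | ⟨k1, k2⟩ | ⟨k1, k2⟩
      · left
        refine ⟨k1, h1.trans k1, ?_⟩
        have k3 : D = 1 + 4 * e.b := by linarith
        omega
      · right
        refine ⟨k1, h1.trans k1, ?_⟩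
        have k3 : q - p = 4 * e.b := by linarith
        omega
      · exfalso
        rw [k1] at k2
        linarith
      · exfalso
        linarith
  · rintro (⟨k1, k2, k3⟩ | ⟨k1, k2, k3⟩)
    · refine ⟨Or.inr (k2.trans k1.symm), ?_⟩
      rw [k1, k2]
      exact ⟨e.b + 1, by ring⟩
    · refine ⟨Or.inr (k2.trans k1.symm), ?_⟩
      rw [k1, k2]
      obtain ⟨j, hj⟩ : ∃ j : ℤ, p = 4 * j + 1 := ⟨p / 4, by omega⟩
      rw [hj]
      have h5 : (4 * j + 1 - 1) / 2 = 2 * j := by omega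
      rw [h5]
      exact ⟨j + (2 * j + 1) * (e.b + 1), by ring⟩

end Pool.Agent.R169.MC.FixC
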