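import Pool.Agent.R169.MC.Stm

namespace Pool.Agent.R169.MC.FixE
open Pool.Agent.R169.MC

theorem key (P N u v h m : ℤ) (hP : Prime P) (h1 : P = u ^ 2 + v ^ 2)
    (h2 : P * N = h ^ 2 + m ^ 2) :
    ∃ α β : ℤ, α ^ 2 + β ^ 2 = N ∧
      ((h = u * α - v * β ∧ m = v * α + u * β) ∨ (h = u * α + v * β ∧ m = -v * α + u * β)) := by
  have hP0 : P ≠ 0 := hP.ne_zero
  have aux : ∀ v : ℤ, P = u ^ 2 + v ^ 2 → P ∣ (u * h + v * m) →
      ∃ α β : ℤ, α ^ 2 + β ^ 2 = N ∧ h = u * α - v * β ∧ m = v * α + u * β := by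
    intro v h1 hd
    have hd2 : P ∣ (u * m - v * h) ^ 2 := by
      have : (u * m - v * h) ^ 2 = P * (P * N) - (u * h + v * m) * (u * h + v * m) := by
        rw [h2]; rw [h1]; ring
      rw [this]
      exact dvd_sub (dvd_mul_right _ _) (Dvd.dvd.mul_left hd _)
    have hd3 : P ∣ (u * m - v * h) := hP.dvd_of_dvd_pow hd2
    obtain ⟨α, hα⟩ := hd
    obtain ⟨β, hβ⟩ := hd3
    refine ⟨α, β, ?_, ?_, ?_⟩
    · apply mul_left_cancel₀ (pow_ne_zero 2 hP0)
      have : (u * h + v * m) ^ 2 + (u * m - v * h) ^ 2 = P ^ 2 * N := by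
        have : P ^ 2 * N = P * (P * N) := by ring
        rw [this, h2, h1]; ring
      rw [hα, hβ] at this
      linear_combination this
    · apply mul_left_cancel₀ hP0
      have : P * h = u * (u * h + v * m) - v * (u * m - v * h) := by rw [h1]; ring
      rw [hα, hβ] at this
      linear_combination this
    · apply mul_left_cancel₀ hP0
      have : P * m = v * (u * h + v * m) + u * (u * m - v * h) := by rw [h1]; ring
      rw [hα, hβ] at this
      linear_combination this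
  have hd : P ∣ (u * h + v * m) * (u * h - v * m) := by
    have : (u * h + v * m) * (u * h - v * m) = P * (u ^ 2 * N - m ^ 2) := by
      linear_combination (-(u ^ 2)) * h2 + (m ^ 2) * h1
    rw [this]; exact dvd_mul_right _ _
  rcases hP.dvd_or_dvd hd with hd | hd
  · obtain ⟨α, β, h3, h4, h5⟩ := aux v h1 hd
    exact ⟨α, β, h3, Or.inl ⟨h4, h5⟩⟩
  · obtain ⟨α, β, h3, h4, h5⟩ := aux (-v) (by rw [h1]; ring) (by
      have : u * h + -v * m = u * h - v * m := by ring
      rw [this]; exact hd)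
    refine ⟨α, β, h3, Or.inr ⟨?_, ?_⟩⟩
    · rw [h4]; ring
    · rw [h5]

/-- unique representation of a prime -/
theorem uniq (P w s α β : ℤ) (hP : Prime P) (h1 : P = w ^ 2 + s ^ 2) (hw : w % 2 = 1)
    (hs : s % 2 = 0) (h2 : α ^ 2 + β ^ 2 = P) (hα : α % 2 = 1) :
    (α = w ∨ α = -w) ∧ (β = s ∨ β = -s) := by
  obtain ⟨c, d, hcd, h⟩ := key P 1 w s α β hP h1 (by rw [h2]; ring)
  have hc1 : c ≤ 1 := by nlinarith
  have hc2 : -1 ≤ c := by nlinarith
  have hd1 : d ≤ 1 := by nlinarith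
  have hd2 : -1 ≤ d := by nlinarith
  obtain ⟨s', rfl⟩ : ∃ s', s = 2 * s' := ⟨s / 2, by omega⟩
  interval_cases c <;> interval_cases d <;> norm_num at hcd <;> omega

theorem exi (P : ℤ) (hP : Prime P) (hP0 : 0 < P) (hP4 : P % 4 = 1) :
    ∃ u v : ℤ, P = u ^ 2 + v ^ 2 ∧ 0 < u ∧ 0 < v ∧ u % 2 = 1 ∧ v % 2 = 0 := by
  have hn : Nat.Prime P.natAbs := Int.prime_iff_natAbs_prime.1 hP
  have : Fact (Nat.Prime P.natAbs) := ⟨hn⟩
  obtain ⟨a, b, hab⟩ := Nat.Prime.sq_add_sq (p := P.natAbs) (by omega)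
  have hab' : (a : ℤ) ^ 2 + (b : ℤ) ^ 2 = P := by
    have : ((P.natAbs : ℕ) : ℤ) = P := Int.natAbs_of_nonneg hP0.le
    rw [← this, ← hab]; push_cast; ring
  have hne : ∀ a b : ℤ, 0 ≤ a → a ^ 2 + b ^ 2 = P → 0 < a := by
    intro a b ha h
    rcases lt_or_eq_of_le ha with h1 | h1
    · exact h1
    · exfalso
      rw [← h1] at h
      have h3 : P ∣ b := hP.dvd_of_dvd_pow (n := 2) ⟨1, by linarith⟩
      obtain ⟨k, hk⟩ := h3
      rw [hk] at h
      have h4 : P * (P * k ^ 2) = P * 1 := by linarith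
      have h5 := mul_left_cancel₀ hP.ne_zero h4
      exact hP.not_isUnit (IsUnit.of_mul_eq_one _ h5)
  have ha0 := hne a b (by positivity) hab'
  have hb0 := hne b a (by positivity) (by linarith)
  have h2 : (a : ℤ) % 2 = 0 ∨ (a : ℤ) % 2 = 1 := by omega
  have h3 : (b : ℤ) % 2 = 0 ∨ (b : ℤ) % 2 = 1 := by omega
  have sq0 : ∀ x : ℤ, x % 2 = 0 → x ^ 2 % 4 = 0 := by
    intro x hx
    obtain ⟨y, rfl⟩ : ∃ y, x = 2 * y := ⟨x / 2, by omega⟩
    have : (2 * y) ^ 2 = 4 * (y ^ 2) := by ring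
    rw [this]; omega
  have sq1 : ∀ x : ℤ, x % 2 = 1 → x ^ 2 % 4 = 1 := by
    intro x hx
    obtain ⟨y, rfl⟩ : ∃ y, x = 2 * y + 1 := ⟨x / 2, by omega⟩
    have : (2 * y + 1) ^ 2 = 4 * (y ^ 2 + y) + 1 := by ring
    rw [this]; omega
  rcases h2 with h2 | h2 <;> rcases h3 with h3 | h3
  · have := sq0 _ h2; have := sq0 _ h3; omega
  · exact ⟨b, a, by linarith, hb0, ha0, h3, h2⟩
  · exact ⟨a, b, by linarith, ha0, hb0, h2, h3⟩
  · have := sq1 _ h2; have := sq1 _ h3; omega

theorem sg0 {D : ℤ} (x : Edge D) :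
    sg x = 0 ↔ ((x.h - 1) / 2 + (x.a + 1) * (x.b + 1)) % 2 = 0 := by
  unfold sg
  rw [ZMod.intCast_zmod_eq_zero_iff_dvd]
  constructor
  · intro h; exact Int.emod_eq_zero_of_dvd (by exact_mod_cast h)
  · intro h; exact_mod_cast Int.dvd_of_emod_eq_zero h

/-- an edge with `a = b` and `sg = 0`, with prescribed `a` -/
theorem mk {D : ℤ} (h a : ℤ) (ha : 0 < a) (hh : h % 2 = 1) (hD : h ^ 2 + 4 * a * a = D) :
    ∃ e : Edge D, e.a = a ∧ e.b = a ∧ sg e = 0 ∧ e.h % 2 = 1 := by
  rcases Int.emod_two_eq_zero_or_one ((h - 1) / 2 + (a + 1) * (a + 1)) with h1 | h1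
  · refine ⟨⟨a, h, a, ha, ha, hD⟩, rfl, rfl, ?_, hh⟩
    rw [sg0]; exact h1
  · refine ⟨⟨a, -h, a, ha, ha, by linarith [hD, neg_sq h]⟩, rfl, rfl, ?_, ?_⟩
    · rw [sg0]
      show ((-h - 1) / 2 + (a + 1) * (a + 1)) % 2 = 0
      generalize (a + 1) * (a + 1) = K at *
      omega
    · show (-h) % 2 = 1
      omega

theorem eqof {D : ℤ} (x e : Edge D) (h1 : x.a = x.b) (h2 : e.a = e.b) (h3 : x.a = e.a)
    (h4 : sg x = 0) (h5 : sg e = 0) (h6 : e.h % 2 = 1) : x = e := by
  have hx := x.eq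
  have he := e.eq
  have h7 : x.h ^ 2 = e.h ^ 2 := by
    rw [← h1, h3] at hx
    rw [← h2] at he
    linarith
  rcases sq_eq_sq_iff_eq_or_eq_neg.1 h7 with h8 | h8
  · ext
    · exact h3
    · exact h8
    · rw [← h1, ← h2, h3]
  · exfalso
    rw [sg0] at h4 h5
    rw [← h1, h3, h8] at h4
    rw [← h2] at h5
    generalize (e.a + 1) * (e.a + 1) = K at *
    omega

theorem main : S_FIXE := by
  intro p q D hpq
  obtain ⟨hp, hq, p0, hlt, p4, q4, hD⟩ := hpq
  obtain ⟨u, v, h1, hu, hv, hu2, hv2⟩ := exi p hp p0 p4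
  obtain ⟨w, s, h2, hw, hs, hw2, hs2⟩ := exi q hq (by omega) q4
  have nsq : ∀ n : ℤ, n ^ 2 ≠ D := by
    intro n hn
    have h3 : p ∣ n := hp.dvd_of_dvd_pow (n := 2) ⟨q, by rw [hn, hD]⟩
    obtain ⟨k, rfl⟩ := h3
    have h4 : p * (p * k ^ 2) = p * q := by rw [← hD, ← hn]; ring
    have h5 := mul_left_cancel₀ hp.ne_zero h4
    have h6 : p ∣ q := ⟨k ^ 2, h5.symm⟩
    have h7 := (hp.associated_of_dvd hq h6)
    rcases Int.associated_iff.1 h7 with h8 | h8 <;> omega
  obtain ⟨v', rfl⟩ : ∃ v', v = 2 * v' := ⟨v / 2, by omega⟩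
  obtain ⟨s', rfl⟩ : ∃ s', s = 2 * s' := ⟨s / 2, by omega⟩
  have hne : u * s' - v' * w ≠ 0 := by
    intro h
    apply nsq (u * w + 2 * v' * (2 * s'))
    have : D = (u * w + 2 * v' * (2 * s')) ^ 2 + (2 * (u * s' - v' * w)) ^ 2 := by
      rw [hD, h1, h2]; ring
    rw [this, h]; ring
  have huw : (u * w) % 2 = 1 := by rw [Int.mul_emod, hu2, hw2]; rfl
  obtain ⟨e, ea, eb, es, eo⟩ := mk (D := D) (u * w + 2 * v' * (2 * s')) |u * s' - v' * w|
    (abs_pos.2 hne) (by
      have : 2 * v' * (2 * s') = 2 * (2 * v' * s') := by ring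
      rw [this]; omega) (by
      have : 4 * |u * s' - v' * w| * |u * s' - v' * w| = 4 * (u * s' - v' * w) ^ 2 := by
        rw [mul_assoc, abs_mul_abs_self]; ring
      rw [this, hD, h1, h2]; ring)
  have hus : 0 < u * s' := by
    have : 0 < s' := by omega
    positivity
  have hvw : 0 < v' * w := by
    have : 0 < v' := by omega
    positivity
  obtain ⟨e', ea', eb', es', eo'⟩ := mk (D := D) (u * w - 2 * v' * (2 * s')) (u * s' + v' * w)
    (by linarith) (by
      have : 2 * v' * (2 * s') = 2 * (2 * v' * s') := by ring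
      rw [this]; omega) (by
      rw [hD, h1, h2]; ring)
  refine ⟨e, e', ?_, ?_⟩
  · intro h
    rw [h, ea'] at ea
    rcases abs_choice (u * s' - v' * w) with h3 | h3 <;> rw [h3] at ea <;> omega
  · intro x
    constructor
    · rintro ⟨h3, h4⟩
      have h5 : x.a = x.b := by
        have := congrArg Edge.a h3
        exact this.symm
      have hx : x.h ^ 2 + 4 * x.a * x.a = p * q := by
        have h6 := x.eq
        rw [← h5] at h6
        rw [h6, hD]
      have hxo : x.h % 2 = 1 := by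
        have h6 : (x.h ^ 2) % 2 = 1 := by
          have h7 : x.h ^ 2 = p * q - 2 * (2 * x.a * x.a) := by linarith
          have h8 : (p * q) % 2 = 1 := by
            have hp2 : p % 2 = 1 := by omega
            have hq2 : q % 2 = 1 := by omega
            rw [Int.mul_emod, hp2, hq2]; rfl
          omega
        rcases Int.emod_two_eq_zero_or_one x.h with h7 | h7
        · exfalso
          have : (x.h ^ 2) % 2 = 0 := by
            rw [sq, Int.mul_emod, h7]; rfl
          omega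
        · exact h7
      obtain ⟨α, β, hab, h6⟩ := key p q u (2 * v') x.h (2 * x.a) hp h1 (by rw [← hx]; ring)
      have hαo : α % 2 = 1 := by
        rcases Int.emod_two_eq_zero_or_one α with h7 | h7
        · exfalso
          obtain ⟨α', rfl⟩ : ∃ α', α = 2 * α' := ⟨α / 2, by omega⟩
          rcases h6 with ⟨h6, _⟩ | ⟨h6, _⟩
          · have : x.h = 2 * (u * α' - v' * β) := by rw [h6]; ring
            omega
          · have : x.h = 2 * (u * α' + v' * β) := by rw [h6]; ring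
            omega
        · exact h7
      obtain ⟨h7, h8⟩ := uniq q w (2 * s') α β hq h2 hw2 hs2 hab hαo
      have hxa := x.ha
      have key2 : x.a = |u * s' - v' * w| ∨ x.a = u * s' + v' * w := by
        have h9 : 2 * x.a = 2 * v' * α + u * β ∨ 2 * x.a = -(2 * v') * α + u * β := by
          rcases h6 with ⟨_, h6⟩ | ⟨_, h6⟩
          · exact Or.inl h6
          · exact Or.inr h6
        rcases abs_cases (u * s' - v' * w) with ⟨h10, _⟩ | ⟨h10, _⟩ <;> rw [h10] <;>
        rcases h7 with h7 | h7 <;> rcases h8 with h8 | h8 <;> rcases h9 with h9 | h9 <;>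
        rw [h7, h8] at h9 <;>
        first
          | (left; linarith)
          | (right; linarith)
          | (exfalso; nlinarith)
      rcases key2 with h9 | h9
      · left; exact eqof x e h5 (by rw [ea, eb]) (by rw [ea, h9]) h4 es eo
      · right; exact eqof x e' h5 (by rw [ea', eb']) (by rw [ea', h9]) h4 es' eo'
    · rintro (rfl | rfl)
      · refine ⟨?_, es⟩
        ext
        · show x.b = x.a
          rw [ea, eb]
        · show - -x.h = x.h
          ring
        · show x.a = x.b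
          rw [ea, eb]
      · refine ⟨?_, es'⟩
        ext
        · show x.b = x.a
          rw [ea', eb']
        · show - -x.h = x.h
          ring
        · show x.a = x.b
          rw [ea', eb']

end Pool.Agent.R169.MC.FixE
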