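import Mathlib
import Pool.Agent.R169.MC.Stm

/-!
Project MC (MP_6dddb9_nt): piece GA1.
-/

namespace Pool.Agent.R169.MC.GA1

theorem main : S_GA1 := by
  intro p q k k' m m' h h' T U x y z t x' y' z' t' hp H2 H3 H4 H5 H6 H7 H8 H9 H10 H11 H12 H13 H14
    H15 H16
  obtain ⟨r, hr⟩ : ∃ r : ℤ, q = 4 * r + 1 := ⟨q / 4, by omega⟩
  set s : ℤ := x * y + z * t with hs
  set s' : ℤ := x' * y' + z' * t' with hs'
  have hU : 0 < U := by
    rw [H13]
    rcases eq_or_ne y 0 with h0 | h0
    · have ht : t ≠ 0 := by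
        rintro rfl
        rw [h0] at H5
        simp at H5
      positivity
    · positivity
  have hT : T = U + 2 * s := by rw [H14, H13, hs]
  have hT' : T = p * U + 2 * s' := by rw [H16, H15, hs']
  have hx : x * U = y * s + t := by
    rw [H13, hs]; linear_combination t * H5
  have hz : z * U = t * s - y := by
    rw [H13, hs]; linear_combination (-y) * H5
  have hk : k * U ^ 2 = s ^ 2 + 1 + s * U := by
    rw [hs, H13]
    linear_combination ((x * t - y * z) + 1) * H5 - (y ^ 2 + t ^ 2) * (H7 + H8)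
  have hx' : x' * (p * U) = y' * s' + t' := by
    rw [H15, hs']; linear_combination t' * H6
  have hz' : z' * (p * U) = t' * s' - y' := by
    rw [H15, hs']; linear_combination (-y') * H6
  have hk0 : x' ^ 2 + z' ^ 2 + s' = k' * U := by
    have h1 : p * (x' ^ 2 + z' ^ 2 + s') = p * (k' * U) := by
      rw [hs']
      linear_combination H10 + H11 - k' * H15
    exact mul_left_cancel₀ hp.ne' h1
  have hk' : k' * (p * U ^ 2) = s' ^ 2 + 1 + s' * (p * U) := by
    have h1 : (p * U) * (x' ^ 2 + z' ^ 2) = s' ^ 2 + 1 := by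
      rw [H15, hs']
      linear_combination ((x' * t' - y' * z') + 1) * H6
    linear_combination (-(p * U)) * hk0 + h1
  -- the four values
  have A1 : h * U ^ 2 = (t ^ 2 - y ^ 2) * T - 4 * t * y := by
    have h1 : h * U ^ 2 = 2 * (x * U) * (z * U) + (x * U) * (t * U) + (y * U) * (z * U)
        - 2 * (k * U ^ 2) * (y * t) := by
      rw [H9]; ring
    rw [h1, hx, hz, hk, hT]; ring
  have A2 : m * U ^ 2 = t * y * T + t ^ 2 - y ^ 2 := by
    have h1 : m * U ^ 2 = (x * U) ^ 2 + (x * U) * (y * U) - (k * U ^ 2) * y ^ 2 := by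
      rw [← H7]; ring
    rw [h1, hx, hk, hT]; ring
  have A3 : h' * (p * U ^ 2) = (t' ^ 2 - y' ^ 2) * T - 4 * t' * y' := by
    apply mul_left_cancel₀ hp.ne'
    have h1 : p * (h' * (p * U ^ 2)) = p * (2 * (x' * (p * U)) * (z' * (p * U))
        + (x' * (p * U)) * (t' * (p * U)) + (y' * (p * U)) * (z' * (p * U))
        - 2 * (k' * (p * U ^ 2)) * (y' * t')) := by
      rw [H12]; ring
    rw [h1, hx', hz', hk', hT']; ring
  have A4 : m' * (p * U ^ 2) = t' * y' * T + t' ^ 2 - y' ^ 2 := by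
    apply mul_left_cancel₀ hp.ne'
    have h1 : p * (m' * (p * U ^ 2)) = p * ((x' * (p * U)) ^ 2 + (x' * (p * U)) * (y' * (p * U))
        - (k' * (p * U ^ 2)) * y' ^ 2) := by
      rw [← H10]; ring
    rw [h1, hx', hk', hT']; ring
  -- the two relations
  have R1 : p * U * (2 * x' + y') = 2 * t' + T * y' := by
    rw [hT']; linear_combination 2 * hx'
  have R2 : p * U * ((2 * x' + y') * s + (x' - 2 * r * y') * U) = t' * T - 2 * y' := by
    have h2 : (2 : ℤ) * (p * U * ((2 * x' + y') * s + (x' - 2 * r * y') * U)) =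
        2 * (t' * T - 2 * y') := by
      have e1 : 2 * s = T - U := by rw [hT]; ring
      have e2 : 2 * s' = T - p * U := by rw [hT']; ring
      have e3 : p * U * (2 * s - 4 * r * U) = -(2 * s' * T) - 4 := by
        have e4 : 4 * k' = 4 * r + 1 - p := by linarith
        linear_combination (p * U) * e1 + T * e2 + (T + p * U + 2 * s') * hT' - 4 * hk' +
          (p * U ^ 2) * e4
      linear_combination (-(2 * p * U * x')) * hT + 2 * T * hx' + y' * e3
    exact mul_left_cancel₀ two_ne_zero h2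
  set X : ℤ := z * (2 * x' + y') + t * (x' - 2 * r * y') with hX
  set Y : ℤ := x * (2 * x' + y') + y * (x' - 2 * r * y') with hY
  have B1 : p * X * U ^ 2 = (t * t' - y * y') * T - 2 * (t * y' + y * t') := by
    have h1 : p * X * U ^ 2 = p * U * ((z * U) * (2 * x' + y') + t * U * (x' - 2 * r * y')) := by
      rw [hX]; ring
    rw [h1, hz]
    linear_combination t * R2 - y * R1
  have B2 : p * Y * U ^ 2 = (t * y' + y * t') * T + 2 * (t * t' - y * y') := by
    have h1 : p * Y * U ^ 2 = p * U * ((x * U) * (2 * x' + y') + y * U * (x' - 2 * r * y')) := by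
      rw [hY]; ring
    rw [h1, hx]
    linear_combination y * R2 + t * R1
  have hTU : T ^ 2 + 4 = p * q * U ^ 2 := by
    rw [H2, hT]
    linear_combination (-4) * hk
  refine ⟨X, Y, ?_, ?_⟩
  · have h1 : (p * U ^ 2) ^ 2 * (X ^ 2 + Y ^ 2) = (p * U ^ 2) ^ 2 * q := by
      have h2 : (p * U ^ 2) ^ 2 * (X ^ 2 + Y ^ 2) = (p * X * U ^ 2) ^ 2 + (p * Y * U ^ 2) ^ 2 := by
        ring
      have h3 : (p * X * U ^ 2) ^ 2 + (p * Y * U ^ 2) ^ 2 =
          (y ^ 2 + t ^ 2) * (y' ^ 2 + t' ^ 2) * (T ^ 2 + 4) := by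
        rw [B1, B2]; ring
      rw [h2, h3, ← H13, ← H15, hTU]; ring
    exact mul_left_cancel₀ (pow_ne_zero 2 (mul_pos hp (pow_pos hU 2)).ne') h1
  · have h1 : (p * U ^ 4) * (p * (X ^ 2 - Y ^ 2)) = (p * U ^ 4) * (h * h' - 4 * m * m') := by
      have h2 : (p * U ^ 4) * (p * (X ^ 2 - Y ^ 2)) = (p * X * U ^ 2) ^ 2 - (p * Y * U ^ 2) ^ 2 := by
        ring
      have h3 : (p * U ^ 4) * (h * h' - 4 * m * m') =
          (h * U ^ 2) * (h' * (p * U ^ 2)) - 4 * (m * U ^ 2) * (m' * (p * U ^ 2)) := by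
        ring
      rw [h2, h3, B1, B2, A1, A2, A3, A4]; ring
    exact mul_left_cancel₀ (mul_pos hp (pow_pos hU 4)).ne' h1

end Pool.Agent.R169.MC.GA1
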