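import Pool.Agent.R169.MC.Stm

namespace Pool.Agent.R169.MC.GA2

theorem aux (p q m m' h h' T U x y z t r s : ℤ)
    (hpq : p * q = h ^ 2 + 4 * m ^ 2) (hdet : x * t - y * z = 1)
    (h1 : m * x ^ 2 + h * x * y - m * y ^ 2 = m')
    (h3 : h' = 2 * m * x * z + h * (x * t + y * z) - 2 * m * y * t)
    (h4 : m * U = x * y + z * t) (h5 : T = x ^ 2 + y ^ 2 + z ^ 2 + t ^ 2)
    (h6 : h * U = y ^ 2 + t ^ 2 - x ^ 2 - z ^ 2)
    (h7 : p * r ^ 2 - q * s ^ 2 = 4) (h8 : 2 * T = p * r ^ 2 + q * s ^ 2) (h9 : U = r * s) :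
    ∃ X Y : ℤ, X ^ 2 + Y ^ 2 = q ∧ p * (X ^ 2 - Y ^ 2) = h * h' - 4 * m * m' := by
  have hpar : ∃ c : ℤ, r * h + s * q = 2 * c := by
    rcases Int.even_or_odd' (r * h + s * q) with ⟨c, hc | hc⟩
    · exact ⟨c, hc⟩
    · exfalso
      have k1 : (r * h + s * q) % 2 = 1 := by omega
      have k2 : (p * q) % 2 = (h * h) % 2 := by
        rw [hpq]
        have : h ^ 2 + 4 * m ^ 2 = h * h + 2 * (2 * m ^ 2) := by ring
        omega
      have k3 : (p * (r * r)) % 2 = (q * (s * s)) % 2 := by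
        have : p * (r * r) - q * (s * s) = 4 := by linear_combination h7
        omega
      rcases Int.emod_two_eq_zero_or_one p with ep | ep <;>
      rcases Int.emod_two_eq_zero_or_one q with eq | eq <;>
      rcases Int.emod_two_eq_zero_or_one h with eh | eh <;>
      rcases Int.emod_two_eq_zero_or_one r with er | er <;>
      rcases Int.emod_two_eq_zero_or_one s with es | es <;>
      simp [Int.add_emod, Int.mul_emod, ep, eq, eh, er, es] at k1 k2 k3
  obtain ⟨c, hc⟩ := hpar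
  have e1 : p * r ^ 2 = T + 2 := by linarith
  have e2 : q * s ^ 2 = T - 2 := by linarith
  refine ⟨x * c - y * (m * r), x * (m * r) + y * (c - s * q), ?_, ?_⟩
  · have key : (x * (r * h + s * q) - 2 * y * (m * r)) ^ 2
        + (2 * x * (m * r) + y * (r * h - s * q)) ^ 2 = 4 * q := by
      linear_combination (-(x^2+y^2)*r^2)*hpq - q*(x^2+y^2)*h8
        - q*(2*h*(x^2-y^2) - 8*x*y*m)*h9 - 8*x*y*q*h4 + 2*q*(x^2-y^2)*h6
        + 2*q*(x^2+y^2)*h5 + 4*q*(x*t-y*z+1)*hdet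
    have a1 : x * (r * h + s * q) - 2 * y * (m * r) = 2 * (x * c - y * (m * r)) := by
      linear_combination x * hc
    have a2 : 2 * x * (m * r) + y * (r * h - s * q) = 2 * (x * (m * r) + y * (c - s * q)) := by
      linear_combination y * hc
    rw [a1, a2] at key
    linarith
  · have a1 : x * (r * h + s * q) - 2 * y * (m * r) = 2 * (x * c - y * (m * r)) := by
      linear_combination x * hc
    have a2 : 2 * x * (m * r) + y * (r * h - s * q) = 2 * (x * (m * r) + y * (c - s * q)) := by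
      linear_combination y * hc
    have s1 : p * ((x * (r * h + s * q) - 2 * y * (m * r)) ^ 2
        - (2 * x * (m * r) + y * (r * h - s * q)) ^ 2)
        = (x^2-y^2) * ((p * r^2) * (h^2-4*m^2) + (q*s^2) * (p*q)) + 2*(r*s)*h*(p*q)*(x^2+y^2)
          - 8*x*y*m*h*(p*r^2) := by ring
    rw [e1, e2, ← h9, hpq] at s1
    have s2 : (x^2-y^2) * ((T+2) * (h^2-4*m^2) + (T-2) * (h^2+4*m^2))
          + 2*U*h*(h^2+4*m^2)*(x^2+y^2) - 8*x*y*m*h*(T+2)
        = 4 * (h * h' - 4 * m * m') := by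
      rw [h3, ← h1]
      have s3 : (x^2-y^2) * ((T+2) * (h^2-4*m^2) + (T-2) * (h^2+4*m^2))
          + 2*U*h*(h^2+4*m^2)*(x^2+y^2) - 8*x*y*m*h*(T+2)
          = (x^2-y^2) * (2*T*h^2 - 16*m^2) + 2*(h*U)*h^2*(x^2+y^2) + 8*m*h*(m*U)*(x^2+y^2)
            - 8*x*y*m*h*(T+2) := by ring
      rw [s3, h6, h4, h5]
      linear_combination (4*h^2*(x*t+y*z) + 8*m*h*(x*z-y*t)) * hdet
    rw [s2, a1, a2] at s1
    linarith

theorem main : S_GA2 := by
  intro p q m m' h h' T U x y z t r s δ _ _ _ hpq _ hdet h1 _ h3 h4 h5 h6 h7 h8 h9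
  refine ⟨fun hδ => ?_, fun hδ => ?_⟩
  · exact aux p q m m' h h' T U x y z t r s hpq hdet h1 h3 h4 h5 h6
      (by rw [h7, hδ]; norm_num) h8 h9
  · exact aux q p m m' h h' T U x y z t s r (by linarith [mul_comm p q]) hdet h1 h3 h4 h5 h6
      (by linarith) (by linarith) (by rw [h9, mul_comm])

end Pool.Agent.R169.MC.GA2
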