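import Pool.Agent.R169.MC.Stm2

/-!
# Final congruence from the pieces
-/

namespace Pool.Agent.R169.MC.Main
open Finset Function Pool.Agent.R169.MC Dyn

theorem card_Xs {D : ℤ} (hD : D % 4 = 1) [Finite (Edge D)] :
    Nat.card (Edge D) = 2 * Nat.card (Xs D) := by
  classical
  haveI : Finite (Xs D) := Subtype.finite
  have e : Edge D ≃ Xs D × Bool :=
    { toFun := fun e => if h : sg e = 0 then (⟨e, h⟩, false) else (⟨rh e, by
        rw [sg_rh hD]
        have : ∀ x : ZMod 2, x ≠ 0 → x + 1 = 0 := by decide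
        exact this _ h⟩, true)
      invFun := fun x => if x.2 then rh x.1.1 else x.1.1
      left_inv := by
        intro e
        by_cases h : sg e = 0
        · simp only [h, dif_pos]; rfl
        · simp only [h, dif_neg, not_false_eq_true]
          show rh (rh e) = e
          exact rh_rh e
      right_inv := by
        rintro ⟨x, b⟩
        cases b with
        | false =>
          have h : sg x.1 = 0 := x.2
          show (if h : sg x.1 = 0 then ((⟨x.1, h⟩ : Xs D), false) else _) = _
          rw [dif_pos h]; rfl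
        | true =>
          have h : ¬ sg (rh x.1) = 0 := by
            rw [sg_rh hD, x.2]; decide
          show (if h : sg (rh x.1) = 0 then ((⟨rh x.1, h⟩ : Xs D), false) else _) = _
          rw [dif_neg h]
          congr 1
          apply Subtype.ext
          exact rh_rh x.1 }
  rw [Nat.card_congr e, Nat.card_prod, Nat.card_eq_fintype_card (α := Bool), Fintype.card_bool,
    mul_comm]

theorem ns_of {p q D : ℤ} (h : PQ p q D) : ∀ n : ℤ, n ^ 2 ≠ D := by
  intro n hn
  have h1 : p ∣ n := by
    apply h.hp.dvd_of_dvd_pow (n := 2)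
    rw [hn, h.hD]; exact dvd_mul_right _ _
  obtain ⟨m, rfl⟩ := h1
  have h2 : p * m ^ 2 = q := by
    have h3 : p * (p * m ^ 2) = p * q := by rw [← h.hD, ← hn]; ring
    exact mul_left_cancel₀ h.hp.ne_zero h3
  have h3 : p ∣ q := ⟨m ^ 2, h2.symm⟩
  have h4 : Associated p q := h.hp.associated_of_dvd h.hq h3
  rcases Int.associated_iff.1 h4 with h5 | h5
  · have := h.hlt; omega
  · have := h.hlt; have := h.p0; omega

theorem main (hB : S_BIJ) (hF : S_FIN) (hO : S_ODD) (hE : S_EVEN) : S_MAIN := by
  intro p q a b c d hp hq hpq hp4 hq4 ha hab hpab hc hcd hqcd hpar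
  have hPQ : PQ (p : ℤ) (q : ℤ) ((p : ℤ) * q) :=
    ⟨Nat.prime_iff_prime_int.1 hp, Nat.prime_iff_prime_int.1 hq, by exact_mod_cast hp.pos,
      by exact_mod_cast hpq, by omega, by omega, rfl⟩
  haveI : NS ((p : ℤ) * q) := ⟨ns_of hPQ⟩
  haveI := hF ((p : ℤ) * q)
  have hD : ((p : ℤ) * q) % 4 = 1 := by
    rw [Int.mul_emod]
    have h1 : (p : ℤ) % 4 = 1 := by omega
    have h2 : (q : ℤ) % 4 = 1 := by omega
    rw [h1, h2]; norm_num
  have hts : TS (p : ℤ) q a b c d :=
    ⟨by exact_mod_cast ha, by exact_mod_cast hab, by exact_mod_cast hpab, by exact_mod_cast hc,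
      by exact_mod_cast hcd, by exact_mod_cast hqcd, by omega⟩
  have hk : kap ((p : ℤ) * q) = Nat.card (Xs ((p : ℤ) * q)) := by
    have h1 := hB p q _ hPQ
    rw [card_Xs hD] at h1
    omega
  rw [hk]
  have hna : (p : ℤ).natAbs = p := Int.natAbs_natCast p
  by_cases hex : ∃ (e : Edge ((p : ℤ) * q)) (n : ℕ), F^[n] e = al e
  · have h := hO p q _ a b c d hPQ hD hts hex
    rw [hna] at h
    rcases Nat.even_or_odd a with h1 | h1
    · have h2 := h.1 (by have := Nat.even_iff.1 h1; omega)
      rw [h1.neg_one_pow, one_mul]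
      exact h2
    · have h2 := h.2 (by have := Nat.odd_iff.1 h1; omega)
      rw [h1.neg_one_pow]
      have e : (1 : ℤ) - -1 * jacobiSym q p = 1 + jacobiSym q p := by ring
      rw [e]
      exact h2
  · obtain ⟨hJ, h⟩ := hE p q _ a b c d hPQ hD hts hex
    rw [hna] at hJ
    rw [hJ]
    rcases Nat.even_or_odd a with h1 | h1
    · have h2 := h.1 (by have := Nat.even_iff.1 h1; omega)
      rw [h1.neg_one_pow]
      simpa using h2
    · have h2 := h.2 (by have := Nat.odd_iff.1 h1; omega)
      rw [h1.neg_one_pow]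
      norm_num
      exact h2

end Pool.Agent.R169.MC.Main
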