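import Pool.Agent.R169.MC.Stm

namespace Pool.Agent.R169.MC.Nei
open Pool.Agent.R169.MC Function

variable {D : ℤ}

theorem dc {r a b : ℤ} (h : r ∣ a) (e : b = a) : r ∣ b := e ▸ h

/-! ### the dynamics -/

theorem al_rh_inj (e e' : Edge D) (h : al (rh e) = al (rh e')) : e = e' := by
  have h1 : e.b = e'.b := congrArg Edge.a h
  have h2 : e.a = e'.a := congrArg Edge.b h
  have h3 : - -e.h = - -e'.h := congrArg Edge.h h
  ext
  · exact h2
  · linarith
  · exact h1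

theorem F_rev [NS D] (e : Edge D) : F (al (rh (F e))) = al (rh e) := by
  by_cases h : 0 < e.a + e.h - e.b
  · have h1 : F e = ⟨e.a + e.h - e.b, e.h - 2 * e.b, e.b, h, e.hb, by linear_combination e.eq⟩ := by
      unfold F; rw [dif_pos h]
    have ha : (al (rh (F e))).a = e.b := by rw [h1]; rfl
    have hb : (al (rh (F e))).b = e.a + e.h - e.b := by rw [h1]; rfl
    have hh : (al (rh (F e))).h = e.h - 2 * e.b := by
      rw [h1]; show - -(e.h - 2 * e.b) = _; ring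
    have hn : ¬ 0 < (al (rh (F e))).a + (al (rh (F e))).h - (al (rh (F e))).b := by
      rw [ha, hb, hh]; have := e.ha; linarith
    generalize al (rh (F e)) = x at *
    unfold F
    rw [dif_neg hn]
    ext
    · show x.a = e.b; exact ha
    · show x.h + 2 * x.a = - -e.h; rw [ha, hh]; ring
    · show x.b - x.a - x.h = e.a; rw [ha, hb, hh]; ring
  · have h1 : (F e).a = e.a ∧ (F e).h = e.h + 2 * e.a ∧ (F e).b = e.b - e.a - e.h := by
      unfold F; rw [dif_neg h]; exact ⟨rfl, rfl, rfl⟩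
    obtain ⟨h1, h2, h3⟩ := h1
    have ha : (al (rh (F e))).a = e.b - e.a - e.h := by rw [← h3]; rfl
    have hb : (al (rh (F e))).b = e.a := by rw [← h1]; rfl
    have hh : (al (rh (F e))).h = e.h + 2 * e.a := by
      rw [← h2]; show - -((F e).h) = _; ring
    have hn : 0 < (al (rh (F e))).a + (al (rh (F e))).h - (al (rh (F e))).b := by
      rw [ha, hb, hh]; have := e.hb; linarith
    generalize al (rh (F e)) = x at *
    unfold F
    rw [dif_pos hn]
    ext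
    · show x.a + x.h - x.b = e.b; rw [ha, hb, hh]; ring
    · show x.h - 2 * x.b = - -e.h; rw [hb, hh]; ring
    · show x.b = e.a; exact hb

theorem F_inj [NS D] : Injective (F (D := D)) := by
  intro e e' h
  apply al_rh_inj
  rw [← F_rev e, ← F_rev e', h]

theorem fin : Finite (Edge D) := by
  have hb : ∀ e : Edge D, (e.a, e.h, e.b) ∈ (Set.Icc (0 : ℤ) D ×ˢ (Set.Icc (-D) D ×ˢ Set.Icc (0 : ℤ) D)) := by
    intro e
    have h1 := e.ha
    have h2 := e.hb
    have h3 := e.eq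
    have h4 : 1 ≤ e.a := h1
    have h5 : 1 ≤ e.b := h2
    refine ⟨⟨h1.le, ?_⟩, ⟨?_, ?_⟩, ⟨h2.le, ?_⟩⟩
    · show e.a ≤ D; nlinarith [sq_nonneg e.h]
    · show -D ≤ e.h; nlinarith [sq_nonneg (e.h + 1), mul_pos h1 h2]
    · show e.h ≤ D; nlinarith [sq_nonneg (e.h - 1), mul_pos h1 h2]
    · show e.b ≤ D; nlinarith [sq_nonneg e.h]
  have hf : Set.Finite (Set.Icc (0 : ℤ) D ×ˢ (Set.Icc (-D) D ×ˢ Set.Icc (0 : ℤ) D)) :=
    (Set.finite_Icc _ _).prod ((Set.finite_Icc _ _).prod (Set.finite_Icc _ _))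
  have : Finite (Set.Icc (0 : ℤ) D ×ˢ (Set.Icc (-D) D ×ˢ Set.Icc (0 : ℤ) D) : Set _) := hf
  refine Finite.of_injective (β := (Set.Icc (0 : ℤ) D ×ˢ (Set.Icc (-D) D ×ˢ Set.Icc (0 : ℤ) D) : Set _))
    (fun e => ⟨(e.a, e.h, e.b), hb e⟩) ?_
  intro e e' h
  have h1 : (e.a, e.h, e.b) = (e'.a, e'.h, e'.b) := congrArg Subtype.val h
  simp only [Prod.mk.injEq] at h1
  ext
  · exact h1.1
  · exact h1.2.1
  · exact h1.2.2

theorem cyc_symm [NS D] (e e' : Edge D) (h : ∃ n : ℕ, F^[n] e = e') : ∃ n : ℕ, F^[n] e' = e := by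
  have := fin (D := D)
  obtain ⟨n, hn⟩ := h
  obtain ⟨k, hk, hk2⟩ := F_inj.mem_periodicPts e
  have h1 : F^[k * n] e = e := by
    have h2 : IsPeriodicPt F k e := hk2
    exact (h2.mul_const n)
  refine ⟨k * n - n, ?_⟩
  have h3 : n ≤ k * n := by nlinarith
  rw [← hn, ← iterate_add_apply, Nat.sub_add_cancel h3, h1]

theorem rel_one (e : Edge D) : Rel e Mt.one e := by
  refine ⟨?_, ?_, ?_⟩ <;> simp [Mt.one, val, pol]

theorem rel_comp (e e' e'' : Edge D) (W V : Mt) (h : Rel e W e') (h' : Rel e' V e'') :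
    Rel e (W.mul V) e'' := by
  obtain ⟨h1, h2, h3⟩ := h
  obtain ⟨k1, k2, k3⟩ := h'
  unfold val pol at *
  refine ⟨?_, ?_, ?_⟩ <;> (try unfold val) <;> (try unfold pol) <;> simp only [Mt.mul]
  · rw [k1, h1, h2, h3]; ring
  · rw [k2, h1, h2, h3]; ring
  · rw [k3, h1, h2, h3]; ring

theorem det_mul (W V : Mt) : (W.mul V).det = W.det * V.det := by
  unfold Mt.det Mt.mul; ring

theorem F_rel [NS D] (e : Edge D) : ∃ W : Mt, W.det = 1 ∧ Rel e W (F e) := by
  by_cases h : 0 < e.a + e.h - e.b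
  · refine ⟨⟨1, 1, 0, 1⟩, by norm_num [Mt.det], ?_⟩
    unfold F; rw [dif_pos h]
    refine ⟨?_, ?_, ?_⟩ <;> (try unfold val) <;> (try unfold pol)
    all_goals (simp only; ring)
  · refine ⟨⟨1, 0, 1, 1⟩, by norm_num [Mt.det], ?_⟩
    unfold F; rw [dif_neg h]
    refine ⟨?_, ?_, ?_⟩ <;> (try unfold val) <;> (try unfold pol)
    all_goals (simp only; ring)

theorem iter_rel [NS D] (e : Edge D) (n : ℕ) : ∃ W : Mt, W.det = 1 ∧ Rel e W (F^[n] e) := by
  induction n with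
  | zero => exact ⟨Mt.one, by norm_num [Mt.det, Mt.one], rel_one e⟩
  | succ n ih =>
    obtain ⟨W, h1, h2⟩ := ih
    obtain ⟨V, h3, h4⟩ := F_rel (F^[n] e)
    refine ⟨W.mul V, by rw [det_mul, h1, h3]; rfl, ?_⟩
    rw [iterate_succ_apply']
    exact rel_comp _ _ _ _ _ h2 h4

/-! ### neighbours -/

structure Nb (r g : ℤ) (e : Edge D) (M : Mt) (A B C : ℤ) : Prop where
  det : M.x * M.t - M.y * M.z = r
  c1 : r ∣ 2 * e.a * M.x + (e.h - g) * M.y
  c2 : r ∣ (e.h + g) * M.x - 2 * e.b * M.y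
  c3 : r ∣ 2 * e.a * M.z + (e.h - g) * M.t
  c4 : r ∣ (e.h + g) * M.z - 2 * e.b * M.t
  hA : r * A = val e M.x M.y
  hB : r * B = pol e M.x M.y M.z M.t
  hC : r * C = val e M.z M.t

theorem Nb.comp {r g : ℤ} {e : Edge D} {M : Mt} {A B C : ℤ} (N : Nb r g e M A B C) (W : Mt)
    (hW : W.det = 1) : Nb r g e (M.mul W) (A * W.x ^ 2 + B * W.x * W.y + C * W.y ^ 2)
      (2 * A * W.x * W.z + B * (W.x * W.t + W.y * W.z) + 2 * C * W.y * W.t)
      (A * W.z ^ 2 + B * W.z * W.t + C * W.t ^ 2) := by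
  obtain ⟨d, c1, c2, c3, c4, hA, hB, hC⟩ := N
  unfold Mt.det at hW
  unfold val at hA hC
  unfold pol at hB
  constructor
  · simp only [Mt.mul]; linear_combination (W.x * W.t - W.y * W.z) * d + r * hW
  · have h := dvd_add (Dvd.dvd.mul_left c1 W.x) (Dvd.dvd.mul_left c3 W.y)
    exact dc h (by simp only [Mt.mul]; ring)
  · have h := dvd_add (Dvd.dvd.mul_left c2 W.x) (Dvd.dvd.mul_left c4 W.y)
    exact dc h (by simp only [Mt.mul]; ring)
  · have h := dvd_add (Dvd.dvd.mul_left c1 W.z) (Dvd.dvd.mul_left c3 W.t)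
    exact dc h (by simp only [Mt.mul]; ring)
  · have h := dvd_add (Dvd.dvd.mul_left c2 W.z) (Dvd.dvd.mul_left c4 W.t)
    exact dc h (by simp only [Mt.mul]; ring)
  · unfold val; simp only [Mt.mul]
    linear_combination W.x ^ 2 * hA + W.x * W.y * hB + W.y ^ 2 * hC
  · unfold pol; simp only [Mt.mul]
    linear_combination 2 * W.x * W.z * hA + (W.x * W.t + W.y * W.z) * hB + 2 * W.y * W.t * hC
  · unfold val; simp only [Mt.mul]
    linear_combination W.z ^ 2 * hA + W.z * W.t * hB + W.t ^ 2 * hC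

theorem Nb.of {r g : ℤ} (hr : Prime r) (hr2 : ¬ r ∣ 2) (e : Edge D) (M : Mt)
    (det : M.x * M.t - M.y * M.z = r)
    (c1 : r ∣ 2 * e.a * M.x + (e.h - g) * M.y)
    (c2 : r ∣ (e.h + g) * M.x - 2 * e.b * M.y)
    (c3 : r ∣ 2 * e.a * M.z + (e.h - g) * M.t)
    (c4 : r ∣ (e.h + g) * M.z - 2 * e.b * M.t) : ∃ A B C : ℤ, Nb r g e M A B C := by
  have h1 : r ∣ val e M.x M.y := by
    have h : r ∣ 2 * val e M.x M.y := by
      have h := dvd_add (Dvd.dvd.mul_left c1 M.x) (Dvd.dvd.mul_left c2 M.y)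
      exact dc h (by unfold val; ring)
    exact (hr.dvd_or_dvd h).resolve_left hr2
  have h2 : r ∣ val e M.z M.t := by
    have h : r ∣ 2 * val e M.z M.t := by
      have h := dvd_add (Dvd.dvd.mul_left c3 M.z) (Dvd.dvd.mul_left c4 M.t)
      exact dc h (by unfold val; ring)
    exact (hr.dvd_or_dvd h).resolve_left hr2
  have h3 : r ∣ pol e M.x M.y M.z M.t := by
    have h := dvd_add (dvd_add (Dvd.dvd.mul_left c3 M.x) (Dvd.dvd.mul_left c4 M.y))
      (Dvd.intro g rfl)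
    exact dc h (by unfold pol; linear_combination g * det)
  obtain ⟨A, hA⟩ := h1
  obtain ⟨B, hB⟩ := h3
  obtain ⟨C, hC⟩ := h2
  exact ⟨A, B, C, det, c1, c2, c3, c4, hA.symm, hB.symm, hC.symm⟩

theorem solve {r : ℤ} (hr : Prime r) (α β : ℤ) (h : ¬ r ∣ α) : ∃ k : ℤ, r ∣ α * k + β := by
  have h1 : IsCoprime r α := (Prime.coprime_iff_not_dvd hr).2 h
  obtain ⟨u, v, huv⟩ := h1
  refine ⟨-v * β, ⟨u * β, ?_⟩⟩
  linear_combination (-β) * huv

theorem exists_nb {r g : ℤ} (hr : Prime r) (hr2 : ¬ r ∣ 2) (hrD : ¬ r ∣ D)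
    (hg : 4 * r ∣ g ^ 2 - D) (e : Edge D) : ∃ (M : Mt) (A B C : ℤ), Nb r g e M A B C := by
  have hgr : r ∣ g ^ 2 - D := dvd_trans (Dvd.intro_left 4 rfl) hg
  have hrg : ¬ r ∣ g := by
    intro h
    apply hrD
    have : D = g * g - (g ^ 2 - D) := by ring
    rw [this]
    exact dvd_sub (Dvd.dvd.mul_left h g) hgr
  have he := e.eq
  have hprod : r ∣ (e.h - g) * (e.h + g) + 2 * e.a * (2 * e.b) := by
    have : (e.h - g) * (e.h + g) + 2 * e.a * (2 * e.b) = -(g ^ 2 - D) := by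
      linear_combination he
    rw [this]; exact (dvd_neg).2 hgr
  by_cases ha : r ∣ e.a
  · have h1 : r ∣ (e.h - g) * (e.h + g) := by
      have h2 : r ∣ 2 * e.a * (2 * e.b) := by
        have : 2 * e.a * (2 * e.b) = e.a * (4 * e.b) := by ring
        rw [this]; exact Dvd.dvd.mul_right ha _
      exact (dvd_add_left h2).1 hprod
    rcases hr.dvd_or_dvd h1 with h2 | h2
    · have h3 : ¬ r ∣ e.h + g := by
        intro h3
        have h4 : r ∣ 2 * g := by
          have h5 := dvd_sub h3 h2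
          have : e.h + g - (e.h - g) = 2 * g := by ring
          rwa [this] at h5
        rcases hr.dvd_or_dvd h4 with h5 | h5
        · exact hr2 h5
        · exact hrg h5
      obtain ⟨k, hk⟩ := solve hr (e.h + g) (-2 * e.b) h3
      obtain ⟨A, B, C, N⟩ := Nb.of (g := g) hr hr2 e ⟨r, 0, k, 1⟩ (by simp) (by simp [mul_comm])
        (by simp) (by
          simp only
          refine dvd_add ?_ ?_
          · have : 2 * e.a * k = e.a * (2 * k) := by ring
            rw [this]; exact Dvd.dvd.mul_right ha _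
          · simpa using h2) (by
          simp only
          exact dc hk (by ring))
      exact ⟨_, A, B, C, N⟩
    · obtain ⟨A, B, C, N⟩ := Nb.of (g := g) hr hr2 e ⟨1, 0, 0, r⟩ (by simp) (by
          simp only
          have : 2 * e.a * 1 + (e.h - g) * 0 = e.a * 2 := by ring
          rw [this]; exact Dvd.dvd.mul_right ha _)
        (by simpa using h2) (by simp) (by
          simp only
          have : (e.h + g) * 0 - 2 * e.b * r = r * (-2 * e.b) := by ring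
          rw [this]; exact dvd_mul_right _ _)
      exact ⟨_, A, B, C, N⟩
  · have h3 : ¬ r ∣ 2 * e.a := by
      intro h
      rcases hr.dvd_or_dvd h with h5 | h5
      · exact hr2 h5
      · exact ha h5
    obtain ⟨k, hk⟩ := solve hr (2 * e.a) (e.h - g) h3
    have hk2 : r ∣ (e.h + g) * k - 2 * e.b := by
      have h4 : r ∣ 2 * e.a * ((e.h + g) * k - 2 * e.b) := by
        have : 2 * e.a * ((e.h + g) * k - 2 * e.b) =
          (e.h + g) * (2 * e.a * k + (e.h - g)) - ((e.h - g) * (e.h + g) + 2 * e.a * (2 * e.b)) := by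
          ring
        rw [this]
        exact dvd_sub (Dvd.dvd.mul_left hk _) hprod
      exact (hr.dvd_or_dvd h4).resolve_left h3
    obtain ⟨A, B, C, N⟩ := Nb.of (g := g) hr hr2 e ⟨r, 0, k, 1⟩ (by simp) (by simp [mul_comm])
        (by simp) (by
          simp only
          exact dc hk (by ring)) (by
          simp only
          exact dc hk2 (by ring))
    exact ⟨_, A, B, C, N⟩

theorem Nb.adj {r g : ℤ} (hr0 : r ≠ 0) {e : Edge D} {M : Mt} {A B C : ℤ} (N : Nb r g e M A B C) :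
    r ∣ 2 * A * M.t - (B + g) * M.y ∧ r ∣ (B - g) * M.t - 2 * C * M.y ∧
    r ∣ -2 * A * M.z + (B + g) * M.x ∧ r ∣ -(B - g) * M.z + 2 * C * M.x := by
  obtain ⟨d, c1, c2, c3, c4, hA, hB, hC⟩ := N
  obtain ⟨K1, h1⟩ := c1
  obtain ⟨K2, h2⟩ := c2
  obtain ⟨K3, h3⟩ := c3
  obtain ⟨K4, h4⟩ := c4
  unfold val at hA hC
  unfold pol at hB
  have e1 : M.x * K1 + M.y * K2 = 2 * A := by
    apply mul_left_cancel₀ hr0
    linear_combination (-M.x) * h1 - M.y * h2 - 2 * hA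
  have e2 : M.x * K3 + M.y * K4 = B - g := by
    apply mul_left_cancel₀ hr0
    linear_combination (-M.x) * h3 - M.y * h4 - hB - g * d
  have e3 : M.z * K1 + M.t * K2 = B + g := by
    apply mul_left_cancel₀ hr0
    linear_combination (-M.z) * h1 - M.t * h2 - hB + g * d
  have e4 : M.z * K3 + M.t * K4 = 2 * C := by
    apply mul_left_cancel₀ hr0
    linear_combination (-M.z) * h3 - M.t * h4 - 2 * hC
  refine ⟨⟨K1, ?_⟩, ⟨K3, ?_⟩, ⟨K2, ?_⟩, ⟨K4, ?_⟩⟩
  · linear_combination (-M.t) * e1 + M.y * e3 + K1 * d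
  · linear_combination (-M.t) * e2 + M.y * e4 + K3 * d
  · linear_combination M.z * e1 - M.x * e3 + K2 * d
  · linear_combination M.z * e2 - M.x * e4 + K4 * d

theorem dets {r : ℤ} (hr : Prime r) (α β x y x' y' : ℤ) (h : ¬ (r ∣ α ∧ r ∣ β))
    (h1 : r ∣ α * x + β * y) (h2 : r ∣ α * x' + β * y') : r ∣ x * y' - x' * y := by
  have h3 : r ∣ α * (x * y' - x' * y) := by
    have h := dvd_sub (Dvd.dvd.mul_left h1 y') (Dvd.dvd.mul_left h2 y)
    exact dc h (by ring)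
  have h4 : r ∣ β * (x * y' - x' * y) := by
    have h := dvd_sub (Dvd.dvd.mul_left h2 x) (Dvd.dvd.mul_left h1 x')
    exact dc h (by ring)
  by_contra hc
  exact h ⟨(hr.dvd_or_dvd h3).resolve_right hc, (hr.dvd_or_dvd h4).resolve_right hc⟩

theorem Nb.inj {r g : ℤ} (hr : Prime r) (hr2 : ¬ r ∣ 2) (hrg : ¬ r ∣ g) {e e' : Edge D} {M M' : Mt}
    {A B C : ℤ} (N : Nb r g e M A B C) (N' : Nb r g e' M' A B C) :
    ∃ P : Mt, P.det = 1 ∧ Rel e P e' := by
  have hr0 : r ≠ 0 := hr.ne_zero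
  obtain ⟨a1, a2, a3, a4⟩ := N.adj hr0
  obtain ⟨b1, b2, b3, b4⟩ := N'.adj hr0
  obtain ⟨α, β, hab, x1, x2, y1, y2⟩ : ∃ α β : ℤ, ¬ (r ∣ α ∧ r ∣ β) ∧
      (r ∣ α * M.t + β * (-M.y)) ∧ (r ∣ α * (-M.z) + β * M.x) ∧
      (r ∣ α * M'.t + β * (-M'.y)) ∧ (r ∣ α * (-M'.z) + β * M'.x) := by
    by_cases hB : r ∣ B + g
    · refine ⟨B - g, 2 * C, ?_, ?_, ?_, ?_, ?_⟩
      · rintro ⟨h1, _⟩
        have h5 := dvd_sub hB h1
        have h6 : B + g - (B - g) = 2 * g := by ring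
        rw [h6] at h5
        rcases hr.dvd_or_dvd h5 with h5 | h5
        · exact hr2 h5
        · exact hrg h5
      · exact dc a2 (by ring)
      · exact dc a4 (by ring)
      · exact dc b2 (by ring)
      · exact dc b4 (by ring)
    · refine ⟨2 * A, B + g, fun h => hB h.2, ?_, ?_, ?_, ?_⟩
      · exact dc a1 (by ring)
      · exact dc a3 (by ring)
      · exact dc b1 (by ring)
      · exact dc b3 (by ring)
  obtain ⟨Py, hPy⟩ := dets hr α β _ _ _ _ hab x1 y1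
  obtain ⟨Pt, hPt⟩ := dets hr α β _ _ _ _ hab x1 y2
  obtain ⟨Px, hPx⟩ := dets hr α β _ _ _ _ hab x2 y1
  obtain ⟨Pz, hPz⟩ := dets hr α β _ _ _ _ hab x2 y2
  -- hPy : M.t * -M'.y - M'.t * -M.y = r * Py
  have hy : r * Py = M.y * M'.t - M.t * M'.y := by linear_combination -hPy
  have ht : r * Pt = M.t * M'.x - M.y * M'.z := by linear_combination -hPt
  have hx : r * (-Px) = M.x * M'.t - M.z * M'.y := by linear_combination hPx
  have hz : r * (-Pz) = M.z * M'.x - M.x * M'.z := by linear_combination hPz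
  obtain ⟨d, -, -, -, -, hA, hB, hC⟩ := N
  obtain ⟨d', -, -, -, -, hA', hB', hC'⟩ := N'
  generalize -Px = Qx at *
  generalize -Pz = Qz at *
  have hr2' : r ^ 2 ≠ 0 := pow_ne_zero 2 hr0
  have hdet : Qx * Pt - Py * Qz = 1 := by
    apply mul_left_cancel₀ hr2'
    have : r ^ 2 * (Qx * Pt - Py * Qz) = (r * Qx) * (r * Pt) - (r * Py) * (r * Qz) := by ring
    rw [this, hx, ht, hy, hz]
    have : (M.x * M'.t - M.z * M'.y) * (M.t * M'.x - M.y * M'.z) -
      (M.y * M'.t - M.t * M'.y) * (M.z * M'.x - M.x * M'.z) =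
      (M.x * M.t - M.y * M.z) * (M'.x * M'.t - M'.y * M'.z) := by ring
    rw [this, d, d']; ring
  unfold val at hA hC hA' hC'
  unfold pol at hB hB'
  refine ⟨⟨Qx, Py, Qz, Pt⟩, hdet, ?_, ?_, ?_⟩
  · show e'.a = val e Qx Py
    apply mul_left_cancel₀ hr2'
    have h1 : r ^ 2 * val e Qx Py = e.a * (r * Qx) ^ 2 + e.h * (r * Qx) * (r * Py)
      - e.b * (r * Py) ^ 2 := by unfold val; ring
    rw [h1, hx, hy]
    have h2 : e.a * (M.x * M'.t - M.z * M'.y) ^ 2 +
        e.h * (M.x * M'.t - M.z * M'.y) * (M.y * M'.t - M.t * M'.y) -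
      e.b * (M.y * M'.t - M.t * M'.y) ^ 2 =
      (e.a * M.x ^ 2 + e.h * M.x * M.y - e.b * M.y ^ 2) * M'.t ^ 2
      - (2 * e.a * M.x * M.z + e.h * (M.x * M.t + M.y * M.z) - 2 * e.b * M.y * M.t) * (M'.t * M'.y)
      + (e.a * M.z ^ 2 + e.h * M.z * M.t - e.b * M.t ^ 2) * M'.y ^ 2 := by ring
    rw [h2, ← hA, ← hB, ← hC, hA', hB', hC', ← d']
    ring
  · show e'.h = pol e Qx Py Qz Pt
    apply mul_left_cancel₀ hr2'
    have h1 : r ^ 2 * pol e Qx Py Qz Pt = 2 * e.a * (r * Qx) * (r * Qz) +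
      e.h * ((r * Qx) * (r * Pt) + (r * Py) * (r * Qz))
      - 2 * e.b * (r * Py) * (r * Pt) := by unfold pol; ring
    rw [h1, hx, hy, hz, ht]
    have h2 : 2 * e.a * (M.x * M'.t - M.z * M'.y) * (M.z * M'.x - M.x * M'.z) +
        e.h * ((M.x * M'.t - M.z * M'.y) * (M.t * M'.x - M.y * M'.z) +
          (M.y * M'.t - M.t * M'.y) * (M.z * M'.x - M.x * M'.z)) -
      2 * e.b * (M.y * M'.t - M.t * M'.y) * (M.t * M'.x - M.y * M'.z) =
      -2 * (e.a * M.x ^ 2 + e.h * M.x * M.y - e.b * M.y ^ 2) * (M'.t * M'.z)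
      + (2 * e.a * M.x * M.z + e.h * (M.x * M.t + M.y * M.z) - 2 * e.b * M.y * M.t) *
        (M'.t * M'.x + M'.y * M'.z)
      - 2 * (e.a * M.z ^ 2 + e.h * M.z * M.t - e.b * M.t ^ 2) * (M'.x * M'.y) := by ring
    rw [h2, ← hA, ← hB, ← hC, hA', hB', hC', ← d']
    ring
  · show e'.b = - val e Qz Pt
    apply mul_left_cancel₀ hr2'
    have h1 : r ^ 2 * (- val e Qz Pt) = -(e.a * (r * Qz) ^ 2 + e.h * (r * Qz) * (r * Pt)
      - e.b * (r * Pt) ^ 2) := by unfold val; ring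
    rw [h1, hz, ht]
    have h2 : -(e.a * (M.z * M'.x - M.x * M'.z) ^ 2 +
        e.h * (M.z * M'.x - M.x * M'.z) * (M.t * M'.x - M.y * M'.z) -
      e.b * (M.t * M'.x - M.y * M'.z) ^ 2) =
      -((e.a * M.x ^ 2 + e.h * M.x * M.y - e.b * M.y ^ 2) * M'.z ^ 2
      - (2 * e.a * M.x * M.z + e.h * (M.x * M.t + M.y * M.z) - 2 * e.b * M.y * M.t) * (M'.x * M'.z)
      + (e.a * M.z ^ 2 + e.h * M.z * M.t - e.b * M.t ^ 2) * M'.x ^ 2) := by ring
    rw [h2, ← hA, ← hB, ← hC, hA', hB', hC', ← d']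
    ring

/-! ### the genus -/

section genus

variable {p : ℤ}

theorem cast_ne {P : ℕ} [Fact P.Prime] {a : ℤ} : ((a : ℤ) : ZMod P) ≠ 0 ↔ ¬ (P : ℤ) ∣ a := by
  rw [ne_eq, ZMod.intCast_zmod_eq_zero_iff_dvd]

theorem leg_eq {P : ℕ} [Fact P.Prime] (hP2 : ¬ (P : ℤ) ∣ 4) (hD : (P : ℤ) ∣ D) (e : Edge D)
    (x y z t : ℤ) (h1 : ¬ (P : ℤ) ∣ val e x y) (h2 : ¬ (P : ℤ) ∣ val e z t) :
    legendreSym P (val e x y) = legendreSym P (val e z t) := by
  have hPp : Prime (P : ℤ) := Nat.prime_iff_prime_int.1 (Fact.out)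
  have key : 4 * (val e x y * val e z t) = pol e x y z t ^ 2 - D * (x * t - y * z) ^ 2 := by
    have he := e.eq
    unfold val pol
    linear_combination (-(x * t - y * z) ^ 2) * he
  have h3 : ((4 * (val e x y * val e z t) : ℤ) : ZMod P) = ((pol e x y z t ^ 2 : ℤ) : ZMod P) := by
    rw [key]
    push_cast
    have : (D : ZMod P) = 0 := (ZMod.intCast_zmod_eq_zero_iff_dvd _ _).2 hD
    rw [this]; ring
  have h4 : ((val e x y : ℤ) : ZMod P) ≠ 0 := cast_ne.2 h1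
  have h5 : ((val e z t : ℤ) : ZMod P) ≠ 0 := cast_ne.2 h2
  have h6 : ((4 : ℤ) : ZMod P) ≠ 0 := cast_ne.2 hP2
  have h7 : ((pol e x y z t : ℤ) : ZMod P) ≠ 0 := by
    intro h
    have h8 : ((4 * (val e x y * val e z t) : ℤ) : ZMod P) = 0 := by
      rw [h3]; push_cast; rw [h]; ring
    push_cast at h8
    rcases mul_eq_zero.1 h8 with h9 | h9
    · exact h6 (by push_cast; exact h9)
    · rcases mul_eq_zero.1 h9 with h9 | h9
      · exact h4 h9
      · exact h5 h9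
  have h8 : legendreSym P (4 * (val e x y * val e z t)) = legendreSym P (pol e x y z t ^ 2) := by
    unfold legendreSym; rw [h3]
  rw [legendreSym.sq_one' P h7, legendreSym.mul, legendreSym.mul] at h8
  have h9 : legendreSym P 4 = 1 := by
    have h10 : ((2 : ℤ) : ZMod P) ≠ 0 := by
      intro h; apply h6
      have : ((4 : ℤ) : ZMod P) = ((2 : ℤ) : ZMod P) * ((2 : ℤ) : ZMod P) := by push_cast; norm_num
      rw [this, h]; ring
    have h11 := legendreSym.sq_one' P h10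
    norm_num at h11
    exact h11
  rw [h9, one_mul] at h8
  rcases legendreSym.eq_one_or_neg_one P h4 with h10 | h10 <;>
  rcases legendreSym.eq_one_or_neg_one P h5 with h11 | h11 <;> rw [h10, h11] at h8 ⊢ <;>
  norm_num at h8

theorem gen_iff (hp : Prime p) (hp0 : 0 < p) (hp4 : ¬ p ∣ 4) (hD : p ∣ D) (e : Edge D)
    (x y : ℤ) (h1 : ¬ p ∣ val e x y) :
    gen p e ↔ @legendreSym p.natAbs ⟨Int.prime_iff_natAbs_prime.1 hp⟩ (val e x y) = 1 := by
  have hcast : ((p.natAbs : ℕ) : ℤ) = p := Int.natAbs_of_nonneg hp0.le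
  have : Fact (Nat.Prime p.natAbs) := ⟨Int.prime_iff_natAbs_prime.1 hp⟩
  constructor
  · rintro ⟨z, t, h2, h3⟩
    rw [leg_eq (P := p.natAbs) (by rw [hcast]; exact hp4) (by rw [hcast]; exact hD) e x y z t
      (by rw [hcast]; exact h1) (by rw [hcast]; exact h2)]
    rw [legendreSym.eq_one_iff _ (cast_ne.2 (by rw [hcast]; exact h2))]
    exact h3
  · intro h
    refine ⟨x, y, h1, ?_⟩
    rw [legendreSym.eq_one_iff _ (cast_ne.2 (by rw [hcast]; exact h1))] at h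
    exact h

theorem exists_val (hp : Prime p) (hD : ¬ p * p ∣ D) (e : Edge D) :
    ∃ x y : ℤ, ¬ p ∣ val e x y := by
  by_contra hc
  push Not at hc
  apply hD
  have h1 : p ∣ e.a := dc (hc 1 0) (by unfold val; ring)
  have h2 : p ∣ e.b := by
    have := hc 0 1
    have h3 : val e 0 1 = -e.b := by unfold val; ring
    rw [h3] at this
    exact (dvd_neg).1 this
  have h3 : p ∣ e.h := by
    have h4 := hc 1 1
    have h5 : val e 1 1 = e.h + (e.a - e.b) := by unfold val; ring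
    rw [h5] at h4
    exact (dvd_add_left (dvd_sub h1 h2)).1 h4
  rw [← e.eq]
  refine dvd_add ?_ ?_
  · rw [sq]; exact mul_dvd_mul h3 h3
  · exact mul_dvd_mul (Dvd.dvd.mul_left h1 4) h2

theorem flip (hp : Prime p) (hp0 : 0 < p) (hp4 : ¬ p ∣ 4) (hD : p ∣ D) (hD2 : ¬ p * p ∣ D)
    {r g : ℤ} (hpr : ¬ p ∣ r) (hns : ¬ IsSquare ((r : ℤ) : ZMod p.natAbs))
    {e e1 : Edge D} {M : Mt} (N : Nb r g e M e1.a e1.h (-e1.b)) : gen p e1 ↔ ¬ gen p e := by
  have hcast : ((p.natAbs : ℕ) : ℤ) = p := Int.natAbs_of_nonneg hp0.le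
  have hF : Fact (Nat.Prime p.natAbs) := ⟨Int.prime_iff_natAbs_prime.1 hp⟩
  obtain ⟨x, y, hxy⟩ := exists_val hp hD2 e1
  have hv : val e (M.x * x + M.z * y) (M.y * x + M.t * y) = r * val e1 x y := by
    have hA := N.hA
    have hB := N.hB
    have hC := N.hC
    unfold val at *
    unfold pol at *
    linear_combination (-x ^ 2) * hA - x * y * hB - y ^ 2 * hC
  have hxy2 : ¬ p ∣ val e (M.x * x + M.z * y) (M.y * x + M.t * y) := by
    rw [hv]; intro h
    rcases hp.dvd_or_dvd h with h | h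
    · exact hpr h
    · exact hxy h
  rw [gen_iff hp hp0 hp4 hD e1 x y hxy, gen_iff hp hp0 hp4 hD e _ _ hxy2, hv, legendreSym.mul,
    (legendreSym.eq_neg_one_iff _).2 hns]
  rcases legendreSym.eq_one_or_neg_one p.natAbs (a := val e1 x y)
    (cast_ne.2 (by rw [hcast]; exact hxy)) with h | h <;> rw [h] <;> norm_num

end genus

theorem main : S_NEI' := by
  intro hred1 hred2 hrpr p q D _ hpq
  obtain ⟨r, hr, hr2, hpr, hns, g, hg, hrD⟩ := hrpr p q D hpq
  have hp := hpq.hp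
  have hq := hpq.hq
  have p0 := hpq.p0
  have hlt := hpq.hlt
  have p4 := hpq.p4
  have hDpq := hpq.hD
  have hR : Prime (r : ℤ) := Nat.prime_iff_prime_int.1 hr
  have hR2 : ¬ (r : ℤ) ∣ 2 := by
    intro h
    have h1 : r ∣ 2 := by exact_mod_cast h
    exact hr2 ((Nat.prime_dvd_prime_iff_eq hr Nat.prime_two).1 h1)
  have hgr : (r : ℤ) ∣ g ^ 2 - D := dvd_trans (Dvd.intro_left 4 rfl) hg
  have hrg : ¬ (r : ℤ) ∣ g := by
    intro h
    apply hrD
    have : D = g * g - (g ^ 2 - D) := by ring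
    rw [this]
    exact dvd_sub (Dvd.dvd.mul_left h g) hgr
  have hD0 : 0 < D := by rw [hDpq]; exact mul_pos p0 (by linarith)
  have hp4 : ¬ p ∣ 4 := by
    intro h
    have h1 := Int.le_of_dvd (by norm_num) h
    have h2 : p ≠ 1 := fun h => hp.not_isUnit (h ▸ isUnit_one)
    omega
  have hpD : p ∣ D := ⟨q, hDpq⟩
  have hpD2 : ¬ p * p ∣ D := by
    rintro ⟨k, hk⟩
    rw [hDpq, mul_assoc] at hk
    have h5 := mul_left_cancel₀ hp.ne_zero hk
    have h7 := (hp.associated_of_dvd hq ⟨k, h5⟩)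
    rcases Int.associated_iff.1 h7 with h8 | h8 <;> omega
  have hex : ∀ e : Edge D, ∃ e1 : Edge D, ∃ M : Mt, Nb (r : ℤ) g e M e1.a e1.h (-e1.b) := by
    intro e
    obtain ⟨M, A, B, C, N⟩ := exists_nb hR hR2 hrD hg e
    have hdisc : B ^ 2 - 4 * A * C = D := by
      have hr0 : ((r : ℤ)) ^ 2 ≠ 0 := pow_ne_zero 2 hR.ne_zero
      apply mul_left_cancel₀ hr0
      have h1 : (r : ℤ) ^ 2 * (B ^ 2 - 4 * A * C) = (r * B) ^ 2 - 4 * (r * A) * (r * C) := by ring
      rw [h1, N.hA, N.hB, N.hC]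
      have he := e.eq
      have hd := N.det
      unfold val pol
      rw [← hd]
      linear_combination (M.x * M.t - M.y * M.z) ^ 2 * he
    obtain ⟨W, e1, hW, h1, h2, h3⟩ := hred1 D hD0 A B C hdisc
    refine ⟨e1, M.mul W, ?_⟩
    have N2 := N.comp W hW
    rw [← h1, ← h2, ← h3] at N2
    exact N2
  choose m M hm using hex
  refine ⟨m, ?_, ?_⟩
  · intro e
    exact flip hp p0 hp4 hpD hpD2 hpr hns (hm e)
  · rintro e e' ⟨n, hn⟩
    obtain ⟨W, hW, hrel⟩ := iter_rel (m e) n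
    rw [hn] at hrel
    obtain ⟨h1, h2, h3⟩ := hrel
    have N2 := (hm e).comp W hW
    have N3 : Nb (r : ℤ) g e ((M e).mul W) (m e').a (m e').h (-(m e').b) := by
      rw [h1, h2, h3]
      unfold val pol
      convert N2 using 1 <;> ring
    obtain ⟨P, hP, hPr⟩ := N3.inj hR hR2 hrg (hm e')
    obtain ⟨k, hk | hk⟩ := hred2 D e e' P hP hPr
    · exact ⟨k, hk⟩
    · exact cyc_symm e' e ⟨k, hk⟩

end Pool.Agent.R169.MC.Nei
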