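import Pool.Agent.R169.MC.Stm2

/-!
# The odd case
-/

namespace Pool.Agent.R169.MC.Odd
open Finset Function Pool.Agent.R169.MC Dyn

variable {D : ℤ} [NS D]

/-- data attached to the first return of `c` (a vertex symmetric edge) -/
theorem unit_of (hW : S_WRD) (hU : S_UNEG) {p q : ℤ} (hpq : PQ p q D) {c : Edge D}
    (hc : F (rh c) = c) (hah : c.h = c.a) {j : ℕ} (hf : al (rh (F^[j] c)) = F^[j] c) :
    F^[2 * j + 1] c = al c ∧
    ∃ T U : ℤ, 0 < T ∧ 0 < U ∧ T ^ 2 - D * U ^ 2 = -4 ∧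
      (Wm (2 * j + 1) c).t = c.a * U ∧
      c.a * U = (Wm j c).y ^ 2 + (Wm j c).t ^ 2 ∧
      T = (Wm j c).y ^ 2 + (Wm j c).t ^ 2
        + 2 * ((Wm j c).x * (Wm j c).y + (Wm j c).z * (Wm j c).t) := by
  have hF2 : F^[j + j] c = al (rh c) := by
    have h1 := F_iter_alrh j c
    rw [hf] at h1
    rw [iterate_add_apply]
    exact h1
  have hF3 : F^[2 * j + 1] c = al c := by
    have e : 2 * j + 1 = (j + j) + 1 := by ring
    rw [e, iterate_succ_apply', hF2, F_al, hc]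
  refine ⟨hF3, ?_⟩
  obtain ⟨T, U, hT, hU0, hTU, h1, h2, h3, h4⟩ := (hU p q D hpq c).1 (2 * j + 1) hF3
  have hWj := (hW D c j).2.2.2.1
  rw [hf] at hWj
  have hadd := (hW D c j).2.2.2.2 j
  rw [hWj] at hadd
  have hadd2 := (hW D c (j + j)).2.2.2.2 1
  rw [hF2] at hadd2
  have hlt : Wm 1 (al (rh c)) = ⟨1, 1, 0, 1⟩ := by
    show (lt (al (rh c))).mul Mt.one = _
    have hpos : 0 < (al (rh c)).a + (al (rh c)).h - (al (rh c)).b := by
      simp only [al, rh]
      have := c.hb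
      rw [hah]; linarith
    unfold lt
    rw [if_pos hpos]
    ext <;> simp [Mt.mul, Mt.one]
  rw [hlt, hadd] at hadd2
  have e : 2 * j + 1 = (j + j) + 1 := by ring
  have hz : (Wm (2 * j + 1) c).z = (Wm j c).x * (Wm j c).y + (Wm j c).z * (Wm j c).t := by
    rw [e, hadd2]; simp [Mt.mul, Mt.tr]
  have ht : (Wm (2 * j + 1) c).t = (Wm j c).y ^ 2 + (Wm j c).t ^ 2 := by
    rw [e, hadd2]; simp [Mt.mul, Mt.tr]; ring
  refine ⟨T, U, hT, hU0, hTU, h4, ?_, ?_⟩
  · rw [← h4, ht]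
  · rw [hz, hah] at h2
    rw [h4] at ht
    linarith

theorem odd_of_return (hD : D % 4 = 1) {x : Xs D} {n : ℕ} (hn : F^[n] x.1 = al x.1) :
    n % 2 = 1 ∧ (Tp D hD)^[n] x = x := by
  have h1 := sg_iter hD n x.1
  rw [hn, sg_al hD, x.2, zero_add, zero_add] at h1
  have h2 : n % 2 = 1 := by
    rcases Nat.mod_two_eq_zero_or_one n with h | h
    · exfalso
      have h3 : (n : ZMod 2) = 0 := by
        rw [ZMod.natCast_eq_zero_iff]; omega
      rw [h3] at h1
      exact absurd h1 (by decide)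
    · exact h
  refine ⟨h2, ?_⟩
  apply Subtype.ext
  rw [T_iter, if_neg (by omega), hn, al_al]

theorem per_le (hD : D % 4 = 1) {x : Xs D} {n : ℕ} (hn : F^[n] x.1 = al x.1) :
    minimalPeriod (Tp D hD) x ≤ n := by
  obtain ⟨h1, h2⟩ := odd_of_return hD hn
  apply IsPeriodicPt.minimalPeriod_le (by omega)
  exact h2

theorem per_odd (hD : D % 4 = 1) {x : Xs D} {n : ℕ} (hn : F^[n] x.1 = al x.1) :
    Odd (minimalPeriod (Tp D hD) x) := by
  obtain ⟨h1, h2⟩ := odd_of_return hD hn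
  have h3 : minimalPeriod (Tp D hD) x ∣ n := IsPeriodicPt.minimalPeriod_dvd h2
  have h4 : Odd n := Nat.odd_iff.2 h1
  exact h4.of_dvd_nat h3

theorem t_mono (hW : S_WRD) (e : Edge D) {m n : ℕ} (h : m ≤ n) : (Wm m e).t ≤ (Wm n e).t := by
  obtain ⟨j, rfl⟩ : ∃ j, n = m + j := ⟨n - m, by omega⟩
  have hadd := (hW D e m).2.2.2.2 j
  rw [hadd]
  have hN := (hW D e m).2.1
  have hN' := (hW D (F^[m] e) j).2.1
  have hd' := (hW D (F^[m] e) j).2.2.1
  obtain ⟨a1, a2, a3, a4⟩ := hN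
  obtain ⟨b1, b2, b3, b4⟩ := hN'
  unfold Mt.det at hd'
  show _ ≤ (Wm m e).y * (Wm j (F^[m] e)).z + (Wm m e).t * (Wm j (F^[m] e)).t
  have h1 : 1 ≤ (Wm j (F^[m] e)).t := by
    by_contra hcon
    have h0 : (Wm j (F^[m] e)).t = 0 := by omega
    rw [h0] at hd'
    have : 0 ≤ (Wm j (F^[m] e)).y * (Wm j (F^[m] e)).z := mul_nonneg b2 b3
    linarith
  nlinarith [mul_nonneg a2 b3, mul_le_mul_of_nonneg_left h1 a4]

theorem unit_le (hW : S_WRD) (hU : S_UNEG) {p q : ℤ} (hpq : PQ p q D) (hD : D % 4 = 1)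
    {c : Xs D} {j : ℕ} (hj : minimalPeriod (Tp D hD) c = 2 * j + 1) {U T' U' : ℤ}
    (h1 : (Wm (2 * j + 1) c.1).t = c.1.a * U) (hT' : 0 < T') (hU' : 0 < U')
    (hTU : T' ^ 2 - D * U' ^ 2 = -4) : U ≤ U' := by
  obtain ⟨n, hn, _, _, _, h4⟩ := (hU p q D hpq c.1).2 T' U' hT' hU' hTU
  have h5 := per_le hD hn
  rw [hj] at h5
  have h6 := t_mono hW c.1 h5
  rw [h1, h4] at h6
  exact le_of_mul_le_mul_left h6 c.1.ha

theorem T_eq {T T' U : ℤ} (hT : 0 < T) (hT' : 0 < T') (h : T ^ 2 - D * U ^ 2 = -4)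
    (h' : T' ^ 2 - D * U ^ 2 = -4) : T = T' := by
  have : T ^ 2 = T' ^ 2 := by linarith
  rcases sq_eq_sq_iff_eq_or_eq_neg.1 this with h1 | h1
  · exact h1
  · linarith

theorem half (hD : D % 4 = 1) {x E : Xs D} {j : ℕ} (h : (Tp D hD)^[j] x = E)
    (hE : al (rh E.1) = E.1) : al (rh (F^[j] x.1)) = F^[j] x.1 := by
  have h1 := congrArg Subtype.val h
  rw [T_iter] at h1
  by_cases hj : j % 2 = 0
  · rw [if_pos hj] at h1
    rw [h1, hE]
  · rw [if_neg hj] at h1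
    have h2 : F^[j] x.1 = al E.1 := by rw [← h1, al_al]
    rw [h2, ← al_rh, hE]

theorem main : S_DIHO → S_WRD → S_UNEG → S_GA1 → S_SGN → S_FIXC → S_FIXE → S_FIN → S_CN →
    S_NEI → S_ODD := by
  intro hDI hW hU hG hS hC hE hFi hCN hN p q D a b c d _ hpq hD ts ⟨e0, n0, hn0⟩
  classical
  haveI : Finite (Edge D) := hFi D
  haveI : Finite (Xs D) := Subtype.finite
  haveI : Fintype (Xs D) := Fintype.ofFinite _
  obtain ⟨t0, u0, ht0, hu0, htu, _⟩ := (hU p q D hpq e0).1 n0 hn0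
  have hall : ∀ e : Edge D, ∃ n : ℕ, F^[n] e = al e := by
    intro e
    obtain ⟨n, hn, _⟩ := (hU p q D hpq e).2 t0 u0 ht0 hu0 htu
    exact ⟨n, hn⟩
  have hp0 := hpq.p0
  have hlt := hpq.hlt
  have hp4 := hpq.p4
  have hq4 := hpq.q4
  have hDpq := hpq.hD
  have hp5 : 5 ≤ p := by
    by_contra hcon
    have : p = 1 := by omega
    exact hpq.hp.not_unit (by rw [this]; exact isUnit_one)
  have hDbig : 5 * 5 ≤ D := by rw [hDpq]; nlinarith
  set k := (D - 1) / 4 with hk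
  set k' := (q - p) / 4 with hk'
  have hk4 : D = 1 + 4 * k := by omega
  have hk4' : q = p + 4 * k' := by omega
  have hkp : 0 < k := by omega
  have hkp' : 0 < k' := by omega
  let ec : Edge D := ⟨1, 1, k, by norm_num, hkp, by linarith⟩
  let ec' : Edge D := ⟨p, p, k', hp0, hkp', by
    rw [hDpq]; linear_combination (-p) * hk4'⟩
  have hfc : F (rh ec) = ec ∧ sg ec = 0 := (hC p q D hpq ec).2 (Or.inl ⟨rfl, rfl, rfl⟩)
  have hfc' : F (rh ec') = ec' ∧ sg ec' = 0 := (hC p q D hpq ec').2 (Or.inr ⟨rfl, rfl, rfl⟩)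
  let xc : Xs D := ⟨ec, hfc.2⟩
  let xc' : Xs D := ⟨ec', hfc'.2⟩
  have hne : xc ≠ xc' := by
    intro h
    have h1 := congrArg (fun x : Xs D => x.1.a) h
    have h2 : (1 : ℤ) = p := h1
    omega
  obtain ⟨e, e', hee, hfix⟩ := hE p q D hpq
  have hfe := (hfix e).2 (Or.inl rfl)
  have hfe' := (hfix e').2 (Or.inr rfl)
  let xe : Xs D := ⟨e, hfe.2⟩
  let xe' : Xs D := ⟨e', hfe'.2⟩
  have hne' : xe ≠ xe' := by
    intro h
    exact hee (congrArg Subtype.val h)
  have hTt : ∀ x : Xs D, Tp D hD (tp D hD x) = x ↔ (x = xc ∨ x = xc') := by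
    intro x
    have h1 : Tp D hD (tp D hD x) = x ↔ (F (rh x.1) = x.1 ∧ sg x.1 = 0) := by
      constructor
      · intro h
        refine ⟨?_, x.2⟩
        rw [← T_t_val hD x, h]
      · rintro ⟨h, _⟩
        apply Subtype.ext
        rw [T_t_val hD x, h]
    rw [h1, hC p q D hpq x.1]
    constructor
    · rintro (⟨g1, g2, g3⟩ | ⟨g1, g2, g3⟩)
      · left
        apply Subtype.ext
        exact Edge.ext g1 g2 g3
      · right
        apply Subtype.ext
        exact Edge.ext g1 g2 g3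
    · rintro (rfl | rfl)
      · left; exact ⟨rfl, rfl, rfl⟩
      · right; exact ⟨rfl, rfl, rfl⟩
  have htt : ∀ x : Xs D, tp D hD x = x ↔ (x = xe ∨ x = xe') := by
    intro x
    have h1 : tp D hD x = x ↔ (al (rh x.1) = x.1 ∧ sg x.1 = 0) := by
      constructor
      · intro h
        exact ⟨congrArg Subtype.val h, x.2⟩
      · rintro ⟨h, _⟩
        exact Subtype.ext h
    rw [h1, hfix x.1]
    constructor
    · rintro (h | h)
      · left; exact Subtype.ext h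
      · right; exact Subtype.ext h
    · rintro (rfl | rfl)
      · left; rfl
      · right; rfl
  have hodd : ∀ x : Xs D, Odd (minimalPeriod (Tp D hD) x) := by
    intro x
    obtain ⟨n, hn⟩ := hall x.1
    exact per_odd hD hn
  obtain ⟨hcard, hpos, hnsc, hcls⟩ := hDI (Xs D) (Tp D hD) (tp D hD) (tp_tp hD) (T_t_T hD)
    xc xc' xe xe' hne hne' hTt htt hodd
  have hQ := hCN hN hFi p q D hpq hD xc xc' hall rfl rfl rfl rfl hnsc hcls
  obtain ⟨j, hj⟩ := hodd xc
  obtain ⟨j', hj'⟩ := hodd xc'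
  have ej : (minimalPeriod (Tp D hD) xc - 1) / 2 = j := by omega
  have ej' : (minimalPeriod (Tp D hD) xc' - 1) / 2 = j' := by omega
  rw [ej, ej'] at hpos
  have hf : al (rh (F^[j] ec)) = F^[j] ec := by
    rcases hpos with h | h
    · exact half hD h.1 hfe.1
    · exact half hD h.1 hfe'.1
  have hf' : al (rh (F^[j'] ec')) = F^[j'] ec' := by
    rcases hpos with h | h
    · exact half hD h.2 hfe'.1
    · exact half hD h.2 hfe.1
  obtain ⟨_, T, U, hT, hU0, hTU, ht1, hau, hTT⟩ := unit_of hW hU hpq hfc.1 rfl hf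
  obtain ⟨_, T', U', hT', hU0', hTU', ht1', hau', hTT'⟩ := unit_of hW hU hpq hfc'.1 rfl hf'
  have hUU : U = U' := le_antisymm
    (unit_le hW hU hpq hD (c := xc) hj ht1 hT' hU0' hTU')
    (unit_le hW hU hpq hD (c := xc') hj' ht1' hT hU0 hTU)
  subst hUU
  have hTeq : T = T' := T_eq hT hT' hTU hTU'
  subst hTeq
  set f := F^[j] ec with hfd
  set f' := F^[j'] ec' with hfd'
  obtain ⟨⟨r1, r2, r3⟩, hNN, hdet, _, _⟩ := hW D ec j
  obtain ⟨⟨r1', r2', r3'⟩, hNN', hdet', _, _⟩ := hW D ec' j'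
  rw [← hfd] at r1 r2 r3
  rw [← hfd'] at r1' r2' r3'
  have hab : f.a = f.b := by
    have := congrArg Edge.a hf
    simp only [al, rh] at this
    exact this.symm
  have hab' : f'.a = f'.b := by
    have := congrArg Edge.a hf'
    simp only [al, rh] at this
    exact this.symm
  unfold Mt.det at hdet hdet'
  simp only [val, pol, ec, ec'] at r1 r2 r3 r1' r2' r3' hau hau'
  have hq1 : q % 4 = 1 := hq4
  obtain ⟨X, Y, hXY, hXY2⟩ := hG p q k k' f.a f'.a f.h f'.h T U (Wm j ec).x (Wm j ec).y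
    (Wm j ec).z (Wm j ec).t (Wm j' ec').x (Wm j' ec').y (Wm j' ec').z (Wm j' ec').t
    hp0 (by rw [← hDpq]; exact hk4) hk4' hq1 hdet hdet'
    (by rw [r1]; ring) (by rw [hab, r3]; ring) (by rw [r2]; ring)
    (by rw [r1']) (by rw [hab', r3']; ring) (by rw [r2'])
    (by linarith) hTT (by linarith) hTT'
  have hfeq := f.eq
  have hfeq' := f'.eq
  rw [← hab] at hfeq
  rw [← hab'] at hfeq'
  have hSg := hS p q a b c d f.h f'.h f.a f'.a X Y hpq.hp hpq.hq (by omega) hp4 hq4 ts.a0 ts.ab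
    ts.hp ts.c0 ts.cd ts.hq ts.par f.ha f'.ha (by linear_combination -hDpq - hfeq)
    (by linear_combination -hDpq - hfeq') hXY hXY2
  -- parity of j + j'
  have hs1 := sg_iter hD j ec
  have hs2 := sg_iter hD j' ec'
  rw [hfc.2, zero_add, ← hfd] at hs1
  rw [hfc'.2, zero_add, ← hfd'] at hs2
  have ho1 := h_odd hD f
  have ho2 := h_odd hD f'
  obtain ⟨u, hu⟩ : ∃ u, f.h = 2 * u + 1 := ⟨f.h / 2, by omega⟩
  obtain ⟨v, hv⟩ : ∃ v, f'.h = 2 * v + 1 := ⟨f'.h / 2, by omega⟩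
  have hpar : (j : ℤ) % 2 = (u + (f.a + 1) * (f.a + 1)) % 2 := by
    unfold sg at hs1
    rw [← hab] at hs1
    have e1 : (f.h - 1) / 2 = u := by omega
    rw [e1] at hs1
    have e2 : ((j : ℕ) : ZMod 2) = (((j : ℤ)) : ZMod 2) := by push_cast; rfl
    rw [e2] at hs1
    exact ((sg_eq_iff _ _).1 hs1).symm
  have hpar' : (j' : ℤ) % 2 = (v + (f'.a + 1) * (f'.a + 1)) % 2 := by
    unfold sg at hs2
    rw [← hab'] at hs2
    have e1 : (f'.h - 1) / 2 = v := by omega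
    rw [e1] at hs2
    have e2 : ((j' : ℕ) : ZMod 2) = (((j' : ℤ)) : ZMod 2) := by push_cast; rfl
    rw [e2] at hs2
    exact ((sg_eq_iff _ _).1 hs2).symm
  have hmm : (f.a * f.a) % 2 = (f'.a * f'.a) % 2 := by
    rw [hu] at hfeq
    rw [hv] at hfeq'
    have e1 : (u * (u + 1)) % 2 = 0 := by
      have := Int.even_mul_succ_self u
      exact Int.even_iff.1 this
    have e2 : (v * (v + 1)) % 2 = 0 := by
      have := Int.even_mul_succ_self v
      exact Int.even_iff.1 this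
    have e3 : 4 * (u * (u + 1)) + 1 + 4 * (f.a * f.a) = D := by linear_combination hfeq
    have e4 : 4 * (v * (v + 1)) + 1 + 4 * (f'.a * f'.a) = D := by linear_combination hfeq'
    omega
  have hjj : ((j : ℤ) + j') % 2 = (u + v) % 2 := by
    have e1 : (f.a + 1) * (f.a + 1) = f.a * f.a + 2 * f.a + 1 := by ring
    have e2 : (f'.a + 1) * (f'.a + 1) = f'.a * f'.a + 2 * f'.a + 1 := by ring
    rw [e1] at hpar
    rw [e2] at hpar'
    omega
  have hprod : f.h * f'.h = 4 * (u * v) + 2 * (u + v) + 1 := by rw [hu, hv]; ring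
  have hJ : jacobiSym q p.natAbs = 1 ∨ jacobiSym q p.natAbs = -1 := by
    apply jacobiSym.eq_one_or_neg_one
    have hcop : IsCoprime q p := by
      rw [Prime.coprime_iff_not_dvd hpq.hq]
      intro hdv
      have := Int.le_of_dvd hp0 hdv
      omega
    have := Int.isCoprime_iff_gcd_eq_one.1 hcop
    rw [Int.natAbs_of_nonneg hp0.le]
    exact this
  have hcd : (Nat.card (Xs D) : ℤ) = (Fintype.card (Xs D) : ℤ) := by
    rw [Nat.card_eq_fintype_card]
  rw [hcd]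
  rw [hj, hj'] at hcard
  push_cast at hcard
  refine ⟨fun ha => ?_, fun ha => ?_⟩
  · have h1 := hSg.1 ha
    rw [hprod] at h1
    have h2 : (u + v) % 2 = 0 := by omega
    unfold Int.ModEq at hcard hQ ⊢
    rcases hJ with hJ | hJ <;> rw [hJ] at hQ ⊢ <;> omega
  · have h1 := hSg.2 ha
    rw [hprod] at h1
    have h2 : (u + v) % 2 = 1 := by omega
    unfold Int.ModEq at hcard hQ ⊢
    rcases hJ with hJ | hJ <;> rw [hJ] at hQ ⊢ <;> omega

end Pool.Agent.R169.MC.Odd
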