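import Pool.Agent.R169.MC.Stm

/-!
Project MC: pieces RED1 and RED2.
-/

namespace Pool.Agent.R169.MC.Red
open Pool.Agent.R169.MC Function

/-- the conclusion of `S_RED1` for one form -/
def Good (D A B C : ℤ) : Prop :=
  ∃ (W : Mt) (e : Edge D), W.det = 1 ∧ e.a = A * W.x ^ 2 + B * W.x * W.y + C * W.y ^ 2 ∧
      e.h = 2 * A * W.x * W.z + B * (W.x * W.t + W.y * W.z) + 2 * C * W.y * W.t ∧
      -e.b = A * W.z ^ 2 + B * W.z * W.t + C * W.t ^ 2

theorem good_shift1 {D A B C : ℤ} (k : ℤ)
    (h : Good D A (B + 2 * A * k) (C + B * k + A * k ^ 2)) : Good D A B C := by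
  obtain ⟨W, e, h1, h2, h3, h4⟩ := h
  refine ⟨⟨W.x + k * W.y, W.y, W.z + k * W.t, W.t⟩, e, ?_, ?_, ?_, ?_⟩
  · rw [← h1]; simp only [Mt.det]; ring
  · rw [h2]; simp only; ring
  · rw [h3]; simp only; ring
  · rw [h4]; simp only; ring

theorem good_shift2 {D A B C : ℤ} (k : ℤ)
    (h : Good D (A + B * k + C * k ^ 2) (B + 2 * C * k) C) : Good D A B C := by
  obtain ⟨W, e, h1, h2, h3, h4⟩ := h
  refine ⟨⟨W.x, W.y + k * W.x, W.z, W.t + k * W.z⟩, e, ?_, ?_, ?_, ?_⟩
  · rw [← h1]; simp only [Mt.det]; ring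
  · rw [h2]; simp only; ring
  · rw [h3]; simp only; ring
  · rw [h4]; simp only; ring

theorem red1_aux (D : ℤ) [NS D] (hD0 : 0 < D) : ∀ (N : ℕ) (A B C : ℤ), B.natAbs = N →
    B ^ 2 - 4 * A * C = D → Good D A B C := by
  intro N
  induction N using Nat.strong_induction_on with
  | _ N ih =>
    intro A B C hB hD
    have hA0 : A ≠ 0 := by
      rintro rfl
      exact NS.ns (D := D) B (by linarith)
    have hC0 : C ≠ 0 := by
      rintro rfl
      exact NS.ns (D := D) B (by linarith)
    by_cases hAC : A * C < 0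
    · rcases lt_or_gt_of_ne hA0 with hA | hA
      · have hC : 0 < C := by nlinarith
        refine ⟨⟨0, 1, -1, 0⟩, ⟨C, -B, -A, hC, by linarith, by linear_combination hD⟩, ?_, ?_, ?_, ?_⟩
        · simp [Mt.det]
        · simp
        · simp
        · simp
      · have hC : C < 0 := by nlinarith
        refine ⟨⟨1, 0, 0, 1⟩, ⟨A, B, -C, hA, by linarith, by linear_combination hD⟩, ?_, ?_, ?_, ?_⟩
        · simp [Mt.det]
        · simp
        · simp
        · simp
    · have hAC' : 0 < A * C := lt_of_le_of_ne (not_lt.1 hAC) (by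
        intro h; rcases mul_eq_zero.1 h.symm with h | h
        · exact hA0 h
        · exact hC0 h)
      have hB2 : 4 * (A * C) < B ^ 2 := by linarith
      rcases le_total |A| |C| with hle | hle
      · -- |B| > 2|A|
        have h1 : |A| * |A| ≤ A * C := by
          have : |A| * |C| = A * C := by rw [← abs_mul, abs_of_pos hAC']
          rw [← this]
          exact mul_le_mul_of_nonneg_left hle (abs_nonneg _)
        have h2 : 2 * |A| < |B| := by
          apply lt_of_pow_lt_pow_left₀ 2 (abs_nonneg _)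
          rw [sq_abs]
          nlinarith
        have h3 : 0 < |A| := abs_pos.2 hA0
        have h4 : ∃ k : ℤ, |B + 2 * A * k| < |B| := by
          rcases abs_cases A with ⟨ha, _⟩ | ⟨ha, _⟩ <;> rcases abs_cases B with ⟨hb, _⟩ | ⟨hb, _⟩
          · exact ⟨-1, by rw [ha] at h2 h3; rw [hb] at h2 ⊢; rw [abs_lt]; constructor <;> linarith⟩
          · exact ⟨1, by rw [ha] at h2 h3; rw [hb] at h2 ⊢; rw [abs_lt]; constructor <;> linarith⟩
          · exact ⟨1, by rw [ha] at h2 h3; rw [hb] at h2 ⊢; rw [abs_lt]; constructor <;> linarith⟩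
          · exact ⟨-1, by rw [ha] at h2 h3; rw [hb] at h2 ⊢; rw [abs_lt]; constructor <;> linarith⟩
        obtain ⟨k, hk⟩ := h4
        apply good_shift1 k
        refine ih _ ?_ _ _ _ rfl (by linear_combination hD)
        rw [← hB]
        zify
        exact hk
      · have h1 : |C| * |C| ≤ A * C := by
          have : |A| * |C| = A * C := by rw [← abs_mul, abs_of_pos hAC']
          rw [← this]
          exact mul_le_mul_of_nonneg_right hle (abs_nonneg _)
        have h2 : 2 * |C| < |B| := by
          apply lt_of_pow_lt_pow_left₀ 2 (abs_nonneg _)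
          rw [sq_abs]
          nlinarith
        have h3 : 0 < |C| := abs_pos.2 hC0
        have h4 : ∃ k : ℤ, |B + 2 * C * k| < |B| := by
          rcases abs_cases C with ⟨ha, _⟩ | ⟨ha, _⟩ <;> rcases abs_cases B with ⟨hb, _⟩ | ⟨hb, _⟩
          · exact ⟨-1, by rw [ha] at h2 h3; rw [hb] at h2 ⊢; rw [abs_lt]; constructor <;> linarith⟩
          · exact ⟨1, by rw [ha] at h2 h3; rw [hb] at h2 ⊢; rw [abs_lt]; constructor <;> linarith⟩
          · exact ⟨1, by rw [ha] at h2 h3; rw [hb] at h2 ⊢; rw [abs_lt]; constructor <;> linarith⟩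
          · exact ⟨-1, by rw [ha] at h2 h3; rw [hb] at h2 ⊢; rw [abs_lt]; constructor <;> linarith⟩
        obtain ⟨k, hk⟩ := h4
        apply good_shift2 k
        refine ih _ ?_ _ _ _ rfl (by linear_combination hD)
        rw [← hB]
        zify
        exact hk

theorem main1 : S_RED1 := by
  intro D _ hD A B C h
  exact red1_aux D hD _ A B C rfl h

theorem red2_aux (hC : S_CMP) (D : ℤ) [NS D] (e e' : Edge D) (W : Mt) (hx : 0 < W.x)
    (hdet : W.det = 1) (hR : Rel e W e') :
    ∃ n : ℕ, F^[n] e = e' ∨ F^[n] e' = e := by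
  obtain ⟨x, y, z, t⟩ := W
  simp only [Mt.det] at hdet hx
  obtain ⟨r1, r2, r3⟩ := hR
  simp only at r1 r2 r3
  have ha' := e'.ha
  have hb' := e'.hb
  have ha := e.ha
  have hb := e.hb
  have ht0 : t ≠ 0 := by
    rintro rfl
    rw [r3] at hb'
    simp only [val] at hb'
    nlinarith [mul_nonneg ha.le (sq_nonneg z)]
  rcases lt_or_gt_of_ne ht0 with ht | ht
  · exfalso
    have h1 : x * t < 0 := mul_neg_of_pos_of_neg hx ht
    have h2 : y * z < 0 := by linarith
    rw [r1] at ha'
    rw [r3] at hb'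
    simp only [val] at ha' hb'
    -- P > 0, N < 0
    have h3 : 0 < t ^ 2 * (e.a * x ^ 2 + e.h * x * y - e.b * y ^ 2) := by positivity
    have h4 : 0 ≤ y ^ 2 * (-(e.a * z ^ 2 + e.h * z * t - e.b * t ^ 2)) := by positivity
    have h5 : e.a * (y * z + x * t) + e.h * y * t =
        t ^ 2 * (e.a * x ^ 2 + e.h * x * y - e.b * y ^ 2) +
        y ^ 2 * (-(e.a * z ^ 2 + e.h * z * t - e.b * t ^ 2)) := by
      linear_combination (-(e.a * (y * z + x * t) + e.h * y * t)) * hdet
    have h6 : 0 < e.a * (y * z + x * t) + e.h * y * t := by rw [h5]; linarith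
    have h7 : 0 < x * (e.a * x + e.h * y) := by nlinarith [mul_nonneg hb.le (sq_nonneg y)]
    have h8 : 0 < e.a * x + e.h * y := by
      rcases lt_trichotomy (e.a * x + e.h * y) 0 with h | h | h
      · nlinarith
      · rw [h] at h7; simp at h7
      · exact h
    have h9 : t * (e.a * x + e.h * y) < 0 := mul_neg_of_neg_of_pos ht h8
    have h10 : e.a * (y * z) < 0 := mul_neg_of_pos_of_neg ha h2
    nlinarith
  · have h1 : 0 < x * t := mul_pos hx ht
    have h2 : 0 ≤ y * z := by linarith
    by_cases hyz : 0 ≤ y ∧ 0 ≤ z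
    · obtain ⟨n, _, hn⟩ := hC D e e' ⟨x, y, z, t⟩ ⟨hx.le, hyz.1, hyz.2, ht.le⟩ hdet ⟨r1, r2, r3⟩
      exact ⟨n, Or.inl hn⟩
    · have hy : y ≤ 0 ∧ z ≤ 0 := by
        constructor
        · by_contra hy
          push Not at hy
          have : 0 ≤ z := by
            by_contra hz
            push Not at hz
            nlinarith
          exact hyz ⟨hy.le, this⟩
        · by_contra hz
          push Not at hz
          have : 0 ≤ y := by
            by_contra hy
            push Not at hy
            nlinarith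
          exact hyz ⟨this, hz.le⟩
      have hdet2 : (x * t - y * z) ^ 2 = 1 := by rw [hdet]; norm_num
      obtain ⟨n, _, hn⟩ := hC D e' e ⟨t, -y, -z, x⟩ ⟨ht.le, by simp only; linarith [hy.1],
        by simp only; linarith [hy.2], hx.le⟩ (by simp only [Mt.det]; linarith)
        ⟨by simp only [val, pol] at r1 r2 r3 ⊢
            rw [r1, r2, r3]
            linear_combination (-e.a) * hdet2,
         by simp only [val, pol] at r1 r2 r3 ⊢
            rw [r1, r2, r3]
            linear_combination (-e.h) * hdet2,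
         by simp only [val, pol] at r1 r2 r3 ⊢
            rw [r1, r2, r3]
            linear_combination (-e.b) * hdet2⟩
      exact ⟨n, Or.inr hn⟩

theorem main2 : S_CMP → S_RED2 := by
  intro hC D _ e e' W hdet hR
  have hx0 : W.x ≠ 0 := by
    intro h
    have h1 := hR.1
    have h2 := e'.ha
    have h3 := e.hb
    rw [h1, h] at h2
    simp only [val] at h2
    nlinarith [mul_nonneg h3.le (sq_nonneg W.y)]
  rcases lt_or_gt_of_ne hx0 with hx | hx
  · refine red2_aux hC D e e' ⟨-W.x, -W.y, -W.z, -W.t⟩ (by simp only; linarith) ?_ ?_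
    · rw [← hdet]; simp only [Mt.det]; ring
    · obtain ⟨r1, r2, r3⟩ := hR
      refine ⟨?_, ?_, ?_⟩
      · rw [r1]; simp only [val]; ring
      · rw [r2]; simp only [pol]; ring
      · rw [r3]; simp only [val]; ring
  · exact red2_aux hC D e e' W hx hdet hR

end Pool.Agent.R169.MC.Red
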