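import Pool.Agent.R169.MC.Stm

/-!
Project MC: the auxiliary prime.
-/

set_option autoImplicit false

namespace Pool.Agent.R169.MC.Rpr

open Pool.Agent.R169.MC

lemma nonsq (P : ℕ) [Fact P.Prime] (h4 : P % 4 = 1) : ∃ a : ZMod P, ¬ IsSquare a := by
  apply FiniteField.exists_nonsquare
  rw [ZMod.ringChar_zmod_n]
  rintro rfl
  omega

theorem main : S_RPR := by
  intro p q D h
  obtain ⟨P, hP⟩ := Int.eq_ofNat_of_zero_le h.p0.le
  obtain ⟨Q, hQ⟩ := Int.eq_ofNat_of_zero_le (h.p0.trans h.hlt).le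
  have hp := h.hp
  have hq := h.hq
  have hlt := h.hlt
  have p4 := h.p4
  have q4 := h.q4
  have hD := h.hD
  subst hP hQ
  rw [Int.prime_iff_natAbs_prime] at hp hq
  simp only [Int.natAbs_natCast] at hp hq ⊢
  haveI : Fact P.Prime := ⟨hp⟩
  haveI : Fact Q.Prime := ⟨hq⟩
  have P4 : P % 4 = 1 := by omega
  have Q4 : Q % 4 = 1 := by omega
  have hPQ : P < Q := by exact_mod_cast hlt
  obtain ⟨a, ha⟩ := nonsq P P4
  obtain ⟨b, hb⟩ := nonsq Q Q4
  have hcop : Nat.Coprime P Q := (Nat.coprime_primes hp hq).2 hPQ.ne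
  have ha0 : a ≠ 0 := by
    rintro rfl
    exact ha IsSquare.zero
  have hb0 : b ≠ 0 := by
    rintro rfl
    exact hb IsSquare.zero
  have hu : IsUnit ((ZMod.chineseRemainder hcop).symm (a, b)) := by
    apply IsUnit.map
    rw [Prod.isUnit_iff]
    exact ⟨isUnit_iff_ne_zero.2 ha0, isUnit_iff_ne_zero.2 hb0⟩
  haveI : NeZero (P * Q) := ⟨mul_ne_zero hp.ne_zero hq.ne_zero⟩
  obtain ⟨r, hr1, hr, hr2⟩ := Nat.forall_exists_prime_gt_and_eq_mod hu (P * Q + 2)
  haveI : Fact r.Prime := ⟨hr⟩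
  have hra : (r : ZMod P) = a ∧ (r : ZMod Q) = b := by
    have h1 := congrArg (ZMod.chineseRemainder hcop) hr2
    rw [RingEquiv.apply_symm_apply, map_natCast] at h1
    have h2 := congrArg Prod.fst h1
    have h3 := congrArg Prod.snd h1
    exact ⟨h2, h3⟩
  have hr2' : r ≠ 2 := by omega
  have hPr : ¬ IsSquare ((P : ZMod r)) := by
    rw [← ZMod.exists_sq_eq_prime_iff_of_mod_four_eq_one P4 hr2', hra.1]
    exact ha
  have hQr : ¬ IsSquare ((Q : ZMod r)) := by
    rw [← ZMod.exists_sq_eq_prime_iff_of_mod_four_eq_one Q4 hr2', hra.2]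
    exact hb
  have hPL : legendreSym r (P : ℤ) = -1 := by
    rw [legendreSym.eq_neg_one_iff]
    simpa using hPr
  have hQL : legendreSym r (Q : ℤ) = -1 := by
    rw [legendreSym.eq_neg_one_iff]
    simpa using hQr
  have hDpos : (0 : ℤ) < D := by
    rw [hD]
    have h1 : (0 : ℤ) < P := by exact_mod_cast hp.pos
    have h2 : (0 : ℤ) < Q := by exact_mod_cast hq.pos
    positivity
  have hrD : D < r := by
    rw [hD]
    have : P * Q < r := by omega
    exact_mod_cast this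
  have hnd : ¬ (r : ℤ) ∣ D := by
    intro h1
    have := Int.le_of_dvd hDpos h1
    omega
  have hD0 : ((D : ℤ) : ZMod r) ≠ 0 := by
    intro h1
    exact hnd ((ZMod.intCast_zmod_eq_zero_iff_dvd D r).1 h1)
  have hDL : legendreSym r D = 1 := by
    rw [hD, legendreSym.mul, hPL, hQL]
    norm_num
  have hsq : IsSquare ((D : ℤ) : ZMod r) := (legendreSym.eq_one_iff r hD0).1 hDL
  obtain ⟨s, hs⟩ := hsq
  -- the square root
  have hg0 : (r : ℤ) ∣ ((s.val : ℤ) ^ 2 - D) := by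
    rw [← ZMod.intCast_zmod_eq_zero_iff_dvd]
    push_cast
    rw [ZMod.natCast_zmod_val, hs]
    ring
  have hrodd : (r : ℤ) % 2 = 1 := by
    have := hr.eq_two_or_odd
    omega
  have hD4 : D % 4 = 1 := by
    rw [hD, Int.mul_emod]
    have h1 : ((P : ℤ)) % 4 = 1 := by omega
    have h2 : ((Q : ℤ)) % 4 = 1 := by omega
    rw [h1, h2]
    norm_num
  have hex : ∃ g : ℤ, g % 2 = 1 ∧ (r : ℤ) ∣ (g ^ 2 - D) := by
    rcases Int.emod_two_eq_zero_or_one (s.val : ℤ) with h1 | h1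
    · refine ⟨(s.val : ℤ) + r, by omega, ?_⟩
      have : ((s.val : ℤ) + r) ^ 2 - D = ((s.val : ℤ) ^ 2 - D) + r * (2 * s.val + r) := by ring
      rw [this]
      exact dvd_add hg0 (dvd_mul_right _ _)
    · exact ⟨_, h1, hg0⟩
  obtain ⟨g, hg1, hg2⟩ := hex
  refine ⟨r, hr, hr2', ?_, ?_, g, ?_, hnd⟩
  · intro h1
    have h2 : P ∣ r := by exact_mod_cast h1
    have h3 := (Nat.prime_dvd_prime_iff_eq hp hr).1 h2
    have : P ≤ P * Q := Nat.le_mul_of_pos_right _ hq.pos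
    omega
  · have : (((r : ℤ)) : ZMod P) = a := by
      rw [← hra.1]
      push_cast
      rfl
    rw [this]
    exact ha
  · have h4 : (4 : ℤ) ∣ (g ^ 2 - D) := by
      obtain ⟨u, hu⟩ : ∃ u, g = 2 * u + 1 := ⟨g / 2, by omega⟩
      have h5 : D = 4 * (D / 4) + 1 := by omega
      rw [hu, h5]
      exact ⟨u ^ 2 + u - D / 4, by ring⟩
    apply IsCoprime.mul_dvd _ h4 hg2
    have : Nat.Coprime 4 r := by
      have h6 : Nat.Coprime 2 r := (Nat.coprime_primes Nat.prime_two hr).2 (Ne.symm hr2')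
      exact Nat.Coprime.pow_left 2 h6
    exact_mod_cast Nat.isCoprime_iff_coprime.2 this

end Pool.Agent.R169.MC.Rpr
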