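import Pool.Agent.R169.MC.Stm

/-! Project MC (helper169), piece SGN by helper506: the sign lemma. -/

set_option autoImplicit false

namespace Pool.Agent.R169.MC.Sgn

open Pool.Agent.R169.MC

lemma uniq0 {q c d u v : ℤ} (hq : Prime q) (q0 : 0 < q) (h1 : q = c ^ 2 + d ^ 2) (h2 : q = u ^ 2 + v ^ 2)
    (h : q ∣ u * d - v * c) : (u ^ 2 = c ^ 2 ∧ v ^ 2 = d ^ 2) ∨ (u ^ 2 = d ^ 2 ∧ v ^ 2 = c ^ 2) := by
  obtain ⟨k, hk⟩ := h
  have e1 : (u * c + v * d) ^ 2 + (q * k) ^ 2 = q ^ 2 := by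
    rw [← hk]
    have : q ^ 2 = q * q := sq q
    rw [this]
    nth_rewrite 1 [h2]
    nth_rewrite 1 [h1]
    ring
  have hq2 : 0 < q ^ 2 := by positivity
  have hk2 : k ^ 2 ≤ 1 := by
    have h3 : q ^ 2 * k ^ 2 ≤ q ^ 2 * 1 := by nlinarith [sq_nonneg (u * c + v * d)]
    exact le_of_mul_le_mul_left h3 hq2
  have hk3 : k = 0 ∨ k ^ 2 = 1 := by
    rcases eq_or_ne k 0 with h | h
    · exact Or.inl h
    · right
      have : 0 < k ^ 2 := by positivity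
      omega
  rcases hk3 with h | h
  · left
    rw [h, mul_zero] at hk
    have e2 : q * (u ^ 2 - c ^ 2) = 0 := by
      have e3 : u * d = v * c := by linarith
      have e4 : u ^ 2 * d ^ 2 = v ^ 2 * c ^ 2 := by rw [← mul_pow, ← mul_pow, e3]
      have e5 : d ^ 2 = q - c ^ 2 := by linarith
      have e6 : v ^ 2 = q - u ^ 2 := by linarith
      rw [e5, e6] at e4
      linear_combination e4
    rcases mul_eq_zero.mp e2 with e3 | e3
    · omega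
    · exact ⟨by linarith, by linarith⟩
  · right
    have e2 : (u * c + v * d) ^ 2 = 0 := by
      have : (q * k) ^ 2 = q ^ 2 := by rw [mul_pow, h, mul_one]
      linarith
    have e3 : u * c = -(v * d) := by
      have := pow_eq_zero_iff (two_ne_zero) |>.mp e2
      linarith
    have e4 : u ^ 2 * c ^ 2 = v ^ 2 * d ^ 2 := by
      rw [← mul_pow, ← mul_pow, e3]
      ring
    have e5 : d ^ 2 = q - c ^ 2 := by linarith
    have e6 : v ^ 2 = q - u ^ 2 := by linarith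
    rw [e5, e6] at e4
    have e7 : q * (q - u ^ 2 - c ^ 2) = 0 := by linear_combination -e4
    rcases mul_eq_zero.mp e7 with e3 | e3
    · omega
    · exact ⟨by linarith, by linarith⟩

lemma uniq {q c d u v : ℤ} (hq : Prime q) (q0 : 0 < q) (h1 : q = c ^ 2 + d ^ 2) (h2 : q = u ^ 2 + v ^ 2) :
    (u ^ 2 = c ^ 2 ∧ v ^ 2 = d ^ 2) ∨ (u ^ 2 = d ^ 2 ∧ v ^ 2 = c ^ 2) := by
  have h : q ∣ (u * d - v * c) * (u * d + v * c) := by
    refine ⟨u ^ 2 - c ^ 2, ?_⟩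
    have e5 : d ^ 2 = q - c ^ 2 := by linarith
    have e6 : v ^ 2 = q - u ^ 2 := by linarith
    linear_combination u ^ 2 * e5 - c ^ 2 * e6
  rcases hq.dvd_or_dvd h with h | h
  · exact uniq0 hq q0 h1 h2 h
  · have h3 := uniq0 (u := u) (v := -v) hq q0 h1 (by rw [neg_sq]; exact h2)
      (by rw [neg_mul, sub_neg_eq_add]; exact h)
    rwa [neg_sq] at h3

lemma rep0 {p q a b h k : ℤ} (hp : Prime p) (p0 : 0 < p) (h1 : p = a ^ 2 + b ^ 2) (h2 : p * q = h ^ 2 + k ^ 2)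
    (hd : p ∣ a * k - b * h) : ∃ u v : ℤ, q = u ^ 2 + v ^ 2 ∧ h ^ 2 = (a * u - b * v) ^ 2 ∧
      k ^ 2 = (b * u + a * v) ^ 2 := by
  obtain ⟨v, hv⟩ := hd
  have e1 : (a * h + b * k) ^ 2 = p * (p * (q - v ^ 2)) := by
    have e2 : (a * h + b * k) ^ 2 + (a * k - b * h) ^ 2 = (a ^ 2 + b ^ 2) * (h ^ 2 + k ^ 2) := by ring
    rw [hv, ← h1, ← h2] at e2
    linear_combination e2
  have e3 : p ∣ a * h + b * k := hp.dvd_of_dvd_pow (n := 2) ⟨_, e1⟩
  obtain ⟨u, hu⟩ := e3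
  have hpa : p * h = p * (a * u - b * v) := by
    calc p * h = a * (a * h + b * k) - b * (a * k - b * h) := by rw [h1]; ring
      _ = p * (a * u - b * v) := by rw [hu, hv]; ring
  have hpb : p * k = p * (b * u + a * v) := by
    calc p * k = b * (a * h + b * k) + a * (a * k - b * h) := by rw [h1]; ring
      _ = p * (b * u + a * v) := by rw [hu, hv]; ring
  have hh : h = a * u - b * v := mul_left_cancel₀ p0.ne' hpa
  have hk : k = b * u + a * v := mul_left_cancel₀ p0.ne' hpb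
  refine ⟨u, v, ?_, by rw [← hh], by rw [← hk]⟩
  have e4 : p * q = p * (u ^ 2 + v ^ 2) := by
    rw [h2, hh, hk]
    nth_rewrite 1 [h1]
    ring
  exact mul_left_cancel₀ p0.ne' e4

lemma rep {p q a b h k : ℤ} (hp : Prime p) (p0 : 0 < p) (h1 : p = a ^ 2 + b ^ 2) (h2 : p * q = h ^ 2 + k ^ 2) :
    ∃ u v : ℤ, q = u ^ 2 + v ^ 2 ∧ h ^ 2 = (a * u - b * v) ^ 2 ∧ k ^ 2 = (b * u + a * v) ^ 2 := by
  have hd : p ∣ (a * k - b * h) * (a * k + b * h) := by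
    refine ⟨a ^ 2 * q - h ^ 2, ?_⟩
    rw [mul_sub, mul_left_comm p, h2]
    nth_rewrite 1 [h1]
    ring
  rcases hp.dvd_or_dvd hd with h | h'
  · exact rep0 hp p0 h1 h2 h
  · have h3 := rep0 (q := q) (h := -h) (k := k) hp p0 h1 (by rw [neg_sq]; exact h2)
      (by rw [mul_neg, sub_neg_eq_add]; exact h')
    rwa [neg_sq] at h3

/-- the two representations of `pq` -/
lemma rep2 {p q a1 b1 c1 d1 h m : ℤ} (hp : Prime p) (hq : Prime q) (p0 : 0 < p) (q0 : 0 < q)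
    (ha2 : a1 % 2 = 1) (hb2 : b1 % 2 = 0) (hc2 : c1 % 2 = 1) (hd2 : d1 % 2 = 0)
    (hpe : p = a1 ^ 2 + b1 ^ 2) (hqe : q = c1 ^ 2 + d1 ^ 2) (h2 : p * q = h ^ 2 + 4 * m ^ 2) :
    (h ^ 2 = (a1 * c1 - b1 * d1) ^ 2 ∧ 4 * m ^ 2 = (a1 * d1 + b1 * c1) ^ 2) ∨
    (h ^ 2 = (a1 * c1 + b1 * d1) ^ 2 ∧ 4 * m ^ 2 = (a1 * d1 - b1 * c1) ^ 2) := by
  obtain ⟨u, v, e1, e2, e3⟩ := rep (k := 2 * m) hp p0 hpe (by rw [h2]; ring)
  have e4 : p * q = (a1 * c1 - b1 * d1) ^ 2 + (a1 * d1 + b1 * c1) ^ 2 := by rw [hpe, hqe]; ring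
  have e5 : p * q = (a1 * c1 + b1 * d1) ^ 2 + (a1 * d1 - b1 * c1) ^ 2 := by rw [hpe, hqe]; ring
  -- `h` is odd
  obtain ⟨a', rfl⟩ : ∃ a', a1 = 2 * a' + 1 := ⟨a1 / 2, by omega⟩
  obtain ⟨b', rfl⟩ : ∃ b', b1 = 2 * b' := ⟨b1 / 2, by omega⟩
  obtain ⟨c', rfl⟩ : ∃ c', c1 = 2 * c' + 1 := ⟨c1 / 2, by omega⟩
  obtain ⟨d', rfl⟩ : ∃ d', d1 = 2 * d' := ⟨d1 / 2, by omega⟩
  rcases uniq hq q0 hqe e1 with ⟨f1, f2⟩ | ⟨f1, f2⟩
  · have huv : (u * v) ^ 2 = ((2 * c' + 1) * (2 * d')) ^ 2 := by rw [mul_pow, mul_pow, f1, f2]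
    rcases sq_eq_sq_iff_eq_or_eq_neg.mp huv with g | g
    · left
      have : h ^ 2 = ((2 * a' + 1) * (2 * c' + 1) - (2 * b') * (2 * d')) ^ 2 := by
        rw [e2]
        linear_combination (2 * a' + 1) ^ 2 * f1 + (2 * b') ^ 2 * f2 - 2 * (2 * a' + 1) * (2 * b') * g
      exact ⟨this, by linarith⟩
    · right
      have : h ^ 2 = ((2 * a' + 1) * (2 * c' + 1) + (2 * b') * (2 * d')) ^ 2 := by
        rw [e2]
        linear_combination (2 * a' + 1) ^ 2 * f1 + (2 * b') ^ 2 * f2 - 2 * (2 * a' + 1) * (2 * b') * g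
      exact ⟨this, by linarith⟩
  · exfalso
    have hu : u % 2 = 0 := by
      rcases Int.emod_two_eq_zero_or_one u with h | h
      · exact h
      · exfalso
        obtain ⟨w, rfl⟩ : ∃ w, u = 2 * w + 1 := ⟨u / 2, by omega⟩
        have : 2 * (2 * w ^ 2 + 2 * w - 2 * d' ^ 2) + 1 = 0 := by linear_combination f1
        omega
    obtain ⟨w, rfl⟩ : ∃ w, u = 2 * w := ⟨u / 2, by omega⟩
    have e6 : 4 * m ^ 2 = h ^ 2 + 2 * (2 * (m ^ 2)) - h ^ 2 := by ring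
    have h7 : p * q = 2 * (2 * (a' ^ 2 + a' + b' ^ 2)  * (2 * (c' ^ 2 + c' + d' ^ 2) * 2) / 2) + p * q -
      2 * (2 * (a' ^ 2 + a' + b' ^ 2)  * (2 * (c' ^ 2 + c' + d' ^ 2) * 2) / 2) := by ring
    have h8 : p = 4 * (a' ^ 2 + a' + b' ^ 2) + 1 := by rw [hpe]; ring
    have h9 : q = 4 * (c' ^ 2 + c' + d' ^ 2) + 1 := by rw [hqe]; ring
    have h10 : h ^ 2 = 2 * (2 * (4 * (a' ^ 2 + a' + b' ^ 2) * (c' ^ 2 + c' + d' ^ 2) + (a' ^ 2 + a' + b' ^ 2) +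
        (c' ^ 2 + c' + d' ^ 2)) - 2 * m ^ 2) + 1 := by
      have : h ^ 2 = p * q - 4 * m ^ 2 := by linarith
      rw [this, h8, h9]
      ring
    have h11 : h ^ 2 = 2 * (2 * ((2 * a' + 1) * w - b' * v) ^ 2) := by
      rw [e2]
      ring
    omega

lemma core {p q a1 b1 c1 d1 h h' m m' X Y : ℤ} (hp : Prime p) (hq : Prime q) (hpq : p ≠ q)
    (ha0 : 0 < a1) (hc0 : 0 < c1)
    (ha2 : a1 % 2 = 1) (hb2 : b1 % 2 = 0) (hc2 : c1 % 2 = 1) (hd2 : d1 % 2 = 0)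
    (hpe : p = a1 ^ 2 + b1 ^ 2) (hqe : q = c1 ^ 2 + d1 ^ 2) (hm : 0 < m) (hm' : 0 < m')
    (h2 : p * q = h ^ 2 + 4 * m ^ 2) (h2' : p * q = h' ^ 2 + 4 * m' ^ 2) (hXY : X ^ 2 + Y ^ 2 = q)
    (hXY2 : p * (X ^ 2 - Y ^ 2) = h * h' - 4 * m * m') :
    (h * h' = a1 ^ 2 * c1 ^ 2 - b1 ^ 2 * d1 ^ 2 ∧ 4 * m * m' = a1 ^ 2 * d1 ^ 2 - b1 ^ 2 * c1 ^ 2) ∨
    (h * h' = -(a1 ^ 2 * c1 ^ 2 - b1 ^ 2 * d1 ^ 2) ∧ 4 * m * m' = -(a1 ^ 2 * d1 ^ 2 - b1 ^ 2 * c1 ^ 2)) := by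
  have p0 : 0 < p := by rw [hpe]; positivity
  have q0 : 0 < q := by rw [hqe]; positivity
  have p2 : p % 2 = 1 := by
    obtain ⟨a', rfl⟩ : ∃ a', a1 = 2 * a' + 1 := ⟨a1 / 2, by omega⟩
    obtain ⟨b', rfl⟩ : ∃ b', b1 = 2 * b' := ⟨b1 / 2, by omega⟩
    have : p = 2 * (2 * (a' ^ 2 + a' + b' ^ 2)) + 1 := by rw [hpe]; ring
    omega
  have q2 : q % 2 = 1 := by
    obtain ⟨a', rfl⟩ : ∃ a', c1 = 2 * a' + 1 := ⟨c1 / 2, by omega⟩
    obtain ⟨b', rfl⟩ : ∃ b', d1 = 2 * b' := ⟨d1 / 2, by omega⟩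
    have : q = 2 * (2 * (a' ^ 2 + a' + b' ^ 2)) + 1 := by rw [hqe]; ring
    omega
  have hh0 : ∀ (g n : ℤ), p * q = g ^ 2 + 4 * n ^ 2 → g ≠ 0 := by
    rintro g n hg rfl
    obtain ⟨p', rfl⟩ : ∃ p', p = 2 * p' + 1 := ⟨p / 2, by omega⟩
    obtain ⟨q', rfl⟩ : ∃ q', q = 2 * q' + 1 := ⟨q / 2, by omega⟩
    have : 2 * (2 * p' * q' + p' + q' - 2 * n ^ 2) + 1 = 0 := by linear_combination hg
    omega
  have hne : h ^ 2 ≠ h' ^ 2 := by
    intro hcon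
    have hmm : m = m' := by
      have : m ^ 2 = m' ^ 2 := by linarith
      exact (pow_left_inj₀ hm.le hm'.le two_ne_zero).mp this
    subst hmm
    rcases sq_eq_sq_iff_eq_or_eq_neg.mp hcon with g | g
    · subst g
      have d1' : p ∣ 2 * (h * h) := ⟨q + (X ^ 2 - Y ^ 2), by linear_combination -h2 - hXY2⟩
      have hp2 : ¬ p ∣ 2 := by
        intro hc
        have := Int.le_of_dvd (by norm_num) hc
        have h3 : p = 1 := by omega
        exact hp.not_isUnit (by rw [h3]; exact isUnit_one)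
      have d2 : p ∣ h := by
        rcases hp.dvd_or_dvd d1' with g | g
        · exact absurd g hp2
        · rcases hp.dvd_or_dvd g with g | g <;> exact g
      have d3 : p ∣ m := by
        have : p ∣ 2 * (2 * (m * m)) := by
          obtain ⟨w, hw⟩ := d2
          exact ⟨q - w * h, by rw [mul_sub, h2]; nth_rewrite 1 [sq, hw]; ring⟩
        rcases hp.dvd_or_dvd this with g | g
        · exact absurd g hp2
        · rcases hp.dvd_or_dvd g with g | g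
          · exact absurd g hp2
          · rcases hp.dvd_or_dvd g with g | g <;> exact g
      obtain ⟨w, hw⟩ := d2
      obtain ⟨z, hz⟩ := d3
      have e : p * q = p * (p * (w ^ 2 + 4 * z ^ 2)) := by rw [h2, hw, hz]; ring
      have e2 : p ∣ q := ⟨_, mul_left_cancel₀ p0.ne' e⟩
      have e3 := (Prime.associated_of_dvd hp hq e2)
      rw [Int.associated_iff] at e3
      rcases e3 with e3 | e3
      · exact hpq e3
      · omega
    · subst g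
      have e1 : p * (X ^ 2 - Y ^ 2 + q) = 0 := by linear_combination hXY2 + h2
      have e2 : X ^ 2 - Y ^ 2 + q = 0 := by
        rcases mul_eq_zero.mp e1 with g | g
        · omega
        · exact g
      have e3 : X ^ 2 = 0 := by linarith
      have e4 : Y * Y = q := by nlinarith
      rcases hq.irreducible.isUnit_or_isUnit e4.symm with g | g
      · exact hq.not_isUnit (e4 ▸ g.mul g)
      · exact hq.not_isUnit (e4 ▸ g.mul g)
  set P : ℤ := a1 ^ 2 * c1 ^ 2 - b1 ^ 2 * d1 ^ 2 with hP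
  set Q : ℤ := a1 ^ 2 * d1 ^ 2 - b1 ^ 2 * c1 ^ 2 with hQ
  have hprod : (h * h') ^ 2 = P ^ 2 ∧ (4 * m * m') ^ 2 = Q ^ 2 := by
    have r1 := rep2 hp hq p0 q0 ha2 hb2 hc2 hd2 hpe hqe h2
    have r2 := rep2 hp hq p0 q0 ha2 hb2 hc2 hd2 hpe hqe h2'
    have e1 : (4 * m * m') ^ 2 = (4 * m ^ 2) * (4 * m' ^ 2) := by ring
    rcases r1 with ⟨x1, x2⟩ | ⟨x1, x2⟩ <;> rcases r2 with ⟨y1, y2⟩ | ⟨y1, y2⟩
    · exact absurd (x1.trans y1.symm) hne
    · refine ⟨by rw [mul_pow, x1, y1, hP]; ring, by rw [e1, x2, y2, hQ]; ring⟩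
    · refine ⟨by rw [mul_pow, x1, y1, hP]; ring, by rw [e1, x2, y2, hQ]; ring⟩
    · exact absurd (x1.trans y1.symm) hne
  have hh : h * h' ≠ 0 := mul_ne_zero (hh0 h m h2) (hh0 h' m' h2')
  have hmm : 4 * m * m' ≠ 0 := by positivity
  have hPQ : P - Q = p * (c1 ^ 2 - d1 ^ 2) := by rw [hP, hQ, hpe]; ring
  have hX : X ^ 2 - Y ^ 2 = c1 ^ 2 - d1 ^ 2 ∨ X ^ 2 - Y ^ 2 = -(c1 ^ 2 - d1 ^ 2) := by
    rcases uniq hq q0 hqe hXY.symm with ⟨f1, f2⟩ | ⟨f1, f2⟩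
    · left; rw [f1, f2]
    · right; rw [f1, f2]; ring
  have hpm : h * h' - 4 * m * m' = P - Q ∨ h * h' - 4 * m * m' = -(P - Q) := by
    rcases hX with g | g
    · left; rw [← hXY2, g, hPQ]
    · right; rw [← hXY2, g, hPQ]; ring
  obtain ⟨s1, s2⟩ := hprod
  rcases sq_eq_sq_iff_eq_or_eq_neg.mp s1 with g1 | g1 <;> rcases sq_eq_sq_iff_eq_or_eq_neg.mp s2 with g2 | g2
  · exact Or.inl ⟨g1, g2⟩
  · exfalso
    rcases hpm with g | g
    · rw [g1, g2] at g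
      have : Q = 0 := by linarith
      exact hmm (by rw [g2, this]; rfl)
    · rw [g1, g2] at g
      have : P = 0 := by linarith
      exact hh (by rw [g1, this])
  · exfalso
    rcases hpm with g | g
    · rw [g1, g2] at g
      have : P = 0 := by linarith
      exact hh (by rw [g1, this]; rfl)
    · rw [g1, g2] at g
      have : Q = 0 := by linarith
      exact hmm (by rw [g2, this])
  · exact Or.inr ⟨g1, g2⟩

theorem main : S_SGN := by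
  intro p q a b c d h h' m m' X Y hp hq hpq hp4 hq4 ha hab hpe hc hcd hqe hac hm hm' h2 h2' hXY hXY2
  have hb : 0 < b := ha.trans hab
  have hd : 0 < d := hc.trans hcd
  have par : ∀ (r x y : ℤ), r % 4 = 1 → r = x ^ 2 + y ^ 2 → (x % 2 = 0 → y % 2 = 1) ∧ (x % 2 = 1 → y % 2 = 0) := by
    intro r x y hr hxy
    constructor
    · intro hx
      rcases Int.emod_two_eq_zero_or_one y with g | g
      · exfalso
        obtain ⟨x', rfl⟩ : ∃ x', x = 2 * x' := ⟨x / 2, by omega⟩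
        obtain ⟨y', rfl⟩ : ∃ y', y = 2 * y' := ⟨y / 2, by omega⟩
        have : r = 4 * (x' ^ 2 + y' ^ 2) := by rw [hxy]; ring
        omega
      · exact g
    · intro hx
      rcases Int.emod_two_eq_zero_or_one y with g | g
      · exact g
      · exfalso
        obtain ⟨x', rfl⟩ : ∃ x', x = 2 * x' + 1 := ⟨x / 2, by omega⟩
        obtain ⟨y', rfl⟩ : ∃ y', y = 2 * y' + 1 := ⟨y / 2, by omega⟩
        have : r = 4 * (x' ^ 2 + x' + y' ^ 2 + y') + 2 := by rw [hxy]; ring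
        omega
  constructor
  · intro ha2
    have hb2 := (par p a b hp4 hpe).1 ha2
    have hc2 : c % 2 = 1 := by omega
    have hd2 := (par q c d hq4 hqe).2 hc2
    have hcore := core (a1 := b) (b1 := a) (c1 := c) (d1 := d) hp hq hpq hb hc hb2 ha2 hc2 hd2
      (by rw [hpe]; ring) hqe hm hm' h2 h2' hXY hXY2
    rcases hcore with ⟨g1, -⟩ | ⟨-, g2⟩
    · rw [g1]
      obtain ⟨b', rfl⟩ : ∃ x', b = 2 * x' + 1 := ⟨b / 2, by omega⟩
      obtain ⟨a', rfl⟩ : ∃ x', a = 2 * x' := ⟨a / 2, by omega⟩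
      obtain ⟨c', rfl⟩ : ∃ x', c = 2 * x' + 1 := ⟨c / 2, by omega⟩
      have : (2 * b' + 1) ^ 2 * (2 * c' + 1) ^ 2 - (2 * a') ^ 2 * d ^ 2 =
          4 * (4 * (b' ^ 2 + b') * (c' ^ 2 + c') + (b' ^ 2 + b') + (c' ^ 2 + c') - a' ^ 2 * d ^ 2) + 1 := by ring
      omega
    · exfalso
      have e1 : a * c < b * d := by nlinarith
      have e2 : (a * c) ^ 2 < (b * d) ^ 2 := by
        have : 0 < a * c := mul_pos ha hc
        nlinarith
      have e3 : 0 < 4 * m * m' := by positivity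
      have e4 : (a * c) ^ 2 = a ^ 2 * c ^ 2 := by ring
      have e5 : (b * d) ^ 2 = b ^ 2 * d ^ 2 := by ring
      linarith
  · intro ha2
    have hb2 := (par p a b hp4 hpe).2 ha2
    have hc2 : c % 2 = 0 := by omega
    have hd2 := (par q c d hq4 hqe).1 hc2
    have hcore := core (a1 := a) (b1 := b) (c1 := d) (d1 := c) hp hq hpq ha hd ha2 hb2 hd2 hc2
      hpe (by rw [hqe]; ring) hm hm' h2 h2' hXY hXY2
    rcases hcore with ⟨-, g2⟩ | ⟨g1, -⟩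
    · exfalso
      have e1 : a * c < b * d := by nlinarith
      have e2 : (a * c) ^ 2 < (b * d) ^ 2 := by
        have : 0 < a * c := mul_pos ha hc
        nlinarith
      have e3 : 0 < 4 * m * m' := by positivity
      have e4 : (a * c) ^ 2 = a ^ 2 * c ^ 2 := by ring
      have e5 : (b * d) ^ 2 = b ^ 2 * d ^ 2 := by ring
      linarith
    · rw [g1]
      obtain ⟨a', rfl⟩ : ∃ x', a = 2 * x' + 1 := ⟨a / 2, by omega⟩
      obtain ⟨b', rfl⟩ : ∃ x', b = 2 * x' := ⟨b / 2, by omega⟩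
      obtain ⟨d', rfl⟩ : ∃ x', d = 2 * x' + 1 := ⟨d / 2, by omega⟩
      have : -((2 * a' + 1) ^ 2 * (2 * d' + 1) ^ 2 - (2 * b') ^ 2 * c ^ 2) =
          4 * (-(4 * (a' ^ 2 + a') * (d' ^ 2 + d') + (a' ^ 2 + a') + (d' ^ 2 + d') - b' ^ 2 * c ^ 2) - 1) + 3 := by
        ring
      omega

end Pool.Agent.R169.MC.Sgn
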