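import Pool.Agent.R169.MC.Dyn

/-!
Project MC, statements of the assembly pieces.
-/

namespace Pool.Agent.R169.MC
open Finset Function Dyn

/-- number of orbits of `T = al ∘ F` modulo 4, odd case -/
def S_CN : Prop := S_NEI → S_FIN → ∀ (p q D : ℤ) [NS D] (_ : PQ p q D) (hD : D % 4 = 1)
  (c c' : Xs D), (∀ e : Edge D, ∃ n : ℕ, F^[n] e = al e) →
  c.1.a = 1 → c.1.h = 1 → c'.1.a = p → c'.1.h = p →
  ¬ (Tp D hD).SameCycle c c' →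
  (∀ x, (Tp D hD).SameCycle x (tp D hD x) →
    ((Tp D hD).SameCycle c x ∨ (Tp D hD).SameCycle c' x)) →
  (Nat.card (Quotient (Equiv.Perm.SameCycle.setoid (Tp D hD))) : ℤ)
    ≡ 3 + jacobiSym q p.natAbs [ZMOD 4]

/-- the two squares data -/
structure TS (p q a b c d : ℤ) : Prop where
  a0 : 0 < a
  ab : a < b
  hp : p = a ^ 2 + b ^ 2
  c0 : 0 < c
  cd : c < d
  hq : q = c ^ 2 + d ^ 2
  par : (a + c) % 2 = 1

def S_ODD : Prop := ∀ (p q D a b c d : ℤ) [NS D] (_ : PQ p q D) (_ : D % 4 = 1),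
  TS p q a b c d → (∃ (e : Edge D) (n : ℕ), F^[n] e = al e) →
  ((a % 2 = 0 → (Nat.card (Xs D) : ℤ) ≡ 1 - jacobiSym q p.natAbs [ZMOD 4]) ∧
   (a % 2 = 1 → (Nat.card (Xs D) : ℤ) ≡ 1 + jacobiSym q p.natAbs [ZMOD 4]))

def S_EVEN : Prop := ∀ (p q D a b c d : ℤ) [NS D] (_ : PQ p q D) (_ : D % 4 = 1),
  TS p q a b c d → ¬ (∃ (e : Edge D) (n : ℕ), F^[n] e = al e) →
  jacobiSym q p.natAbs = 1 ∧
  ((a % 2 = 0 → (Nat.card (Xs D) : ℤ) ≡ 0 [ZMOD 4]) ∧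
   (a % 2 = 1 → (Nat.card (Xs D) : ℤ) ≡ 2 [ZMOD 4]))

/-- even case from the other pieces -/
def S_EVEN' : Prop := S_DIHE → S_WRD → S_UPOS → S_GA2 → S_SGN → S_FIXC → S_FIXE → S_FIN → S_EVEN

end Pool.Agent.R169.MC
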