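import Mathlib
import Pool.Agent.R169.MC.Stm

set_option autoImplicit false

namespace Pool.Agent.R169.MC.UNeg

open Finset Function

variable {D : ℤ}

lemma sqf {p q D : ℤ} (h : PQ p q D) : Squarefree D := by
  rw [h.hD, squarefree_mul_iff]
  refine ⟨?_, h.hp.squarefree, h.hq.squarefree⟩
  rw [h.hp.irreducible.isRelPrime_iff_not_dvd]
  intro hd
  have h1 := (h.hp.dvd_prime_iff_associated h.hq).1 hd
  rcases Int.associated_iff.1 h1 with h2 | h2
  · have := h.hlt; omega
  · have := h.hlt; have := h.p0; omega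

lemma bez {p q D : ℤ} (h : PQ p q D) (e : Edge D) :
    ∃ α β γ : ℤ, α * e.a + β * e.h + γ * e.b = 1 := by
  have h1 := Int.gcd_eq_gcd_ab e.a e.h
  have h2 := Int.gcd_eq_gcd_ab (Int.gcd e.a e.h : ℤ) e.b
  set g : ℕ := Int.gcd (Int.gcd e.a e.h : ℤ) e.b with hg
  have ga : (g : ℤ) ∣ (Int.gcd e.a e.h : ℤ) := Int.gcd_dvd_left ..
  have gb : (g : ℤ) ∣ e.b := Int.gcd_dvd_right ..
  have gaa : (g : ℤ) ∣ e.a := ga.trans (Int.gcd_dvd_left ..)
  have gh : (g : ℤ) ∣ e.h := ga.trans (Int.gcd_dvd_right ..)
  have hgg : (g : ℤ) * g ∣ D := by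
    rw [← e.eq]
    apply dvd_add
    · rw [sq]; exact mul_dvd_mul gh gh
    · rw [mul_assoc]; exact (mul_dvd_mul gaa gb).mul_left 4
  have hu : IsUnit (g : ℤ) := sqf h _ hgg
  have hg1 : (g : ℤ) = 1 := by
    rcases Int.isUnit_iff.1 hu with h3 | h3
    · exact h3
    · have : (0 : ℤ) ≤ g := Int.natCast_nonneg _
      omega
  refine ⟨Int.gcdA e.a e.h * Int.gcdA (Int.gcd e.a e.h : ℤ) e.b,
    Int.gcdB e.a e.h * Int.gcdA (Int.gcd e.a e.h : ℤ) e.b,
    Int.gcdB (Int.gcd e.a e.h : ℤ) e.b, ?_⟩
  rw [hg1] at h2
  linear_combination (-1) * h2 - Int.gcdA (Int.gcd e.a e.h : ℤ) e.b * h1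

lemma Dodd {p q D : ℤ} (h : PQ p q D) : D % 4 = 1 ∧ 5 ≤ D := by
  have h1 := h.p4
  have h2 := h.q4
  have h3 := h.p0
  have h4 := h.hlt
  have h5 := h.hD
  refine ⟨?_, ?_⟩
  · rw [h5, Int.mul_emod, h1, h2]; rfl
  · have h6 : 1 ≤ p := h3
    have h7 : 5 ≤ q := by omega
    rw [h5]; nlinarith

/-- parity -/
lemma par {D : ℤ} (e : Edge D) (t u s : ℤ) (ht : t ^ 2 - D * u ^ 2 = 4 * s) :
    ∃ z : ℤ, t - e.h * u = 2 * z := by
  have h1 := e.eq
  have h2 : (t - e.h * u) * (t + e.h * u) = 4 * (s + e.a * e.b * u ^ 2) := by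
    linear_combination ht - u ^ 2 * h1
  have h3 : Even ((t - e.h * u) * (t + e.h * u)) := ⟨2 * (s + e.a * e.b * u ^ 2), by rw [h2]; ring⟩
  rw [Int.even_mul] at h3
  rcases h3 with h3 | h3
  · obtain ⟨z, hz⟩ := h3
    exact ⟨z, by rw [hz]; ring⟩
  · obtain ⟨z, hz⟩ := h3
    exact ⟨z - e.h * u, by linear_combination hz⟩

theorem main : S_UNEG' := by
  intro hW hC p q D inst hpq e
  obtain ⟨hD4, hD5⟩ := Dodd hpq
  constructor
  · intro n hn
    obtain ⟨hrel, hNN, hdet, -, -⟩ := hW D e n
    rw [hn] at hrel
    obtain ⟨E1, E2, E3⟩ := hrel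
    obtain ⟨α, β, γ, hb⟩ := bez hpq e
    obtain ⟨nx, ny, nz, nt⟩ := hNN
    have E4 : (Wm n e).x * (Wm n e).t - (Wm n e).y * (Wm n e).z = 1 := hdet
    simp only [al, val, pol] at E1 E2 E3
    generalize (Wm n e).x = x at *
    generalize (Wm n e).y = y at *
    generalize (Wm n e).z = z at *
    generalize (Wm n e).t = t at *
    have he := e.eq
    have ha := e.ha
    have hb0 := e.hb
    generalize e.a = a at *
    generalize e.b = b at *
    generalize e.h = h at *
    have L1 : a * x = b * t := by
      have : 2 * (a * x) = 2 * (b * t) := by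
        linear_combination (-2 * t) * E1 + y * E2 - (2 * a * x + h * y) * E4
      linarith
    have L2 : h * x = b * (y - z) := by
      have : 2 * (h * x) = 2 * (b * (y - z)) := by
        linear_combination (-(h * x - 2 * b * y)) * E4 + 2 * z * E1 - x * E2
      linarith
    have L3 : h * t = a * (y - z) := by
      have : 2 * (h * t) = 2 * (a * (y - z)) := by
        linear_combination (-(2 * a * z + h * t)) * E4 - t * E2 - 2 * y * E3
      linarith
    set u : ℤ := γ * x + α * t + β * (y - z) with hu
    have hx : x = b * u := by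
      rw [hu]; linear_combination (-x) * hb + α * L1 + β * L2
    have ht : t = a * u := by
      rw [hu]; linear_combination (-t) * hb - γ * L1 + β * L3
    have hyz : y - z = h * u := by
      rw [hu]; linear_combination (-(y - z)) * hb - γ * L2 - α * L3
    have hTu : (y + z) ^ 2 - D * u ^ 2 = -4 := by
      have : (y + z) ^ 2 - (y - z) ^ 2 = 4 * (x * t - 1) := by linear_combination (-4) * E4
      rw [hyz, hx, ht] at this
      linear_combination this + u ^ 2 * he
    have hu0 : 0 ≤ u := by
      by_contra hneg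
      push Not at hneg
      have : b * u < 0 := mul_neg_of_pos_of_neg hb0 hneg
      omega
    have hu1 : 0 < u := by
      rcases lt_or_eq_of_le hu0 with h1 | h1
      · exact h1
      · exfalso
        rw [← h1] at hx ht hyz
        rw [hx, ht] at E4
        have : y = z := by linarith
        rw [this] at E4
        nlinarith [sq_nonneg z]
    have hT0 : 0 < y + z := by
      rcases lt_or_eq_of_le (add_nonneg ny nz) with h1 | h1
      · exact h1
      · exfalso
        rw [← h1] at hTu
        nlinarith [hTu, mul_pos hu1 hu1]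
    exact ⟨y + z, u, hT0, hu1, hTu, hx, by linear_combination (-1) * hyz, by linear_combination hyz,
      ht⟩
  · intro t u ht hu htu
    obtain ⟨z, hz⟩ := par e t u (-1) (by linarith)
    have he := e.eq
    have ha := e.ha
    have hb0 := e.hb
    have key : e.a * e.b * u ^ 2 - (z + e.h * u) * z = 1 := by
      have : 4 * (e.a * e.b * u ^ 2 - (z + e.h * u) * z) = 4 * 1 := by
        have h1 : t = 2 * z + e.h * u := by linarith
        rw [h1] at htu
        linear_combination (-1) * htu + u ^ 2 * he
      linarith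
    have hzy : 0 ≤ z ∧ 0 ≤ z + e.h * u := by
      have hs : 0 < z + (z + e.h * u) := by linarith
      have hp : 0 ≤ (z + e.h * u) * z := by
        have : 0 < e.a * e.b * u ^ 2 := by positivity
        linarith
      constructor
      · by_contra hneg
        push Not at hneg
        nlinarith
      · by_contra hneg
        push Not at hneg
        nlinarith
    obtain ⟨n, hn, hF⟩ := hC D e (al e) ⟨e.b * u, z + e.h * u, z, e.a * u⟩
      ⟨by positivity, hzy.2, hzy.1, by positivity⟩
      (by show e.b * u * (e.a * u) - (z + e.h * u) * z = 1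
          linear_combination key)
      ⟨by
        show e.b = val e (e.b * u) (z + e.h * u)
        simp only [val]
        linear_combination (-e.b) * key,
       by
        show -e.h = pol e (e.b * u) (z + e.h * u) z (e.a * u)
        simp only [pol]
        linear_combination e.h * key,
       by
        show e.a = - val e z (e.a * u)
        simp only [val]
        linear_combination (-e.a) * key⟩
    refine ⟨n, hF, ?_, ?_, ?_, ?_⟩
    · rw [← hn]
    · rw [← hn]
      show 2 * z = t - e.h * u
      linarith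
    · rw [← hn]
      show 2 * (z + e.h * u) = t + e.h * u
      linarith
    · rw [← hn]

end Pool.Agent.R169.MC.UNeg
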