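import Mathlib
import Pool.Agent.R169.MC.Stm

set_option autoImplicit false

namespace Pool.Agent.R169.MC.UPos

open Finset Function

variable {D : ℤ}

lemma sqf {p q D : ℤ} (h : PQ p q D) : Squarefree D := by
  rw [h.hD, squarefree_mul_iff]
  refine ⟨?_, h.hp.squarefree, h.hq.squarefree⟩
  rw [h.hp.irreducible.isRelPrime_iff_not_dvd]
  intro hd
  have h1 := (h.hp.dvd_prime_iff_associated h.hq).1 hd
  rcases Int.associated_iff.1 h1 with h2 | h2
  · have := h.hlt; omega
  · have := h.hlt; have := h.p0; omega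

lemma bez {p q D : ℤ} (h : PQ p q D) (e : Edge D) :
    ∃ α β γ : ℤ, α * e.a + β * e.h + γ * e.b = 1 := by
  have h1 := Int.gcd_eq_gcd_ab e.a e.h
  have h2 := Int.gcd_eq_gcd_ab (Int.gcd e.a e.h : ℤ) e.b
  set g : ℕ := Int.gcd (Int.gcd e.a e.h : ℤ) e.b with hg
  have ga : (g : ℤ) ∣ (Int.gcd e.a e.h : ℤ) := Int.gcd_dvd_left ..
  have gb : (g : ℤ) ∣ e.b := Int.gcd_dvd_right ..
  have gaa : (g : ℤ) ∣ e.a := ga.trans (Int.gcd_dvd_left ..)
  have gh : (g : ℤ) ∣ e.h := ga.trans (Int.gcd_dvd_right ..)
  have hgg : (g : ℤ) * g ∣ D := by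
    rw [← e.eq]
    apply dvd_add
    · rw [sq]; exact mul_dvd_mul gh gh
    · rw [mul_assoc]; exact (mul_dvd_mul gaa gb).mul_left 4
  have hu : IsUnit (g : ℤ) := sqf h _ hgg
  have hg1 : (g : ℤ) = 1 := by
    rcases Int.isUnit_iff.1 hu with h3 | h3
    · exact h3
    · have : (0 : ℤ) ≤ g := Int.natCast_nonneg _
      omega
  refine ⟨Int.gcdA e.a e.h * Int.gcdA (Int.gcd e.a e.h : ℤ) e.b,
    Int.gcdB e.a e.h * Int.gcdA (Int.gcd e.a e.h : ℤ) e.b,
    Int.gcdB (Int.gcd e.a e.h : ℤ) e.b, ?_⟩
  rw [hg1] at h2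
  linear_combination (-1) * h2 - Int.gcdA (Int.gcd e.a e.h : ℤ) e.b * h1

lemma Dodd {p q D : ℤ} (h : PQ p q D) : D % 4 = 1 ∧ 5 ≤ D := by
  have h1 := h.p4
  have h2 := h.q4
  have h3 := h.p0
  have h4 := h.hlt
  have h5 := h.hD
  refine ⟨?_, ?_⟩
  · rw [h5, Int.mul_emod, h1, h2]; rfl
  · have h6 : 1 ≤ p := h3
    have h7 : 5 ≤ q := by omega
    rw [h5]; nlinarith

/-- parity -/
lemma par {D : ℤ} (e : Edge D) (t u s : ℤ) (ht : t ^ 2 - D * u ^ 2 = 4 * s) :
    ∃ z : ℤ, t - e.h * u = 2 * z := by
  have h1 := e.eq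
  have h2 : (t - e.h * u) * (t + e.h * u) = 4 * (s + e.a * e.b * u ^ 2) := by
    linear_combination ht - u ^ 2 * h1
  have h3 : Even ((t - e.h * u) * (t + e.h * u)) := ⟨2 * (s + e.a * e.b * u ^ 2), by rw [h2]; ring⟩
  rw [Int.even_mul] at h3
  rcases h3 with h3 | h3
  · obtain ⟨z, hz⟩ := h3
    exact ⟨z, by rw [hz]; ring⟩
  · obtain ⟨z, hz⟩ := h3
    exact ⟨z - e.h * u, by linear_combination hz⟩

lemma ne_one (hW : S_WRD) [NS D] (e : Edge D) (n : ℕ) (hn : 0 < n) :
    ¬ ((Wm n e).y = 0 ∧ (Wm n e).z = 0 ∧ (Wm n e).x = 1 ∧ (Wm n e).t = 1) := by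
  obtain ⟨m, rfl⟩ : ∃ m, n = m + 1 := ⟨n - 1, by omega⟩
  rintro ⟨h1, h2, h3, h4⟩
  obtain ⟨-, ⟨nx, ny, nz, nt⟩, -, -, -⟩ := hW D (F e) m
  simp only [Wm, Mt.mul, lt] at h1 h2 h3 h4
  by_cases hc : 0 < e.a + e.h - e.b
  · simp only [hc, if_true] at h1 h2 h3 h4
    omega
  · simp only [hc, if_false] at h1 h2 h3 h4
    omega

theorem main : S_UPOS' := by
  intro hW hC p q D inst hpq e
  obtain ⟨hD4, hD5⟩ := Dodd hpq
  constructor
  · intro n hn0 hn
    have hne := ne_one hW e n hn0
    obtain ⟨hrel, hNN, hdet, -, -⟩ := hW D e n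
    rw [hn] at hrel
    obtain ⟨E1, E2, E3⟩ := hrel
    obtain ⟨α, β, γ, hb⟩ := bez hpq e
    obtain ⟨nx, ny, nz, nt⟩ := hNN
    have E4 : (Wm n e).x * (Wm n e).t - (Wm n e).y * (Wm n e).z = 1 := hdet
    simp only [val, pol] at E1 E2 E3
    generalize (Wm n e).x = x at *
    generalize (Wm n e).y = y at *
    generalize (Wm n e).z = z at *
    generalize (Wm n e).t = t at *
    have he := e.eq
    have ha := e.ha
    have hb0 := e.hb
    generalize e.a = a at *
    generalize e.b = b at *
    generalize e.h = h at *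
    have L1 : h * y = a * (t - x) := by
      have : 2 * (h * y) = 2 * (a * (t - x)) := by
        linear_combination (-2 * t) * E1 + y * E2 - (2 * a * x + h * y) * E4
      linarith
    have L2 : b * y = a * z := by
      have : 2 * (b * y) = 2 * (a * z) := by
        linear_combination (h * x - 2 * b * y) * E4 - 2 * z * E1 + x * E2
      linarith
    have L3 : h * z = b * (t - x) := by
      have : 2 * (h * z) = 2 * (b * (t - x)) := by
        linear_combination (-(h * z - 2 * b * t)) * E4 + z * E2 + 2 * x * E3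
      linarith
    set u : ℤ := α * y + β * (t - x) + γ * z with hu
    have hy : y = a * u := by
      rw [hu]; linear_combination (-y) * hb + β * L1 + γ * L2
    have hz : z = b * u := by
      rw [hu]; linear_combination (-z) * hb - α * L2 + β * L3
    have htx : t - x = h * u := by
      rw [hu]; linear_combination (-(t - x)) * hb - α * L1 - γ * L3
    have hTu : (x + t) ^ 2 - D * u ^ 2 = 4 := by
      have : (x + t) ^ 2 - (t - x) ^ 2 = 4 * (y * z + 1) := by linear_combination 4 * E4
      rw [htx, hy, hz] at this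
      linear_combination this + u ^ 2 * he
    have hu0 : 0 ≤ u := by
      by_contra hneg
      push Not at hneg
      have : b * u < 0 := mul_neg_of_pos_of_neg hb0 hneg
      omega
    have hu1 : 0 < u := by
      rcases lt_or_eq_of_le hu0 with h1 | h1
      · exact h1
      · exfalso
        rw [← h1] at hy hz htx
        have hy0 : y = 0 := by simpa using hy
        have hz0 : z = 0 := by simpa using hz
        have hxt : t = x := by linarith
        rw [hy0, hz0, hxt] at E4
        have hx1 : x = 1 := by nlinarith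
        exact hne ⟨hy0, hz0, hx1, by rw [hxt, hx1]⟩
    have hT0 : 0 < x + t := by
      rcases lt_or_eq_of_le (add_nonneg nx nt) with h1 | h1
      · exact h1
      · exfalso
        rw [← h1] at hTu
        have h2 : 0 ≤ D * u ^ 2 := mul_nonneg (by omega) (sq_nonneg u)
        have h3 : (0 : ℤ) ^ 2 = 0 := by norm_num
        rw [h3] at hTu
        linarith
    exact ⟨x + t, u, hT0, hu1, hTu, by linear_combination (-1) * htx, hz, hy,
      by linear_combination htx⟩
  · intro t u ht hu htu
    obtain ⟨z, hz⟩ := par e t u 1 (by linarith)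
    have he := e.eq
    have ha := e.ha
    have hb0 := e.hb
    have key : (z + e.h * u) * z - e.a * e.b * u ^ 2 = 1 := by
      have : 4 * ((z + e.h * u) * z - e.a * e.b * u ^ 2) = 4 * 1 := by
        have h1 : t = 2 * z + e.h * u := by linarith
        rw [h1] at htu
        linear_combination htu - u ^ 2 * he
      linarith
    have hzy : 0 ≤ z ∧ 0 ≤ z + e.h * u := by
      have hs : 0 < z + (z + e.h * u) := by linarith
      have hp : 0 ≤ (z + e.h * u) * z := by
        have : 0 < e.a * e.b * u ^ 2 := by positivity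
        linarith
      constructor
      · by_contra hneg
        push Not at hneg
        nlinarith
      · by_contra hneg
        push Not at hneg
        nlinarith
    obtain ⟨n, hn, hF⟩ := hC D e e ⟨z, e.a * u, e.b * u, z + e.h * u⟩
      ⟨hzy.1, by positivity, by positivity, hzy.2⟩
      (by show z * (z + e.h * u) - e.a * u * (e.b * u) = 1
          linear_combination key)
      ⟨by
        show e.a = val e z (e.a * u)
        simp only [val]
        linear_combination (-e.a) * key,
       by
        show e.h = pol e z (e.a * u) (e.b * u) (z + e.h * u)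
        simp only [pol]
        linear_combination (-e.h) * key,
       by
        show e.b = - val e (e.b * u) (z + e.h * u)
        simp only [val]
        linear_combination (-e.b) * key⟩
    refine ⟨n, ?_, hF, ?_, ?_, ?_, ?_⟩
    · rcases Nat.eq_zero_or_pos n with h0 | h0
      · exfalso
        rw [h0] at hn
        have h1 := congrArg Mt.y hn
        simp only [Wm, Mt.one] at h1
        have : 0 < e.a * u := by positivity
        omega
      · exact h0
    · rw [← hn]
      show 2 * z = t - e.h * u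
      linarith
    · rw [← hn]
    · rw [← hn]
    · rw [← hn]
      show 2 * (z + e.h * u) = t + e.h * u
      linarith

end Pool.Agent.R169.MC.UPos
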