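import Mathlib
import Pool.Agent.R169.MC.Stm

/-!
Project MC (MP_6dddb9_nt): piece WRD.
-/

namespace Pool.Agent.R169.MC.Wrd

variable {D : ℤ}

lemma F_pos [NS D] (e : Edge D) (h : 0 < e.a + e.h - e.b) :
    (F e).a = e.a + e.h - e.b ∧ (F e).h = e.h - 2 * e.b ∧ (F e).b = e.b := by
  unfold F
  rw [dif_pos h]
  exact ⟨rfl, rfl, rfl⟩

lemma F_neg [NS D] (e : Edge D) (h : ¬ 0 < e.a + e.h - e.b) :
    (F e).a = e.a ∧ (F e).h = e.h + 2 * e.a ∧ (F e).b = e.b - e.a - e.h := by
  unfold F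
  rw [dif_neg h]
  exact ⟨rfl, rfl, rfl⟩

lemma rel_lt [NS D] (e : Edge D) : Rel e (lt e) (F e) := by
  unfold Rel lt
  by_cases h : 0 < e.a + e.h - e.b
  · obtain ⟨h1, h2, h3⟩ := F_pos e h
    rw [if_pos h, h1, h2, h3]
    simp only [val, pol]
    refine ⟨?_, ?_, ?_⟩ <;> ring
  · obtain ⟨h1, h2, h3⟩ := F_neg e h
    rw [if_neg h, h1, h2, h3]
    simp only [val, pol]
    refine ⟨?_, ?_, ?_⟩ <;> ring

lemma rel_one (e : Edge D) : Rel e Mt.one e := by
  unfold Rel Mt.one
  simp only [val, pol]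
  refine ⟨?_, ?_, ?_⟩ <;> ring

lemma rel_mul {e e' e'' : Edge D} {P Q : Mt} (h1 : Rel e P e') (h2 : Rel e' Q e'') :
    Rel e (P.mul Q) e'' := by
  obtain ⟨a1, a2, a3⟩ := h1
  obtain ⟨b1, b2, b3⟩ := h2
  simp only [val, pol] at a1 a2 a3 b1 b2 b3
  unfold Rel Mt.mul
  simp only [val, pol]
  refine ⟨?_, ?_, ?_⟩
  · rw [b1, a1, a2, a3]; ring
  · rw [b2, a1, a2, a3]; ring
  · rw [b3, a1, a2, a3]; ring

lemma nn_mul {P Q : Mt} (h1 : P.NN) (h2 : Q.NN) : (P.mul Q).NN := by
  obtain ⟨a1, a2, a3, a4⟩ := h1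
  obtain ⟨b1, b2, b3, b4⟩ := h2
  unfold Mt.NN Mt.mul
  refine ⟨?_, ?_, ?_, ?_⟩ <;> simp only <;> positivity

lemma det_mul (P Q : Mt) : (P.mul Q).det = P.det * Q.det := by
  unfold Mt.det Mt.mul
  simp only
  ring

lemma mul_assoc' (P Q R : Mt) : (P.mul Q).mul R = P.mul (Q.mul R) := by
  unfold Mt.mul
  ext <;> simp only <;> ring

lemma one_mul' (P : Mt) : Mt.one.mul P = P := by
  unfold Mt.mul Mt.one
  ext <;> simp only <;> ring

lemma mul_one' (P : Mt) : P.mul Mt.one = P := by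
  unfold Mt.mul Mt.one
  ext <;> simp only <;> ring

lemma tr_mul (P Q : Mt) : (P.mul Q).tr = Q.tr.mul P.tr := by
  unfold Mt.mul Mt.tr
  ext <;> simp only <;> ring

lemma lt_nn (e : Edge D) : (lt e).NN := by
  unfold lt Mt.NN
  split_ifs <;> simp

lemma lt_det (e : Edge D) : (lt e).det = 1 := by
  unfold lt Mt.det
  split_ifs <;> simp

lemma refl [NS D] (e : Edge D) : F (al (rh (F e))) = al (rh e) ∧
    lt (al (rh (F e))) = (lt e).tr := by
  by_cases h : 0 < e.a + e.h - e.b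
  · obtain ⟨h1, h2, h3⟩ := F_pos e h
    have g1 : (al (rh (F e))).a = e.b := h3
    have g2 : (al (rh (F e))).h = e.h - 2 * e.b := by
      show - -(F e).h = _
      rw [h2]; ring
    have g3 : (al (rh (F e))).b = e.a + e.h - e.b := h1
    have hn : ¬ 0 < (al (rh (F e))).a + (al (rh (F e))).h - (al (rh (F e))).b := by
      rw [g1, g2, g3]
      have := e.ha
      omega
    obtain ⟨k1, k2, k3⟩ := F_neg _ hn
    refine ⟨?_, ?_⟩
    · ext
      · rw [k1, g1]; rfl
      · rw [k2, g1, g2]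
        show _ = - -e.h
        ring
      · rw [k3, g1, g2, g3]
        show _ = e.a
        ring
    · unfold lt
      rw [if_neg hn, if_pos h]
      rfl
  · obtain ⟨h1, h2, h3⟩ := F_neg e h
    have g1 : (al (rh (F e))).a = e.b - e.a - e.h := h3
    have g2 : (al (rh (F e))).h = e.h + 2 * e.a := by
      show - -(F e).h = _
      rw [h2]; ring
    have g3 : (al (rh (F e))).b = e.a := h1
    have hn : 0 < (al (rh (F e))).a + (al (rh (F e))).h - (al (rh (F e))).b := by
      rw [g1, g2, g3]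
      have := e.hb
      omega
    obtain ⟨k1, k2, k3⟩ := F_pos _ hn
    refine ⟨?_, ?_⟩
    · ext
      · rw [k1, g1, g2, g3]
        show _ = e.b
        ring
      · rw [k2, g2, g3]
        show _ = - -e.h
        ring
      · rw [k3, g3]; rfl
    · unfold lt
      rw [if_pos hn, if_neg h]
      rfl

lemma add [NS D] (n : ℕ) : ∀ (e : Edge D) (j : ℕ),
    Wm (n + j) e = (Wm n e).mul (Wm j (F^[n] e)) := by
  induction n with
  | zero =>
    intro e j
    rw [Nat.zero_add]
    show _ = Mt.one.mul _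
    rw [one_mul']
    rfl
  | succ n ih =>
    intro e j
    have e1 : n + 1 + j = (n + j) + 1 := by ring
    rw [e1]
    show (lt e).mul (Wm (n + j) (F e)) = ((lt e).mul (Wm n (F e))).mul _
    rw [ih (F e) j, mul_assoc', Function.iterate_succ_apply]

theorem main : S_WRD := by
  intro D _ e n
  have h1 : ∀ (n : ℕ) (e : Edge D), Rel e (Wm n e) (F^[n] e) ∧ (Wm n e).NN ∧
      (Wm n e).det = 1 := by
    intro n
    induction n with
    | zero =>
      intro e
      refine ⟨rel_one e, ?_, ?_⟩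
      · show Mt.one.NN
        unfold Mt.NN Mt.one
        simp
      · show Mt.one.det = 1
        unfold Mt.det Mt.one
        simp
    | succ n ih =>
      intro e
      obtain ⟨i1, i2, i3⟩ := ih (F e)
      rw [Function.iterate_succ_apply]
      refine ⟨rel_mul (rel_lt e) i1, nn_mul (lt_nn e) i2, ?_⟩
      show ((lt e).mul (Wm n (F e))).det = 1
      rw [det_mul, lt_det, i3, one_mul]
  have h2 : ∀ (n : ℕ) (e : Edge D), Wm n (al (rh (F^[n] e))) = (Wm n e).tr := by
    intro n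
    induction n with
    | zero =>
      intro e
      rfl
    | succ n ih =>
      intro e
      rw [Function.iterate_succ_apply']
      obtain ⟨r1, r2⟩ := refl (F^[n] e)
      show (lt (al (rh (F (F^[n] e))))).mul (Wm n (F (al (rh (F (F^[n] e)))))) = _
      rw [r1, r2, ih e, ← tr_mul, add n e 1]
      have e1 : Wm 1 (F^[n] e) = lt (F^[n] e) := by
        show (lt (F^[n] e)).mul Mt.one = _
        rw [mul_one']
      rw [e1]
  obtain ⟨k1, k2, k3⟩ := h1 n e
  exact ⟨k1, k2, k3, h2 n e, fun j => add n e j⟩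

end Pool.Agent.R169.MC.Wrd
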